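import Mathlib
import Pool.Agent.Lib.MP_b573ec_lc_ST.Model

/-!
# Read programs: nonuniform machines with a stack and few readings of the input

A read program on `n` Boolean variables with `T` readings and width `w` has random access to the
`n` bits of the input, `w` internal states (space `log2 w`) and a stack with `w` symbols; the height
of the stack and the number of moves are not bounded, only the number of moves in which a bit of the
input is read.
-/

namespace Pool.Agent.SR

open Pool.Agent.LT (Inp)
open Pool.Agent.ST (Conf)

/-- The moves of a read program with `w` states and `w` stack symbols: go to the state `q` and push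
the symbol `a`; go to the state `q` and remove the top symbol (if the stack is empty it stays
empty); read the variable `v` and go to the state `f b`, where `b` is its value. -/
inductive Move (n w : ℕ)
  | push (q a : Fin w)
  | pop (q : Fin w)
  | read (v : Fin n) (f : Bool → Fin w)

/-- A read program on `n` Boolean variables, with `T` readings and width `w`.  The move depends on
the number of readings made so far, on the state and on the top symbol of the stack (`none` if the
stack is empty).  At the start the stack is empty.  After `T` readings the program stops, and its
output is the value of `acc` at its state. -/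
structure ReadProg (n T w : ℕ) where
  start : Fin w
  move : Fin T → Fin w → Option (Fin w) → Move n w
  acc : Fin w → Bool

/-- one step of a read program on the input `x` (`c.pos`: number of readings made so far); nothing
changes after `T` readings -/
def ReadProg.step {n T w : ℕ} (P : ReadProg n T w) (x : Inp n) (c : Conf w) : Conf w :=
  if h : c.pos < T then
    match P.move ⟨c.pos, h⟩ c.state c.stack.head? with
    | .push q a => ⟨c.pos, q, a :: c.stack⟩
    | .pop q => ⟨c.pos, q, c.stack.tail⟩
    | .read v f => ⟨c.pos + 1, f (x v), c.stack⟩
  else c

/-- the configuration after `k` steps on the input `x` -/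
def ReadProg.conf {n T w : ℕ} (P : ReadProg n T w) (x : Inp n) (k : ℕ) : Conf w :=
  (P.step x)^[k] ⟨0, P.start, []⟩

/-- `P` makes all its readings on the input `x`, with output `b` -/
def ReadProg.Outputs {n T w : ℕ} (P : ReadProg n T w) (x : Inp n) (b : Bool) : Prop :=
  ∃ k, (P.conf x k).pos = T ∧ P.acc (P.conf x k).state = b

/-- `f` is computed by a deterministic read program with `T` readings and width `w` -/
def ReadsDet {n : ℕ} (f : Inp n → Bool) (T w : ℕ) : Prop :=
  ∃ P : ReadProg n T w, ∀ x, P.Outputs x (f x)

/-- `f` is computed by read programs with `T` readings and width `w` with one-sided error: the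
program may depend on `ρ` uniform random bits `c`; if `f x = 1` it has output `1` with probability
at least `1/2`, if `f x = 0` it never has output `1`. -/
def ReadsOneSided {n : ℕ} (f : Inp n → Bool) (T w : ℕ) : Prop :=
  ∃ (ρ : ℕ) (P : (Fin ρ → Bool) → ReadProg n T w),
    (∀ x, f x = true → 2 ^ ρ ≤ 2 * Nat.card {c : Fin ρ → Bool // (P c).Outputs x true}) ∧
    ∀ x, f x = false → ∀ c, ¬ (P c).Outputs x true

/-- `f` is computed by read programs with `T` readings and width `w` with two-sided error `1/3` -/
def ReadsTwoSided {n : ℕ} (f : Inp n → Bool) (T w : ℕ) : Prop :=
  ∃ (ρ : ℕ) (P : (Fin ρ → Bool) → ReadProg n T w),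
    ∀ x, 2 * 2 ^ ρ ≤ 3 * Nat.card {c : Fin ρ → Bool // (P c).Outputs x (f x)}

end Pool.Agent.SR
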