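import Pool.Agent.Lib.MP_b573ec_lc_SR.Sys
import Pool.Agent.Lib.MP_b573ec_lc_LT.Majority

/-!
# Repetition of a randomized family of functions with a threshold
-/

namespace Pool.Agent.SR

open Finset
open Pool.Agent.LT (Inp abad2)
open Pool.Agent.LT.MajorityAux (split card_split card_many)

theorem majority {n s : ℕ} (hs : 1 ≤ s) {F G : (Inp n → Bool) → Prop}
    (hFG : ∀ (g : Fin (12 * s) → Inp n → Bool) (τ : ℕ), (∀ i, F (g i)) →
      G fun x => decide (τ ≤ (univ.filter fun i => g i x = true).card))
    (f : Inp n → Bool) (h : TwoF F f) : SmallF G f s := by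
  have _ := hs
  obtain ⟨ρ, g, hg, hP⟩ := h
  refine ⟨12 * s * ρ, fun c x => decide (6 * s ≤
    (univ.filter fun i => g (split (12 * s) ρ c i) x = true).card),
    fun c => hFG _ _ (fun i => hg _), ?_⟩
  intro x
  set W := (univ.filter fun c => g c x ≠ f x).card with hW
  have hcard : Fintype.card (Fin ρ → Bool) = 2 ^ ρ := by simp
  have hW3 : 3 * W ≤ 2 ^ ρ := by
    have h1 := hP x
    have h2 : (univ.filter fun c => g c x = f x).card + W = 2 ^ ρ := by
      rw [hW, card_filter_add_card_filter_not, card_univ, hcard]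
    omega
  have hsub : (univ.filter fun c : Fin (12 * s * ρ) → Bool =>
      decide (6 * s ≤ (univ.filter fun i => g (split (12 * s) ρ c i) x = true).card) ≠ f x).card ≤
      (univ.filter fun c : Fin (12 * s * ρ) → Bool =>
        6 * s ≤ (univ.filter fun i => g (split (12 * s) ρ c i) x ≠ f x).card).card := by
    refine card_le_card ?_
    intro c hc
    simp only [mem_filter, mem_univ, true_and] at hc ⊢
    by_cases hf : f x = true
    · rw [hf] at hc ⊢
      have h1 : ¬ (6 * s ≤ (univ.filter fun j : Fin (12 * s) =>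
          g (split (12 * s) ρ c j) x = true).card) := by
        simpa using hc
      have h2 : (univ.filter fun j : Fin (12 * s) =>
          g (split (12 * s) ρ c j) x = true).card +
          (univ.filter fun j : Fin (12 * s) =>
            g (split (12 * s) ρ c j) x ≠ true).card = 12 * s := by
        rw [card_filter_add_card_filter_not, card_univ, Fintype.card_fin]
      omega
    · have hf' : f x = false := by simpa using hf
      rw [hf'] at hc ⊢
      have h1 : 6 * s ≤ (univ.filter fun j : Fin (12 * s) =>
          g (split (12 * s) ρ c j) x = true).card := by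
        simpa using hc
      simpa using h1
  have hcnt := card_split (12 * s) ρ
    (fun d => 6 * s ≤ (univ.filter fun i => g (d i) x ≠ f x).card)
  have hmany := card_many (12 * s) (6 * s) (fun c : Fin ρ → Bool => g c x ≠ f x)
  rw [hcnt] at hsub
  rw [hcard, ← hW] at hmany
  set N := (univ.filter fun d : Fin (12 * s) → Fin ρ → Bool =>
    6 * s ≤ (univ.filter fun i => g (d i) x ≠ f x).card).card with hN
  refine (Nat.mul_le_mul_right _ hsub).trans ?_
  -- numeric part
  have e1 : 3 ^ (12 * s) * (2 ^ ρ + W) ^ (12 * s) ≤ 4 ^ (12 * s) * (2 ^ ρ) ^ (12 * s) := by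
    rw [← mul_pow, ← mul_pow]
    exact Nat.pow_le_pow_left (by omega) _
  have e2 : 2 ^ s * 4 ^ (12 * s) ≤ 3 ^ (12 * s) * 2 ^ (6 * s) := by
    rw [pow_mul, pow_mul 3, pow_mul 2 6, ← mul_pow, ← mul_pow]
    exact Nat.pow_le_pow_left (by norm_num) _
  have e3 : (N * 2 ^ s) * (3 ^ (12 * s) * 2 ^ (6 * s)) ≤
      2 ^ (12 * s * ρ) * (3 ^ (12 * s) * 2 ^ (6 * s)) := by
    calc (N * 2 ^ s) * (3 ^ (12 * s) * 2 ^ (6 * s))
        = 2 ^ s * (3 ^ (12 * s) * (N * 2 ^ (6 * s))) := by ring
      _ ≤ 2 ^ s * (3 ^ (12 * s) * (2 ^ ρ + W) ^ (12 * s)) := by gcongr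
      _ ≤ 2 ^ s * (4 ^ (12 * s) * (2 ^ ρ) ^ (12 * s)) := by gcongr
      _ = (2 ^ s * 4 ^ (12 * s)) * (2 ^ ρ) ^ (12 * s) := by ring
      _ ≤ (3 ^ (12 * s) * 2 ^ (6 * s)) * (2 ^ ρ) ^ (12 * s) := by gcongr
      _ = 2 ^ (12 * s * ρ) * (3 ^ (12 * s) * 2 ^ (6 * s)) := by
        rw [← pow_mul, mul_comm ρ]
        ring
  exact Nat.le_of_mul_le_mul_right e3 (by positivity)

theorem one_amp {n s : ℕ} (hs : 1 ≤ s) {F G : (Inp n → Bool) → Prop}
    (hFG : ∀ (g : Fin (12 * s) → Inp n → Bool) (τ : ℕ), (∀ i, F (g i)) →
      G fun x => decide (τ ≤ (univ.filter fun i => g i x = true).card))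
    (f : Inp n → Bool) (h : OneF F f) : SmallF G f s := by
  have _ := hs
  obtain ⟨ρ, g, hg, hP1, hP0⟩ := h
  refine ⟨12 * s * ρ, fun c x => decide (1 ≤
    (univ.filter fun i => g (split (12 * s) ρ c i) x = true).card),
    fun c => hFG _ _ (fun i => hg _), ?_⟩
  intro x
  have hcard : Fintype.card (Fin ρ → Bool) = 2 ^ ρ := by simp
  by_cases hf : f x = true
  · set W := (univ.filter fun c => g c x = false).card with hW
    have hW2 : 2 * W ≤ 2 ^ ρ := by
      have h1 := hP1 x hf
      have h2 : (univ.filter fun c => g c x = true).card + W = 2 ^ ρ := by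
        have h3 : (univ.filter fun c => g c x = false) =
            univ.filter fun c => ¬ g c x = true := by
          ext c
          simp
        rw [hW, h3, card_filter_add_card_filter_not, card_univ, hcard]
      omega
    have hsub : (univ.filter fun c : Fin (12 * s * ρ) → Bool =>
        decide (1 ≤ (univ.filter fun i => g (split (12 * s) ρ c i) x = true).card) ≠ f x).card ≤
        (univ.filter fun c : Fin (12 * s * ρ) → Bool =>
          ∀ i, g (split (12 * s) ρ c i) x = false).card := by
      refine card_le_card ?_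
      intro c hc
      simp only [mem_filter, mem_univ, true_and] at hc ⊢
      rw [hf] at hc
      have h1 : ¬ (1 ≤ (univ.filter fun j : Fin (12 * s) =>
          g (split (12 * s) ρ c j) x = true).card) := by
        simpa using hc
      intro i
      by_contra h2
      apply h1
      refine card_pos.2 ⟨i, ?_⟩
      simp only [mem_filter, mem_univ, true_and]
      simpa using h2
    have hcnt := card_split (12 * s) ρ (fun d => ∀ i, g (d i) x = false)
    rw [hcnt] at hsub
    have hpow : (univ.filter fun d : Fin (12 * s) → Fin ρ → Bool =>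
        ∀ i, g (d i) x = false).card = W ^ (12 * s) := by
      have h3 : (univ.filter fun d : Fin (12 * s) → Fin ρ → Bool =>
          ∀ i, g (d i) x = false) =
          Fintype.piFinset fun _ : Fin (12 * s) =>
            (univ.filter fun c => g c x = false) := by
        ext d
        simp [Fintype.mem_piFinset]
      rw [h3, Fintype.card_piFinset_const, ← hW]
    rw [hpow] at hsub
    refine (Nat.mul_le_mul_right _ hsub).trans ?_
    calc W ^ (12 * s) * 2 ^ s ≤ W ^ (12 * s) * 2 ^ (12 * s) := by
          gcongr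
          · norm_num
          · omega
      _ = (2 * W) ^ (12 * s) := by rw [mul_pow, mul_comm]
      _ ≤ (2 ^ ρ) ^ (12 * s) := Nat.pow_le_pow_left hW2 _
      _ = 2 ^ (12 * s * ρ) := by rw [← pow_mul, mul_comm]
  · have hf' : f x = false := by simpa using hf
    have hemp : (univ.filter fun c : Fin (12 * s * ρ) → Bool =>
        decide (1 ≤ (univ.filter fun i => g (split (12 * s) ρ c i) x = true).card) ≠ f x) = ∅ := by
      ext c
      simp only [mem_filter, mem_univ, true_and, notMem_empty, iff_false, ne_eq, not_not]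
      rw [hf', decide_eq_false_iff_not]
      have : (univ.filter fun j : Fin (12 * s) =>
          g (split (12 * s) ρ c j) x = true) = ∅ := by
        ext j
        simp [hP0 x hf']
      rw [this]
      simp
    rw [hemp]
    simp

end Pool.Agent.SR
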