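import Pool.Agent.Lib.MP_b573ec_lc_SR.Sys

/-!
# Operations on systems of units: thresholds, substitutions, covering

Module A7 of project SR.
-/

namespace Pool.Agent.SR

open Finset
open Pool.Agent.LT (Inp subst)

/-- the product of systems -/
def A7_prod {n r m : ℕ} {Sk : Fin m → Type} (B : ∀ i, Sys n r (Sk i)) :
    Sys n (m * r) (∀ i, Sk i) where
  rd s l x := (B (finProdFinEquiv.symm l).1).rd (s _) (finProdFinEquiv.symm l).2 x
  ok s l x := (B (finProdFinEquiv.symm l).1).ok (s _) (finProdFinEquiv.symm l).2 x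
  tau x := fun i => (B i).tau x
  dep_rd _ _ x y h := (B _).dep_rd _ _ x y h
  dep_ok _ _ x y h := (B _).dep_ok _ _ x y h
  tau_ok x _ := (B _).tau_ok x _
  ok_tau s x h := by
    funext i
    refine (B i).ok_tau (s i) x fun j => ?_
    have h1 := h (finProdFinEquiv (i, j))
    rw [Equiv.symm_apply_apply] at h1
    exact h1

theorem SysFn.thr {n r L R K m : ℕ} (g : Fin m → Inp n → Bool) (h : ∀ i, SysFn n r L R K (g i))
    (τ : ℕ) : SysFn n (m * r) L (m * R) (K ^ m)
      fun x => decide (τ ≤ (univ.filter fun i => g i x = true).card) := by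
  choose Sk hF B hK hL hR hg using h
  refine ⟨∀ i, Sk i, inferInstance, A7_prod B, ?_, ?_, ?_, ?_⟩
  · rw [Fintype.card_pi]
    calc ∏ i, Fintype.card (Sk i) ≤ ∏ _i : Fin m, K :=
          Finset.prod_le_prod' fun i _ => hK i
      _ = K ^ m := by rw [Finset.prod_const, Finset.card_univ, Fintype.card_fin]
  · intro x l
    exact hL _ x _
  · intro x
    have h1 : ∑ l, ((A7_prod B).R x l).card = ∑ i, ∑ j, ((B i).R x j).card := by
      rw [← Fintype.sum_prod_type', ← Equiv.sum_comp finProdFinEquiv]
      refine Finset.sum_congr rfl fun p _ => ?_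
      have h2 : (A7_prod B).R x (finProdFinEquiv p) =
          (B (finProdFinEquiv.symm (finProdFinEquiv p)).1).R x
            (finProdFinEquiv.symm (finProdFinEquiv p)).2 := rfl
      rw [h2, Equiv.symm_apply_apply]
    rw [h1]
    calc ∑ i, ∑ j, ((B i).R x j).card ≤ ∑ _i : Fin m, R := Finset.sum_le_sum fun i _ => hR i x
      _ = m * R := by rw [Finset.sum_const, Finset.card_univ, Fintype.card_fin, smul_eq_mul]
  · intro x y hxy
    have h1 : ∀ i, g i x = g i y := fun i => hg i x y (congrFun hxy i)
    have h2 : (fun i => g i x = true) = fun i => g i y = true := by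
      funext i
      rw [h1 i]
    simp only [h1]

theorem A7_subst_some {n n' : ℕ} {σ : Fin n → Option (Fin n')} {c : Inp n} {d : Inp n'}
    {v : Fin n} {v' : Fin n'} (h : σ v = some v') : subst σ c d v = d v' := by
  unfold subst
  rw [h]
  rfl

theorem A7_subst_congr {n n' : ℕ} (σ : Fin n → Option (Fin n')) (c : Inp n) {d e : Inp n'}
    {S : Finset (Fin n)} (h : ∀ v' ∈ univ.filter fun v' => ∃ v ∈ S, σ v = some v', d v' = e v') :
    ∀ v ∈ S, subst σ c d v = subst σ c e v := by
  intro v hv
  rcases hσ : σ v with _ | v'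
  · unfold subst
    rw [hσ]
    rfl
  · rw [A7_subst_some hσ, A7_subst_some hσ]
    exact h v' (mem_filter.2 ⟨mem_univ _, v, hv, hσ⟩)

/-- the system after a substitution -/
def A7_restrict {n n' r : ℕ} {Sk : Type} (B : Sys n r Sk) (σ : Fin n → Option (Fin n'))
    (c : Inp n) : Sys n' r Sk where
  rd s l d := univ.filter fun v' => ∃ v ∈ B.rd s l (subst σ c d), σ v = some v'
  ok s l d := B.ok s l (subst σ c d)
  tau d := B.tau (subst σ c d)
  dep_rd s l x y h := by
    rw [B.dep_rd s l _ _ (A7_subst_congr σ c h)]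
  dep_ok s l x y h := B.dep_ok s l _ _ (A7_subst_congr σ c h)
  tau_ok x l := B.tau_ok _ l
  ok_tau s x h := B.ok_tau s _ h

theorem A7_card_restrict {n n' : ℕ} (σ : Fin n → Option (Fin n')) (S : Finset (Fin n)) :
    (univ.filter fun v' => ∃ v ∈ S, σ v = some v').card ≤ S.card := by
  classical
  calc (univ.filter fun v' => ∃ v ∈ S, σ v = some v').card =
        ((univ.filter fun v' => ∃ v ∈ S, σ v = some v').image some).card :=
        (Finset.card_image_of_injective _ (Option.some_injective _)).symm
    _ ≤ (S.image σ).card := by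
        refine Finset.card_le_card fun o ho => ?_
        obtain ⟨v', hv', rfl⟩ := mem_image.1 ho
        obtain ⟨v, hv, h⟩ := (mem_filter.1 hv').2
        exact mem_image.2 ⟨v, hv, h⟩
    _ ≤ S.card := Finset.card_image_le

theorem SysFn.restrict {n n' r L R K : ℕ} {g : Inp n → Bool} (h : SysFn n r L R K g)
    (σ : Fin n → Option (Fin n')) (c : Inp n) :
    SysFn n' r L R K fun d => g (subst σ c d) := by
  obtain ⟨Sk, hF, B, hK, hL, hR, hg⟩ := h
  refine ⟨Sk, hF, A7_restrict B σ c, hK, ?_, ?_, ?_⟩
  · intro x l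
    exact (A7_card_restrict σ _).trans (hL (subst σ c x) l)
  · intro x
    exact (Finset.sum_le_sum fun l _ => A7_card_restrict σ _).trans (hR (subst σ c x))
  · intro x y hxy
    exact hg _ _ hxy

/-- the system with additional units which read all variables -/
def A7_cover {n r : ℕ} {Sk : Type} (B : Sys n r Sk) (L : ℕ) : Sys n (r + (n / L + 1)) Sk where
  rd s l x := Fin.addCases (motive := fun _ => Finset (Fin n)) (fun j => B.rd s j x)
    (fun i => univ.filter fun v : Fin n => (v : ℕ) / L = i) l
  ok s l x := Fin.addCases (motive := fun _ => Prop) (fun j => B.ok s j x) (fun _ => True) l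
  tau x := B.tau x
  dep_rd s l x y := by
    refine Fin.addCases (fun j => ?_) (fun i => ?_) l
    · simp only [Fin.addCases_left]
      exact B.dep_rd s j x y
    · intro _
      simp only [Fin.addCases_right]
  dep_ok s l x y := by
    refine Fin.addCases (fun j => ?_) (fun i => ?_) l
    · simp only [Fin.addCases_left]
      exact B.dep_ok s j x y
    · intro _ _
      simp only [Fin.addCases_right]
  tau_ok x l := by
    refine Fin.addCases (fun j => ?_) (fun i => ?_) l
    · simp only [Fin.addCases_left]
      exact B.tau_ok x j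
    · simp only [Fin.addCases_right]
  ok_tau s x h := by
    refine B.ok_tau s x fun j => ?_
    have h1 := h (Fin.castAdd _ j)
    simpa only [Fin.addCases_left] using h1

theorem A7_cover_left {n r : ℕ} {Sk : Type} (B : Sys n r Sk) (L : ℕ) (x : Inp n) (j : Fin r) :
    (A7_cover B L).R x (Fin.castAdd _ j) = B.R x j := by
  unfold Sys.R A7_cover
  simp only [Fin.addCases_left]

theorem A7_cover_right {n r : ℕ} {Sk : Type} (B : Sys n r Sk) (L : ℕ) (x : Inp n)
    (i : Fin (n / L + 1)) :
    (A7_cover B L).R x (Fin.natAdd _ i) = univ.filter fun v : Fin n => (v : ℕ) / L = i := by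
  unfold Sys.R A7_cover
  simp only [Fin.addCases_right]

theorem A7_card_block {n L : ℕ} (hL : 1 ≤ L) (i : ℕ) :
    (univ.filter fun v : Fin n => (v : ℕ) / L = i).card ≤ L := by
  calc (univ.filter fun v : Fin n => (v : ℕ) / L = i).card =
        ((univ.filter fun v : Fin n => (v : ℕ) / L = i).image fun v : Fin n => (v : ℕ)).card :=
        (Finset.card_image_of_injective _ Fin.val_injective).symm
    _ ≤ (Finset.Ico (i * L) (i * L + L)).card := by
        refine Finset.card_le_card fun a ha => ?_
        obtain ⟨v, hv, rfl⟩ := mem_image.1 ha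
        have h1 := (mem_filter.1 hv).2
        have h2 := Nat.div_add_mod (v : ℕ) L
        have h3 := Nat.mod_lt (v : ℕ) hL
        rw [h1] at h2
        rw [mem_Ico]
        have h4 : L * i = i * L := Nat.mul_comm _ _
        omega
    _ = L := by rw [Nat.card_Ico]; omega

theorem SysFn.cover {n r L R K : ℕ} {g : Inp n → Bool} (h : SysFn n r L R K g) (hL : 1 ≤ L) :
    CovFn n (r + (n / L + 1)) L (R + n) K g := by
  obtain ⟨Sk, hF, B, hK, hLr, hR, hg⟩ := h
  refine ⟨Sk, hF, A7_cover B L, hK, ?_, ?_, ?_, hg⟩
  · intro x l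
    refine Fin.addCases (fun j => ?_) (fun i => ?_) l
    · rw [A7_cover_left]
      exact hLr x j
    · rw [A7_cover_right]
      exact A7_card_block hL i
  · intro x
    rw [Fin.sum_univ_add]
    refine Nat.add_le_add ?_ ?_
    · calc ∑ j, ((A7_cover B L).R x (Fin.castAdd _ j)).card = ∑ j, (B.R x j).card :=
            Finset.sum_congr rfl fun j _ => by rw [A7_cover_left]
        _ ≤ R := hR x
    · have h1 : ∑ i : Fin (n / L + 1), ((A7_cover B L).R x (Fin.natAdd _ i)).card =
          ∑ i : Fin (n / L + 1), (univ.filter fun v : Fin n => (v : ℕ) / L = i).card :=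
        Finset.sum_congr rfl fun i _ => by rw [A7_cover_right]
      rw [h1, ← Finset.card_biUnion]
      · exact (Finset.card_le_univ _).trans (by rw [Fintype.card_fin])
      · intro i _ j _ hij
        rw [Function.onFun, Finset.disjoint_left]
        intro v hv hv'
        apply hij
        rw [mem_filter] at hv hv'
        exact Fin.ext (hv.2.symm.trans hv'.2)
  · intro x v
    refine ⟨Fin.natAdd _ ⟨(v : ℕ) / L, ?_⟩, ?_⟩
    · have h1 : (v : ℕ) / L ≤ n / L := Nat.div_le_div_right v.2.le
      omega
    · unfold Sys.Lay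
      rw [mem_filter]
      refine ⟨mem_univ _, ?_⟩
      rw [A7_cover_right, mem_filter]
      exact ⟨mem_univ _, rfl⟩

end Pool.Agent.SR
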