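import Pool.Agent.Lib.MP_b573ec_lc_SR.Sys
import Pool.Agent.Lib.MP_b573ec_lc_LT.V2.Tail2

/-!
# Few members have a small side
-/

set_option autoImplicit false

namespace Pool.Agent.SR

open Finset
open Pool.Agent.LT (Inp abad2 nsub mixed)

namespace A2

variable {n r : ℕ} {Sk : Type} (B : Sys n r Sk) (F : Fin r → ℕ) (U : Finset (Fin n))

theorem mem_Lay {x : Inp n} {v : Fin n} {l : Fin r} : l ∈ B.Lay x v ↔ v ∈ B.R x l := by
  simp [Sys.Lay]

theorem mem_foot {c : ℕ} {x : Inp n} {v : Fin n} :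
    v ∈ B.foot F U c x ↔ v ∈ U ∧ ∀ l : Fin r, v ∈ B.R x l → F l = c := by
  unfold Sys.foot
  rw [mem_filter]
  refine and_congr_right fun _ => forall_congr' fun l => ?_
  rw [mem_Lay]

theorem mem_cls [DecidableEq Sk] {x y : Inp n} :
    y ∈ B.cls F U x ↔ B.tau y = B.tau x ∧
      B.foot F U 0 y = B.foot F U 0 x ∧ B.foot F U 1 y = B.foot F U 1 x ∧
      ∀ v, v ∉ B.foot F U 0 x → v ∉ B.foot F U 1 x → y v = x v := by
  unfold Sys.cls
  rw [mem_filter]
  exact ⟨fun h => h.2, fun h => ⟨mem_univ _, h⟩⟩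

/-- The variables of `U` which are not read in units of colour other than `c`, for the
skeleton `s`. -/
def fr (c : ℕ) (s : Sk) (y : Inp n) : Finset (Fin n) :=
  U.filter fun v => ∀ l : Fin r, F l ≠ c → v ∉ B.rd s l y

/-- The representative of a fibre. -/
def rep (c : ℕ) (s : Sk) (y : Inp n) : Inp n :=
  fun v => if v ∈ fr B F U c s y then false else y v

theorem mem_fr {c : ℕ} {s : Sk} {y : Inp n} {v : Fin n} :
    v ∈ fr B F U c s y ↔ v ∈ U ∧ ∀ l : Fin r, F l ≠ c → v ∉ B.rd s l y := by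
  unfold fr
  rw [mem_filter]

theorem rd_eq {c : ℕ} {s : Sk} {y y' : Inp n} (h : ∀ v, v ∉ fr B F U c s y → y' v = y v)
    (l : Fin r) (hl : F l ≠ c) : B.rd s l y' = B.rd s l y := by
  refine B.dep_rd s l y y' fun v hv => (h v fun hv' => ?_).symm
  exact ((mem_fr B F U).mp hv').2 l hl hv

theorem fr_eq {c : ℕ} {s : Sk} {y y' : Inp n}
    (h : ∀ v, v ∉ fr B F U c s y → y' v = y v) : fr B F U c s y' = fr B F U c s y := by
  ext v
  rw [mem_fr, mem_fr]
  refine and_congr_right fun _ => forall_congr' fun l => ?_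
  by_cases hl : F l = c
  · simp only [hl, ne_eq, not_true, false_imp_iff]
  · rw [rd_eq B F U h l hl]

theorem rep_off {c : ℕ} {s : Sk} {y : Inp n} :
    ∀ v, v ∉ fr B F U c s y → rep B F U c s y v = y v := fun _ hv => if_neg hv

theorem fr_rep {c : ℕ} {s : Sk} {y : Inp n} :
    fr B F U c s (rep B F U c s y) = fr B F U c s y := fr_eq B F U (rep_off B F U)

theorem of_rep_eq {c : ℕ} {s : Sk} {y x : Inp n}
    (h : rep B F U c s y = rep B F U c s x) :
    fr B F U c s y = fr B F U c s x ∧ ∀ v, v ∉ fr B F U c s x → y v = x v := by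
  have h1 : fr B F U c s y = fr B F U c s x := by
    rw [← fr_rep B F U (y := y), h, fr_rep]
  refine ⟨h1, fun v hv => ?_⟩
  have h2 := congrFun h v
  rw [rep_off B F U v (by rw [h1]; exact hv), rep_off B F U v hv] at h2
  exact h2

theorem rep_eq {c : ℕ} {s : Sk} {y x : Inp n}
    (h : ∀ v, v ∉ fr B F U c s x → y v = x v) : rep B F U c s y = rep B F U c s x := by
  have h1 := fr_eq B F U h
  funext v
  unfold rep
  rw [h1]
  split_ifs with hv
  · rfl
  · exact h v hv

/-- A fibre of `rep` has at least `2 ^ |A|` elements. -/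
theorem card_fibre {c : ℕ} {s : Sk} (x : Inp n) :
    2 ^ (fr B F U c s x).card ≤
      (univ.filter fun y : Inp n => rep B F U c s y = rep B F U c s x).card := by
  rw [← Finset.card_powerset]
  refine Finset.card_le_card_of_injOn
    (fun P v => if v ∈ fr B F U c s x then decide (v ∈ P) else x v) ?_ ?_
  · intro P _
    rw [Finset.mem_coe, mem_filter]
    refine ⟨mem_univ _, rep_eq B F U fun v hv => ?_⟩
    exact if_neg hv
  · intro P hP Q hQ hPQ
    rw [Finset.mem_coe, Finset.mem_powerset] at hP hQ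
    ext v
    by_cases hv : v ∈ fr B F U c s x
    · have h := congrFun hPQ v
      simp only [if_pos hv] at h
      exact decide_eq_decide.mp h
    · exact ⟨fun h => absurd (hP h) hv, fun h => absurd (hQ h) hv⟩

theorem fr_eq_foot {c : ℕ} {s : Sk} {x : Inp n} (ht : B.tau x = s) :
    fr B F U c s x = B.foot F U c x := by
  ext v
  rw [mem_fr, mem_foot]
  refine and_congr_right fun _ => forall_congr' fun l => ?_
  have hR : B.R x l = B.rd s l x := by
    unfold Sys.R
    rw [ht]
  rw [hR]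
  constructor
  · intro h hv
    by_contra hl
    exact h hl hv
  · intro h hl hv
    exact hl (h hv)

/-- The reference foot. -/
def bref (c d j : ℕ) (s : Sk) (x : Inp n) : Finset (Fin n) :=
  U.filter fun v => (∀ l : Fin r, F l ≠ c → F l ≠ d → v ∉ B.rd s l x) ∧
    j ≤ (univ.filter fun l : Fin r => F l = d ∧ v ∈ B.rd s l x).card

theorem mem_bref {c d j : ℕ} {s : Sk} {x : Inp n} {v : Fin n} :
    v ∈ bref B F U c d j s x ↔ v ∈ U ∧
      (∀ l : Fin r, F l ≠ c → F l ≠ d → v ∉ B.rd s l x) ∧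
      j ≤ (univ.filter fun l : Fin r => F l = d ∧ v ∈ B.rd s l x).card := by
  unfold bref
  rw [mem_filter]

theorem symmDiff_subset2 {c d j : ℕ} (hcd : (c = 0 ∧ d = 1) ∨ (c = 1 ∧ d = 0))
    {s : Sk} {x y : Inp n} (ht : B.tau y = s)
    (h : ∀ v, v ∉ fr B F U c s x → y v = x v) :
    symmDiff (B.foot F U d y) (bref B F U c d j s x) ⊆ abad2 (B.Lay y) F U j := by
  have hne : c ≠ d := by omega
  have hR : ∀ l : Fin r, F l ≠ c → B.R y l = B.rd s l x := by
    intro l hl
    unfold Sys.R
    rw [ht]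
    exact rd_eq B F U h l hl
  intro v hv
  unfold abad2
  rw [mem_filter]
  rw [Finset.mem_symmDiff] at hv
  rcases hv with ⟨h1, h2⟩ | ⟨h1, h2⟩
  · rw [mem_foot] at h1
    obtain ⟨hU, hf⟩ := h1
    refine ⟨hU, Or.inl ⟨?_, ?_⟩⟩
    · have hLay : B.Lay y v = univ.filter fun l : Fin r => F l = d ∧ v ∈ B.rd s l x := by
        ext l
        rw [mem_Lay, mem_filter]
        constructor
        · intro hl
          have hd := hf l hl
          refine ⟨mem_univ _, hd, ?_⟩
          rw [← hR l (by omega)]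
          exact hl
        · rintro ⟨_, hd, hl⟩
          rw [hR l (by omega)]
          exact hl
      rw [hLay]
      by_contra hcon
      push Not at hcon
      refine h2 ((mem_bref B F U).mpr ⟨hU, fun l hlc hld hl => ?_, hcon⟩)
      rw [← hR l hlc] at hl
      exact hld (hf l hl)
    · have hf' : ∀ l ∈ B.Lay y v, F l = d := fun l hl => hf l ((mem_Lay B).mp hl)
      rcases hcd with ⟨_, rfl⟩ | ⟨_, rfl⟩
      · exact Or.inr hf'
      · exact Or.inl hf'
  · rw [mem_bref] at h1
    obtain ⟨hU, hother, hj⟩ := h1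
    have hnot : ∃ l : Fin r, v ∈ B.R y l ∧ F l ≠ d := by
      by_contra hcon
      push Not at hcon
      exact h2 ((mem_foot B F U).mpr ⟨hU, hcon⟩)
    obtain ⟨l₀, hl₀, hl₀d⟩ := hnot
    have hcol : ∀ l ∈ B.Lay y v, F l = c ∨ F l = d := by
      intro l hl
      rw [mem_Lay] at hl
      by_contra hcon
      push Not at hcon
      rw [hR l hcon.1] at hl
      exact hother l hcon.1 hcon.2 hl
    have hmix : mixed (B.Lay y) F j d v := by
      refine ⟨fun l hl => ?_, ?_, l₀, (mem_Lay B).mpr hl₀, hl₀d⟩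
      · have := hcol l hl
        omega
      · refine hj.trans (Finset.card_le_card fun l hl => ?_)
        rw [mem_filter] at hl ⊢
        obtain ⟨_, hd, hl⟩ := hl
        refine ⟨?_, hd⟩
        rw [mem_Lay, hR l (by omega)]
        exact hl
    refine ⟨hU, Or.inr ?_⟩
    rcases hcd with ⟨_, rfl⟩ | ⟨_, rfl⟩
    · exact Or.inr hmix
    · exact Or.inl hmix

/-- The count in one fibre, for one skeleton. -/
theorem count_fibre2 [DecidableEq Sk] {c d j e lam : ℕ}
    (hcd : (c = 0 ∧ d = 1) ∨ (c = 1 ∧ d = 0))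
    {s : Sk} {x : Inp n} (S : Finset (Inp n))
    (hS : ∀ y ∈ S, B.tau y = s ∧ (abad2 (B.Lay y) F U j).card ≤ e ∧
      (B.side F U c y).card * 2 ^ lam < 2 ^ (B.foot F U c y).card)
    (hx : ∀ y ∈ S, rep B F U c s y = rep B F U c s x) :
    S.card * 2 ^ lam ≤ nsub n e * 2 ^ (fr B F U c s x).card := by
  set A := fr B F U c s x with hA
  have hrep : ∀ y ∈ S, fr B F U c s y = A ∧ ∀ v, v ∉ A → y v = x v :=
    fun y hy => of_rep_eq B F U (hx y hy)
  have hfoot : ∀ y ∈ S, B.foot F U c y = A := fun y hy => by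
    rw [← fr_eq_foot B F U (hS y hy).1]
    exact (hrep y hy).1
  -- the fibres of the other foot
  have hfib : ∀ D, (S.filter fun y => B.foot F U d y = D).card * 2 ^ lam ≤ 2 ^ A.card := by
    intro D
    rcases (S.filter fun y => B.foot F U d y = D).eq_empty_or_nonempty with he | ⟨y₀, hy₀⟩
    · rw [he, card_empty, zero_mul]
      exact Nat.zero_le _
    · rw [mem_filter] at hy₀
      obtain ⟨hy₀S, hy₀D⟩ := hy₀
      have hsub : (S.filter fun y => B.foot F U d y = D) ⊆ B.side F U c y₀ := by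
        intro y hy
        rw [mem_filter] at hy
        obtain ⟨hyS, hyD⟩ := hy
        have hoff : ∀ v, v ∉ A → y v = y₀ v := fun v hv => by
          rw [(hrep y hyS).2 v hv, (hrep y₀ hy₀S).2 v hv]
        unfold Sys.side
        rw [mem_filter, mem_cls]
        have hfc : B.foot F U c y = B.foot F U c y₀ := by rw [hfoot y hyS, hfoot y₀ hy₀S]
        have hfd : B.foot F U d y = B.foot F U d y₀ := by rw [hyD, hy₀D]
        refine ⟨⟨?_, ?_, ?_, ?_⟩, ?_⟩
        · rw [(hS y hyS).1, (hS y₀ hy₀S).1]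
        · rcases hcd with ⟨rfl, rfl⟩ | ⟨rfl, rfl⟩
          · exact hfc
          · exact hfd
        · rcases hcd with ⟨rfl, rfl⟩ | ⟨rfl, rfl⟩
          · exact hfd
          · exact hfc
        · intro v hv0 hv1
          apply hoff
          rw [← hfoot y₀ hy₀S]
          rcases hcd with ⟨rfl, rfl⟩ | ⟨rfl, rfl⟩
          · exact hv0
          · exact hv1
        · intro v hv
          apply hoff
          rw [← hfoot y₀ hy₀S]
          exact hv
      have h1 := (hS y₀ hy₀S).2.2
      rw [hfoot y₀ hy₀S] at h1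
      exact (Nat.mul_le_mul_right _ (card_le_card hsub)).trans h1.le
  -- the number of the other feet
  have himg : (S.image fun y => B.foot F U d y).card ≤ nsub n e := by
    refine le_trans ?_ (LT.TailAux.card_small_sets n e)
    refine Finset.card_le_card_of_injOn
      (fun D => symmDiff D (bref B F U c d j s x)) ?_ ?_
    · intro D hD
      rw [Finset.mem_coe, mem_image] at hD
      obtain ⟨y, hy, rfl⟩ := hD
      rw [Finset.mem_coe, mem_filter]
      refine ⟨mem_univ _, ?_⟩
      exact (card_le_card (symmDiff_subset2 B F U hcd (hS y hy).1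
        (fun v hv => (hrep y hy).2 v hv))).trans (hS y hy).2.1
    · intro D _ D' _ h
      exact symmDiff_left_injective _ h
  calc S.card * 2 ^ lam
      = ∑ D ∈ S.image (fun y => B.foot F U d y),
          (S.filter fun y => B.foot F U d y = D).card * 2 ^ lam := by
        rw [Finset.card_eq_sum_card_image (fun y => B.foot F U d y) S, Finset.sum_mul]
    _ ≤ ∑ D ∈ S.image (fun y => B.foot F U d y), 2 ^ A.card :=
        Finset.sum_le_sum fun D _ => hfib D
    _ = (S.image fun y => B.foot F U d y).card * 2 ^ A.card := by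
        rw [Finset.sum_const, smul_eq_mul]
    _ ≤ nsub n e * 2 ^ A.card := Nat.mul_le_mul_right _ himg

/-- The count for one skeleton. -/
theorem count_seq2 [DecidableEq Sk] {c d j e lam : ℕ}
    (hcd : (c = 0 ∧ d = 1) ∨ (c = 1 ∧ d = 0)) {s : Sk} (S : Finset (Inp n))
    (hS : ∀ y ∈ S, B.tau y = s ∧ (abad2 (B.Lay y) F U j).card ≤ e ∧
      (B.side F U c y).card * 2 ^ lam < 2 ^ (B.foot F U c y).card) :
    S.card * 2 ^ lam ≤ nsub n e * 2 ^ n := by
  have hn : (2 : ℕ) ^ n = ∑ ρ : Inp n, (univ.filter fun y : Inp n => rep B F U c s y = ρ).card := by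
    rw [← Finset.card_eq_sum_card_fiberwise (fun _ _ => Finset.mem_coe.mpr (mem_univ _))]
    simp
  rw [Finset.card_eq_sum_card_fiberwise (s := S) (t := univ) (f := rep B F U c s)
    (fun _ _ => Finset.mem_coe.mpr (mem_univ _)), hn, Finset.sum_mul, Finset.mul_sum]
  refine Finset.sum_le_sum fun ρ _ => ?_
  rcases (S.filter fun y => rep B F U c s y = ρ).eq_empty_or_nonempty with he | ⟨x, hx⟩
  · rw [he, card_empty, zero_mul]
    exact Nat.zero_le _
  · rw [mem_filter] at hx
    obtain ⟨hxS, rfl⟩ := hx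
    have h1 := count_fibre2 B F U hcd (x := x)
      (S.filter fun y => rep B F U c s y = rep B F U c s x)
      (fun y hy => hS y (mem_filter.mp hy).1) (fun y hy => (mem_filter.mp hy).2)
    exact h1.trans (Nat.mul_le_mul_left _ (card_fibre B F U x))

end A2

open A2

theorem Sys.small_side {n r : ℕ} {Sk : Type} [DecidableEq Sk] [Fintype Sk] (B : Sys n r Sk)
    (F : Fin r → ℕ) (U : Finset (Fin n)) (j e lam c : ℕ) (hc : c = 0 ∨ c = 1) (G : Finset (Inp n))
    (hG : ∀ x ∈ G, (abad2 (B.Lay x) F U j).card ≤ e) :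
    (G.filter fun x => (B.side F U c x).card * 2 ^ lam < 2 ^ (B.foot F U c x).card).card *
      2 ^ lam ≤ Fintype.card Sk * nsub n e * 2 ^ n := by
  obtain ⟨d, hcd⟩ : ∃ d, (c = 0 ∧ d = 1) ∨ (c = 1 ∧ d = 0) := by
    rcases hc with rfl | rfl
    · exact ⟨1, Or.inl ⟨rfl, rfl⟩⟩
    · exact ⟨0, Or.inr ⟨rfl, rfl⟩⟩
  set S := G.filter fun x => (B.side F U c x).card * 2 ^ lam < 2 ^ (B.foot F U c x).card with hS
  rw [Finset.card_eq_sum_card_fiberwise (s := S) (t := univ) (f := B.tau)
    (fun _ _ => Finset.mem_coe.mpr (mem_univ _)), Finset.sum_mul]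
  calc ∑ s : Sk, (S.filter fun x => B.tau x = s).card * 2 ^ lam
      ≤ ∑ _s : Sk, nsub n e * 2 ^ n := by
        refine Finset.sum_le_sum fun s _ => ?_
        refine count_seq2 B F U (j := j) hcd (s := s) _ fun y hy => ?_
        rw [mem_filter] at hy
        obtain ⟨hyS, hyτ⟩ := hy
        rw [hS, mem_filter] at hyS
        exact ⟨hyτ, hG y hyS.1, hyS.2⟩
    _ = Fintype.card Sk * nsub n e * 2 ^ n := by
        rw [Finset.sum_const, card_univ, smul_eq_mul, mul_assoc]

end Pool.Agent.SR
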