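import Pool.Agent.Lib.MP_b573ec_lc_SR.Sys
import Pool.Agent.Lib.MP_b573ec_lc_SR.Tail
import Pool.Agent.Lib.MP_b573ec_lc_LT.V2.Ajtai2

/-!
# The rectangle lemma for systems (module A3)
-/

namespace Pool.Agent.SR

open Finset
open Pool.Agent.LT (Inp abad2 nsub typ2 RR2 afoot QQ exists_scale2 good_pairs2)
open Pool.Agent.LT.Ajtai2Aux (Qt st Ty card_Ty QQ_pos Qt_pow_le)

/-- every input has a type for which random colours are good with probability `1/2` -/
lemma A3_exists_type {n r : ℕ} {Sk : Type} (B : Sys n r Sk) (k E D L e : ℕ) (hk : 1 ≤ k) (hE : 1 ≤ E)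
    (hD : 16 ≤ D) (hread : ∀ x l, (B.R x l).card ≤ L)
    (hcov : ∀ x v, (B.Lay x v).Nonempty) (hsum : ∀ x, ∑ v, (B.Lay x v).card ≤ k * n)
    (hn : 16 * k * RR2 k E * D ≤ n) (hLn : 512 * k ^ 2 * RR2 k E * L ≤ n)
    (he : 64 * D ≤ (e + 1) * E) (x : Inp n) :
    ∃ τ ∈ Ty k E, 1 ≤ st n k E D τ ∧
      Fintype.card ((Fin r → Fin (Qt k E τ)) × (Fin n → Fin (st n k E D τ))) ≤
        2 * (univ.filter fun p : (Fin r → Fin (Qt k E τ)) × (Fin n → Fin (st n k E D τ)) =>
        2 * D ≤ (afoot (B.Lay x) (fun l => (p.1 l : ℕ))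
          (univ.filter fun v => (p.2 v : ℕ) = 0) 0).card ∧
        2 * D ≤ (afoot (B.Lay x) (fun l => (p.1 l : ℕ))
          (univ.filter fun v => (p.2 v : ℕ) = 0) 1).card ∧
        (abad2 (B.Lay x) (fun l => (p.1 l : ℕ))
          (univ.filter fun v => (p.2 v : ℕ) = 0) τ.2.1).card ≤ e).card := by
  have hRR : 1 ≤ RR2 k E := Nat.one_le_pow _ _ (by have := QQ_pos hk hE (4 * k); omega)
  have hn1 : 1 ≤ n := by
    have : 1 ≤ 16 * k * RR2 k E * D := by
      have : 0 < 16 * k * RR2 k E * D := by positivity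
      omega
    omega
  obtain ⟨m, hm, j, hj1, hj2, hN, ha, hb⟩ := exists_scale2 n k E hn1 hk hE
    (fun v => (B.Lay x v).card) (fun v => card_pos.mpr (hcov x v)) (hsum x)
  set N := (univ.filter fun v => (B.Lay x v).card = j).card with hNdef
  have hQ64 := QQ_pos hk hE m
  set Q := QQ k E m with hQdef
  have hQpos : 1 ≤ Q := by omega
  have hQ2 : 2 ≤ Q := by omega
  have hQR : Q ^ (2 * k) ≤ RR2 k E := Qt_pow_le hk hE (m, 0, 0) hm
  set Pp := 16 * k * Q ^ (2 * k) * D with hPdef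
  have hPpos : 0 < Pp := by positivity
  have hPn : Pp ≤ n := by
    calc Pp ≤ 16 * k * RR2 k E * D := by
          rw [hPdef]; gcongr
      _ ≤ n := hn
  set s0 := n / Pp with hs0
  have hs0pos : 1 ≤ s0 := by
    rw [hs0]; exact (Nat.one_le_div_iff hPpos).mpr hPn
  have hs0le : s0 * Pp ≤ n := Nat.div_mul_le_self n Pp
  have hs0lt : n < 2 * s0 * Pp := by
    have h1 : n < Pp * (s0 + 1) := Nat.lt_mul_div_succ n hPpos
    have h2 : Pp * (s0 + 1) ≤ Pp * (2 * s0) := Nat.mul_le_mul_left _ (by omega)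
    calc n < Pp * (s0 + 1) := h1
      _ ≤ Pp * (2 * s0) := h2
      _ = 2 * s0 * Pp := by ring
  set Y := 4 * D * s0 * Q ^ j with hY
  have hYpos : 0 < Y := by positivity
  have hQk : 0 < 4 * k * Q ^ (2 * k) := by positivity
  have hYN : Y ≤ N := by
    have h1 : 4 * k * Q ^ (2 * k) * Y ≤ 4 * k * Q ^ (2 * k) * N := by
      calc 4 * k * Q ^ (2 * k) * Y = s0 * Pp * Q ^ j := by rw [hY, hPdef]; ring
        _ ≤ n * Q ^ j := Nat.mul_le_mul_right _ hs0le
        _ ≤ 4 * k * N * Q ^ (2 * k) := ha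
        _ = 4 * k * Q ^ (2 * k) * N := by ring
    exact Nat.le_of_mul_le_mul_left h1 hQk
  set t := N / Y with ht
  have ht1 : 1 ≤ t := (Nat.one_le_div_iff hYpos).mpr hYN
  set i := Nat.log 2 t with hi
  have hi1 : 2 ^ i ≤ t := Nat.pow_log_le_self 2 (by omega)
  have hi2 : t < 2 ^ (i + 1) := Nat.lt_pow_succ_log_self (by norm_num) t
  have hYi : Y * 2 ^ i ≤ N := by
    calc Y * 2 ^ i ≤ Y * t := Nat.mul_le_mul_left _ hi1
      _ = t * Y := by ring
      _ ≤ N := Nat.div_mul_le_self N Y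
  have hNY : N < Y * 2 ^ (i + 1) := by
    calc N < Y * (t + 1) := Nat.lt_mul_div_succ N hYpos
      _ ≤ Y * 2 ^ (i + 1) := Nat.mul_le_mul_left _ hi2
  have hNn : N ≤ n := by
    calc N ≤ (univ : Finset (Fin n)).card := card_le_card (filter_subset _ _)
      _ = n := by simp
  have hilog : i < Nat.log 2 (8 * k * RR2 k E) + 1 := by
    have h1 : 4 * D * s0 * (Q ^ j * 2 ^ i) < 4 * D * s0 * (8 * k * Q ^ (2 * k)) := by
      calc 4 * D * s0 * (Q ^ j * 2 ^ i) = Y * 2 ^ i := by rw [hY]; ring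
        _ ≤ N := hYi
        _ ≤ n := hNn
        _ < 2 * s0 * Pp := hs0lt
        _ = 4 * D * s0 * (8 * k * Q ^ (2 * k)) := by rw [hPdef]; ring
    have h2 : Q ^ j * 2 ^ i < 8 * k * Q ^ (2 * k) := Nat.lt_of_mul_lt_mul_left h1
    have h3 : 2 ^ i ≤ 8 * k * RR2 k E := by
      calc 2 ^ i = 1 * 2 ^ i := by ring
        _ ≤ Q ^ j * 2 ^ i := Nat.mul_le_mul_right _ (Nat.one_le_pow _ _ hQpos)
        _ ≤ 8 * k * Q ^ (2 * k) := h2.le
        _ ≤ 8 * k * RR2 k E := Nat.mul_le_mul_left _ hQR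
    have h4 : i ≤ Nat.log 2 (8 * k * RR2 k E) :=
      Nat.le_log_of_pow_le (by norm_num) h3
    omega
  refine ⟨(m, j, i), ?_, ?_, ?_⟩
  · simp only [Ty, mem_product, mem_range, mem_Icc]
    exact ⟨Nat.lt_succ_of_le hm, ⟨hj1, hj2⟩, hilog⟩
  · show 1 ≤ n / (16 * k * Q ^ (2 * k) * D) * 2 ^ i
    have : 1 ≤ 2 ^ i := Nat.one_le_two_pow
    calc 1 = 1 * 1 := by norm_num
      _ ≤ s0 * 2 ^ i := Nat.mul_le_mul hs0pos this
  · have hstE : st n k E D (m, j, i) = s0 * 2 ^ i := rfl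
    have hQtE : Qt k E (m, j, i) = Q := rfl
    have hY2 : 4 * D * (s0 * 2 ^ i) * Q ^ j = Y * 2 ^ i := by rw [hY]; ring
    have hs1 : 1 ≤ s0 * 2 ^ i := by
      have : 1 ≤ 2 ^ i := Nat.one_le_two_pow
      calc 1 = 1 * 1 := by norm_num
        _ ≤ s0 * 2 ^ i := Nat.mul_le_mul hs0pos this
    have hLay : ∀ l : Fin r, (univ.filter fun v => l ∈ B.Lay x v).card ≤ L := by
      intro l
      have : (univ.filter fun v => l ∈ B.Lay x v) = B.R x l := by
        ext v
        simp [Sys.Lay]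
      rw [this]
      exact hread x l
    refine good_pairs2 (B.Lay x) Q (s0 * 2 ^ i) j L D e E hQ2 hs1 hj1 hE hLay hD ?_ ?_ ?_ ?_
    · rw [hY2]; exact hYi
    · have h1 : 4 * k * Q ^ (2 * k) * (64 * j * L * Q ^ j) ≤ 4 * k * Q ^ (2 * k) * N := by
        calc 4 * k * Q ^ (2 * k) * (64 * j * L * Q ^ j)
            ≤ 4 * k * Q ^ (2 * k) * (64 * (2 * k) * L * Q ^ j) := by gcongr
          _ = 512 * k ^ 2 * Q ^ (2 * k) * L * Q ^ j := by ring
          _ ≤ 512 * k ^ 2 * RR2 k E * L * Q ^ j := by gcongr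
          _ ≤ n * Q ^ j := Nat.mul_le_mul_right _ hLn
          _ ≤ 4 * k * N * Q ^ (2 * k) := ha
          _ = 4 * k * Q ^ (2 * k) * N := by ring
      exact Nat.le_of_mul_le_mul_left h1 hQk
    · exact hb
    · calc 8 * N ≤ 8 * (Y * 2 ^ (i + 1)) := Nat.mul_le_mul_left _ hNY.le
        _ = 64 * D * (s0 * 2 ^ i * Q ^ j) := by rw [hY]; ring
        _ ≤ (e + 1) * E * (s0 * 2 ^ i * Q ^ j) := Nat.mul_le_mul_right _ he
        _ = (e + 1) * E * (s0 * 2 ^ i) * Q ^ j := by ring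

theorem Sys.ajtai {n r : ℕ} {Sk : Type} [DecidableEq Sk] [Fintype Sk] (B : Sys n r Sk)
    (k E D L e lam : ℕ) (hk : 1 ≤ k) (hE : 1 ≤ E)
    (hD : 16 ≤ D) (hread : ∀ x l, (B.R x l).card ≤ L)
    (hcov : ∀ x v, (B.Lay x v).Nonempty) (hsum : ∀ x, ∑ v, (B.Lay x v).card ≤ k * n)
    (hn : 16 * k * RR2 k E * D ≤ n) (hLn : 512 * k ^ 2 * RR2 k E * L ≤ n)
    (he : 64 * D ≤ (e + 1) * E) (X : Finset (Inp n)) (hX : X.Nonempty)
    (hlam : 16 * typ2 k E * Fintype.card Sk * nsub n e * 2 ^ n ≤ 2 ^ lam * X.card) :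
    ∃ (F : Fin r → ℕ) (U : Finset (Fin n)) (X' : Finset (Inp n)), X' ⊆ X ∧
      X.card ≤ 4 * typ2 k E * X'.card ∧
      ∀ x ∈ X', 2 * D ≤ (B.foot F U 0 x).card ∧ 2 * D ≤ (B.foot F U 1 x).card ∧
        2 ^ (B.foot F U 0 x).card ≤ (B.side F U 0 x).card * 2 ^ lam ∧
        2 ^ (B.foot F U 1 x).card ≤ (B.side F U 1 x).card * 2 ^ lam := by
  choose τ hτ hst hgood using fun x => A3_exists_type B k E D L e hk hE hD hread hcov hsum hn hLn he x
  -- the most popular type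
  have hTy : (Ty k E).Nonempty := ⟨τ (fun _ => false), hτ _⟩
  obtain ⟨τ0, hτ0, hmax⟩ := exists_max_image (Ty k E)
    (fun t => (X.filter fun x => τ x = t).card) hTy
  set X0 := X.filter fun x => τ x = τ0 with hX0
  have hXX0 : X.card ≤ typ2 k E * X0.card := by
    rw [card_eq_sum_card_fiberwise (f := τ) (t := Ty k E) (fun x _ => hτ x)]
    calc ∑ b ∈ Ty k E, (X.filter fun x => τ x = b).card
        ≤ ∑ _b ∈ Ty k E, X0.card := sum_le_sum fun b hb => hmax b hb
      _ = typ2 k E * X0.card := by rw [sum_const, card_Ty, smul_eq_mul]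
  have hXpos : 0 < X.card := card_pos.mpr hX
  have hX0pos : 0 < X0.card := by
    rcases Nat.eq_zero_or_pos X0.card with h | h
    · rw [h] at hXX0; omega
    · exact h
  obtain ⟨x0, hx0⟩ := card_pos.mp hX0pos
  have hst0 : 1 ≤ st n k E D τ0 := by
    have := hst x0
    rw [(mem_filter.mp hx0).2] at this
    exact this
  have hQt0 : 1 ≤ Qt k E τ0 := by
    have := QQ_pos hk hE τ0.1
    unfold Qt
    omega
  let Ω := (Fin r → Fin (Qt k E τ0)) × (Fin n → Fin (st n k E D τ0))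
  have : NeZero (Qt k E τ0) := ⟨by omega⟩
  have : NeZero (st n k E D τ0) := ⟨by omega⟩
  have hΩ : 0 < Fintype.card Ω := Fintype.card_pos_iff.mpr ⟨(fun _ => 0, fun _ => 0)⟩
  let good : Ω → Inp n → Prop := fun p x =>
    2 * D ≤ (afoot (B.Lay x) (fun l => (p.1 l : ℕ))
      (univ.filter fun v => (p.2 v : ℕ) = 0) 0).card ∧
    2 * D ≤ (afoot (B.Lay x) (fun l => (p.1 l : ℕ))
      (univ.filter fun v => (p.2 v : ℕ) = 0) 1).card ∧
    (abad2 (B.Lay x) (fun l => (p.1 l : ℕ))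
      (univ.filter fun v => (p.2 v : ℕ) = 0) τ0.2.1).card ≤ e
  have : ∀ p x, Decidable (good p x) := fun p x => by unfold good; infer_instance
  have hg : ∀ x ∈ X0, Fintype.card Ω ≤ 2 * (univ.filter fun p : Ω => good p x).card := by
    intro x hx
    have h1 := hgood x
    rw [(mem_filter.mp hx).2] at h1
    convert h1
  -- a good choice of colours
  have havg : ∃ p : Ω, X0.card ≤ 2 * (X0.filter fun x => good p x).card := by
    by_contra hcon
    push Not at hcon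
    have h1 : ∑ p : Ω, 2 * (X0.filter fun x => good p x).card < ∑ _p : Ω, X0.card :=
      sum_lt_sum_of_nonempty ⟨(fun _ => 0, fun _ => 0), mem_univ _⟩ (fun p _ => hcon p)
    have h2 : ∑ p : Ω, 2 * (X0.filter fun x => good p x).card =
        ∑ x ∈ X0, 2 * (univ.filter fun p : Ω => good p x).card := by
      rw [← mul_sum, ← mul_sum]
      congr 1
      simp only [card_filter]
      exact sum_comm
    have h3 : ∑ x ∈ X0, Fintype.card Ω ≤ ∑ x ∈ X0, 2 * (univ.filter fun p : Ω => good p x).card :=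
      sum_le_sum hg
    rw [h2] at h1
    simp only [sum_const, smul_eq_mul, card_univ] at h1 h3
    have : X0.card * Fintype.card Ω < Fintype.card Ω * X0.card := lt_of_le_of_lt h3 h1
    rw [mul_comm] at this
    exact lt_irrefl _ this
  obtain ⟨p, hp⟩ := havg
  set F : Fin r → ℕ := fun l => (p.1 l : ℕ) with hF
  set U : Finset (Fin n) := univ.filter fun v => (p.2 v : ℕ) = 0 with hU
  set G := X0.filter fun x => good p x with hG
  have hGbad : ∀ x ∈ G, (abad2 (B.Lay x) F U τ0.2.1).card ≤ e := by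
    intro x hx
    have := (mem_filter.mp hx).2
    exact this.2.2
  have hs0 := B.small_side F U τ0.2.1 e lam 0 (Or.inl rfl) G hGbad
  have hs1 := B.small_side F U τ0.2.1 e lam 1 (Or.inr rfl) G hGbad
  set S0 := G.filter fun x => (B.side F U 0 x).card * 2 ^ lam < 2 ^ (B.foot F U 0 x).card with hS0
  set S1 := G.filter fun x => (B.side F U 1 x).card * 2 ^ lam < 2 ^ (B.foot F U 1 x).card with hS1
  set X' := (G \ S0) \ S1 with hX'
  have hXG : X.card ≤ 2 * typ2 k E * G.card := by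
    calc X.card ≤ typ2 k E * X0.card := hXX0
      _ ≤ typ2 k E * (2 * G.card) := Nat.mul_le_mul_left _ hp
      _ = 2 * typ2 k E * G.card := by ring
  have key : ∀ S : ℕ, S * 2 ^ lam ≤ Fintype.card Sk * nsub n e * 2 ^ n → 16 * typ2 k E * S ≤ X.card := by
    intro S hS
    have h1 : 2 ^ lam * (16 * typ2 k E * S) ≤ 2 ^ lam * X.card := by
      calc 2 ^ lam * (16 * typ2 k E * S) = 16 * typ2 k E * (S * 2 ^ lam) := by ring
        _ ≤ 16 * typ2 k E * (Fintype.card Sk * nsub n e * 2 ^ n) := Nat.mul_le_mul_left _ hS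
        _ = 16 * typ2 k E * Fintype.card Sk * nsub n e * 2 ^ n := by ring
        _ ≤ 2 ^ lam * X.card := hlam
    exact Nat.le_of_mul_le_mul_left h1 (by positivity)
  have hk0 := key _ hs0
  have hk1 := key _ hs1
  have hGX' : G.card ≤ X'.card + S0.card + S1.card := by
    have h1 : G.card ≤ (G \ S0).card + S0.card := card_le_card_sdiff_add_card
    have h2 : (G \ S0).card ≤ X'.card + S1.card := card_le_card_sdiff_add_card
    omega
  refine ⟨F, U, X', ?_, ?_, ?_⟩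
  · intro x hx
    rw [hX', mem_sdiff, mem_sdiff] at hx
    exact (mem_filter.mp (mem_filter.mp hx.1.1).1).1
  · have h1 : 16 * typ2 k E * G.card ≤ 16 * typ2 k E * X'.card + 2 * X.card := by
      calc 16 * typ2 k E * G.card ≤ 16 * typ2 k E * (X'.card + S0.card + S1.card) :=
            Nat.mul_le_mul_left _ hGX'
        _ = 16 * typ2 k E * X'.card + 16 * typ2 k E * S0.card + 16 * typ2 k E * S1.card := by ring
        _ ≤ 16 * typ2 k E * X'.card + 2 * X.card := by omega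
    have h2 : 8 * X.card ≤ 16 * typ2 k E * G.card := by
      calc 8 * X.card ≤ 8 * (2 * typ2 k E * G.card) := Nat.mul_le_mul_left _ hXG
        _ = 16 * typ2 k E * G.card := by ring
    have h3 : 6 * X.card ≤ 16 * typ2 k E * X'.card := by omega
    have h4 : 4 * X.card ≤ 4 * (4 * typ2 k E * X'.card) := by
      calc 4 * X.card ≤ 6 * X.card := by omega
        _ ≤ 16 * typ2 k E * X'.card := h3
        _ = 4 * (4 * typ2 k E * X'.card) := by ring
    omega
  · intro x hx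
    rw [hX', mem_sdiff, mem_sdiff] at hx
    obtain ⟨⟨hxG, hx0'⟩, hx1'⟩ := hx
    have hgx := (mem_filter.mp hxG).2
    refine ⟨hgx.1, hgx.2.1, ?_, ?_⟩
    · by_contra h
      exact hx0' (mem_filter.mpr ⟨hxG, not_le.mp h⟩)
    · by_contra h
      exact hx1' (mem_filter.mpr ⟨hxG, not_le.mp h⟩)

end Pool.Agent.SR
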