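import Pool.Agent.Lib.MP_b573ec_lc_SR.Sys
import Pool.Agent.Lib.MP_b573ec_lc_LT.Common

/-!
# The classes of a system are rectangles
-/

namespace Pool.Agent.SR

open Finset
open Pool.Agent.LT (Inp abad2 hash GoodHash2 Cub nsub typ2 RR2 subst)

namespace A1Aux

variable {n r : ℕ} {Sk : Type} (B : Sys n r Sk) (F : Fin r → ℕ) (U : Finset (Fin n))

/-- The mixed input: `y` on `A`, `z` off `A`. -/
def mix (A : Finset (Fin n)) (y z : Inp n) : Inp n := fun v => if v ∈ A then y v else z v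

theorem mix_pos {A : Finset (Fin n)} (y z : Inp n) {v : Fin n} (hv : v ∈ A) :
    mix A y z v = y v := if_pos hv

theorem mix_neg {A : Finset (Fin n)} (y z : Inp n) {v : Fin n} (hv : v ∉ A) :
    mix A y z v = z v := if_neg hv

theorem mem_Lay {x : Inp n} {v : Fin n} {l : Fin r} : l ∈ B.Lay x v ↔ v ∈ B.R x l := by
  simp [Sys.Lay]

theorem mem_foot {c : ℕ} {x : Inp n} {v : Fin n} :
    v ∈ B.foot F U c x ↔ v ∈ U ∧ ∀ l : Fin r, v ∈ B.R x l → F l = c := by
  unfold Sys.foot
  rw [mem_filter]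
  refine and_congr_right fun _ => forall_congr' fun l => ?_
  rw [mem_Lay]

theorem mem_cls [DecidableEq Sk] {x y : Inp n} :
    y ∈ B.cls F U x ↔ B.tau y = B.tau x ∧
      B.foot F U 0 y = B.foot F U 0 x ∧ B.foot F U 1 y = B.foot F U 1 x ∧
      ∀ v, v ∉ B.foot F U 0 x → v ∉ B.foot F U 1 x → y v = x v := by
  unfold Sys.cls
  rw [mem_filter]
  exact ⟨fun h => h.2, fun h => ⟨mem_univ _, h⟩⟩

end A1Aux

open A1Aux

section
variable {n r : ℕ} {Sk : Type} [DecidableEq Sk] (B : Sys n r Sk) (F : Fin r → ℕ)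
  (U : Finset (Fin n))

omit [DecidableEq Sk] in
theorem Sys.foot_disjoint (x : Inp n) (hcov : ∀ v, (B.Lay x v).Nonempty) :
    Disjoint (B.foot F U 0 x) (B.foot F U 1 x) := by
  rw [Finset.disjoint_left]
  intro v h0 h1
  obtain ⟨l, hl⟩ := hcov v
  rw [mem_Lay] at hl
  have e0 := ((mem_foot B F U).mp h0).2 l hl
  have e1 := ((mem_foot B F U).mp h1).2 l hl
  omega

theorem Sys.mem_cls_self (x : Inp n) : x ∈ B.cls F U x := by
  rw [mem_cls]
  exact ⟨rfl, rfl, rfl, fun _ _ _ => rfl⟩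

theorem Sys.cls_eq {x y : Inp n} (h : y ∈ B.cls F U x) : B.cls F U y = B.cls F U x := by
  rw [mem_cls] at h
  obtain ⟨h1, h2, h3, h4⟩ := h
  ext z
  rw [mem_cls, mem_cls, h1, h2, h3]
  constructor
  · rintro ⟨k1, k2, k3, k4⟩
    exact ⟨k1, k2, k3, fun v hv hv' => (k4 v hv hv').trans (h4 v hv hv')⟩
  · rintro ⟨k1, k2, k3, k4⟩
    exact ⟨k1, k2, k3, fun v hv hv' => (k4 v hv hv').trans (h4 v hv hv').symm⟩

theorem Sys.mix_mem {x y z : Inp n} (hy : y ∈ B.cls F U x) (hz : z ∈ B.cls F U x) :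
    (fun v => if v ∈ B.foot F U 0 x then y v else z v) ∈ B.cls F U x := by
  change mix (B.foot F U 0 x) y z ∈ B.cls F U x
  rw [mem_cls] at hy hz
  obtain ⟨y1, y2, y3, y4⟩ := hy
  obtain ⟨z1, z2, z3, z4⟩ := hz
  set A := B.foot F U 0 x with hA
  set D := B.foot F U 1 x with hD
  set m := mix A y z with hm
  have my : ∀ v, v ∉ D → m v = y v := by
    intro v hv
    by_cases hvA : v ∈ A
    · exact mix_pos y z hvA
    · rw [hm, mix_neg y z hvA, z4 v hvA hv, y4 v hvA hv]
  have mz : ∀ v, v ∉ A → m v = z v := fun v hv => mix_neg y z hv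
  -- the variables read in units of the different colours
  have ryD : ∀ l : Fin r, F l ≠ 1 → ∀ v ∈ B.R y l, v ∉ D := by
    intro l hl v hv hvD
    rw [← y3] at hvD
    exact hl (((mem_foot B F U).mp hvD).2 l hv)
  have rzA : ∀ l : Fin r, F l ≠ 0 → ∀ v ∈ B.R z l, v ∉ A := by
    intro l hl v hv hvA
    rw [← z2] at hvA
    exact hl (((mem_foot B F U).mp hvA).2 l hv)
  have agy : ∀ l : Fin r, F l ≠ 1 → ∀ v ∈ B.rd (B.tau x) l y, y v = m v := by
    intro l hl v hv
    have hv' : v ∈ B.R y l := by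
      unfold Sys.R
      rw [y1]
      exact hv
    exact (my v (ryD l hl v hv')).symm
  have agz : ∀ l : Fin r, F l ≠ 0 → ∀ v ∈ B.rd (B.tau x) l z, z v = m v := by
    intro l hl v hv
    have hv' : v ∈ B.R z l := by
      unfold Sys.R
      rw [z1]
      exact hv
    exact (mz v (rzA l hl v hv')).symm
  have htau : B.tau m = B.tau x := by
    refine B.ok_tau _ _ fun l => ?_
    by_cases h0 : F l = 0
    · have hok : B.ok (B.tau x) l y := by
        rw [← y1]
        exact B.tau_ok y l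
      exact B.dep_ok _ l y m (agy l (by omega)) hok
    · have hok : B.ok (B.tau x) l z := by
        rw [← z1]
        exact B.tau_ok z l
      exact B.dep_ok _ l z m (agz l h0) hok
  have hRy : ∀ l : Fin r, F l ≠ 1 → B.R m l = B.R y l := by
    intro l hl
    unfold Sys.R
    rw [htau, y1]
    exact B.dep_rd _ l y m (agy l hl)
  have hRz : ∀ l : Fin r, F l ≠ 0 → B.R m l = B.R z l := by
    intro l hl
    unfold Sys.R
    rw [htau, z1]
    exact B.dep_rd _ l z m (agz l hl)
  rw [mem_cls]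
  refine ⟨htau, ?_, ?_, ?_⟩
  · rw [← hA, ← z2]
    ext v
    rw [mem_foot, mem_foot]
    refine and_congr_right fun _ => forall_congr' fun l => ?_
    by_cases h0 : F l = 0
    · simp only [h0, implies_true]
    · rw [hRz l h0]
  · rw [← hD, ← y3]
    ext v
    rw [mem_foot, mem_foot]
    refine and_congr_right fun _ => forall_congr' fun l => ?_
    by_cases h1 : F l = 1
    · simp only [h1, implies_true]
    · rw [hRy l h1]
  · intro v hvA hvD
    rw [mz v hvA, z4 v hvA hvD]

theorem Sys.card_cls (hcov : ∀ x v, (B.Lay x v).Nonempty) (x : Inp n) :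
    (B.cls F U x).card = (B.side F U 0 x).card * (B.side F U 1 x).card := by
  rw [← Finset.card_product]
  symm
  have hdis := Sys.foot_disjoint B F U x (hcov x)
  set A := B.foot F U 0 x with hA
  set D := B.foot F U 1 x with hD
  have hself := Sys.mem_cls_self B F U x
  have hmix : ∀ {y z : Inp n}, y ∈ B.cls F U x → z ∈ B.cls F U x →
      mix A y z ∈ B.cls F U x := fun hy hz => Sys.mix_mem B F U hy hz
  have hside0 : ∀ {y : Inp n}, y ∈ B.side F U 0 x ↔ y ∈ B.cls F U x ∧ ∀ v, v ∉ A → y v = x v := by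
    intro y
    unfold Sys.side
    rw [mem_filter]
  have hside1 : ∀ {y : Inp n}, y ∈ B.side F U 1 x ↔ y ∈ B.cls F U x ∧ ∀ v, v ∉ D → y v = x v := by
    intro y
    unfold Sys.side
    rw [mem_filter]
  refine Finset.card_nbij' (fun p : Inp n × Inp n => mix A p.1 p.2)
    (fun y => (mix A y x, mix A x y)) ?_ ?_ ?_ ?_
  · intro p hp
    rw [Finset.mem_coe, Finset.mem_product, hside0, hside1] at hp
    exact hmix hp.1.1 hp.2.1
  · intro y hy
    rw [Finset.mem_coe] at hy
    rw [Finset.mem_coe, Finset.mem_product, hside0, hside1]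
    refine ⟨⟨hmix hy hself, fun v hv => mix_neg y x hv⟩, hmix hself hy, fun v hv => ?_⟩
    by_cases hvA : v ∈ A
    · exact mix_pos x y hvA
    · exact (mix_neg x y hvA).trans (((mem_cls B F U).mp hy).2.2.2 v hvA hv)
  · intro p hp
    rw [Finset.mem_coe, Finset.mem_product, hside0, hside1] at hp
    obtain ⟨⟨_, h0⟩, _, h1⟩ := hp
    refine Prod.ext ?_ ?_
    · funext v
      by_cases hvA : v ∈ A
      · exact (mix_pos _ x hvA).trans (mix_pos _ _ hvA)
      · exact (mix_neg _ x hvA).trans (h0 v hvA).symm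
    · funext v
      by_cases hvA : v ∈ A
      · have hvD : v ∉ D := Finset.disjoint_left.mp hdis hvA
        exact (mix_pos x _ hvA).trans (h1 v hvD).symm
      · exact (mix_neg x _ hvA).trans (mix_neg _ _ hvA)
  · intro y _
    funext v
    by_cases hvA : v ∈ A
    · exact (mix_pos _ _ hvA).trans (mix_pos _ _ hvA)
    · exact (mix_neg _ _ hvA).trans (mix_neg _ _ hvA)

theorem Sys.cls_mix {W : Type*} [AddCommGroup W] (γ : Fin n → W)
    (hcov : ∀ x v, (B.Lay x v).Nonempty) (x y z : Inp n)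
    (hy : y ∈ B.side F U 0 x) (hz : z ∈ B.side F U 1 x) :
    ∃ u ∈ B.cls F U x, hash γ u = hash γ y + (hash γ z - hash γ x) := by
  rw [Sys.side, mem_filter] at hy hz
  refine ⟨_, Sys.mix_mem B F U hy.1 hz.1, ?_⟩
  exact Pool.Agent.LT.hash_mix γ _ _ (Sys.foot_disjoint B F U x (hcov x)) x y z hy.2 hz.2

end

end Pool.Agent.SR
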