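import Pool.Agent.Lib.MP_b573ec_lc_SR.Sys
import Pool.Agent.Lib.MP_b573ec_lc_SR.Rect
import Pool.Agent.Lib.MP_b573ec_lc_SR.Ajtai
import Pool.Agent.Lib.MP_b573ec_lc_LT.Common
import Pool.Agent.Lib.MP_b573ec_lc_LT.Cubic
import Pool.Agent.Lib.MP_b573ec_lc_LT.V2.Part1Lower2

/-!
# Lower bound for the cubic relation, systems of independent units
-/

namespace Pool.Agent.SR

open Finset
open Pool.Agent.LT (Inp abad2 hash GoodHash2 Cub nsub typ2 RR2 subst)

/-- double counting of the readings -/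
theorem Sys.sum_card_Lay {n r : ℕ} {Sk : Type} (B : Sys n r Sk) (x : Inp n) :
    ∑ v, (B.Lay x v).card = ∑ l, (B.R x l).card := by
  have h1 : ∑ v, (B.Lay x v).card = ∑ v, ∑ l, (if v ∈ B.R x l then 1 else 0) := by
    refine sum_congr rfl fun v _ => ?_
    rw [Sys.Lay, card_filter]
  have h2 : ∑ l, (B.R x l).card = ∑ l, ∑ v, (if v ∈ B.R x l then 1 else 0) := by
    refine sum_congr rfl fun l _ => ?_
    rw [← card_filter]
    congr 1
    ext v
    simp
  rw [h1, h2, sum_comm]

open Classical in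
theorem part1 {M n : ℕ} (γ : Fin n → (Fin M → ZMod 2) × (Fin (3 * M) → ZMod 2))
    (w0 : (Fin M → ZMod 2) × (Fin (3 * M) → ZMod 2)) (g a0 : ℕ) (hγ : GoodHash2 γ (4 * M) a0 g)
    (hw0 : 2 ^ n ≤ (univ.filter fun x : Inp n => Cub (hash γ x + w0)).card * 2 ^ (3 * M))
    (k E L r R K e lam DA : ℕ) (hk : 1 ≤ k) (hE : 1 ≤ E) (hDA : 16 ≤ DA)
    (ha0 : a0 ≤ 2 * DA) (hR : R ≤ k * n)
    (hn : 16 * k * RR2 k E * DA ≤ n) (hLn : 512 * k ^ 2 * RR2 k E * L ≤ n)
    (he : 64 * DA ≤ (e + 1) * E)
    (hlam : 32 * typ2 k E * K * nsub n e * 2 ^ (3 * M) ≤ 2 ^ lam)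
    (hbig : lam + g + 2 ≤ 4 * M) :
    ¬ OneF (CovFn n r L R K) (fun x : Inp n => decide (Cub (hash γ x + w0))) := by
  rintro ⟨ρ, P, hP, hacc, hrej⟩
  set C : Finset (Inp n) := univ.filter fun x : Inp n => Cub (hash γ x + w0) with hC
  -- fix the coins
  have havg : ∃ c, C.card ≤ 2 * (C.filter fun x => P c x = true).card := by
    by_contra hcon
    push Not at hcon
    have h1 : ∑ c : Fin ρ → Bool, 2 * (C.filter fun x => P c x = true).card <
        ∑ _c : Fin ρ → Bool, C.card :=
      sum_lt_sum_of_nonempty univ_nonempty (fun c _ => hcon c)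
    have h2 : ∑ c : Fin ρ → Bool, 2 * (C.filter fun x => P c x = true).card =
        ∑ x ∈ C, 2 * (univ.filter fun c : Fin ρ → Bool => P c x = true).card := by
      rw [← mul_sum, ← mul_sum]
      congr 1
      simp only [card_filter]
      exact sum_comm
    have h3 : ∑ x ∈ C, 2 ^ ρ ≤
        ∑ x ∈ C, 2 * (univ.filter fun c : Fin ρ → Bool => P c x = true).card := by
      refine sum_le_sum fun x hx => hacc x ?_
      rw [decide_eq_true_iff]
      exact (mem_filter.mp hx).2
    rw [h2] at h1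
    simp only [sum_const, smul_eq_mul, card_univ, Fintype.card_fun, Fintype.card_bool,
      Fintype.card_fin] at h1 h3
    have : C.card * 2 ^ ρ < 2 ^ ρ * C.card := lt_of_le_of_lt h3 h1
    rw [mul_comm] at this
    exact lt_irrefl _ this
  obtain ⟨c, hc⟩ := havg
  set X := C.filter fun x => P c x = true with hX
  have hCpos : 0 < C.card := by
    rcases Nat.eq_zero_or_pos C.card with h | h
    · rw [h, zero_mul] at hw0
      have : 0 < 2 ^ n := by positivity
      omega
    · exact h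
  have hXpos : 0 < X.card := by omega
  obtain ⟨Sk, hSk, B, hK, hread, hsum, hcov, heval⟩ := hP c
  have hlam' : 16 * typ2 k E * Fintype.card Sk * nsub n e * 2 ^ n ≤ 2 ^ lam * X.card := by
    calc 16 * typ2 k E * Fintype.card Sk * nsub n e * 2 ^ n
        ≤ 16 * typ2 k E * K * nsub n e * (C.card * 2 ^ (3 * M)) := by gcongr
      _ ≤ 16 * typ2 k E * K * nsub n e * ((2 * X.card) * 2 ^ (3 * M)) := by gcongr
      _ = 32 * typ2 k E * K * nsub n e * 2 ^ (3 * M) * X.card := by ring
      _ ≤ 2 ^ lam * X.card := Nat.mul_le_mul_right _ hlam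
  obtain ⟨F, U, X', hX'X, hX'card, hX'⟩ := B.ajtai k E DA L e lam hk hE hDA
    (fun x l => hread x l) hcov
    (fun x => (B.sum_card_Lay x).le.trans ((hsum x).trans hR)) hn hLn he X
    (card_pos.mp hXpos) hlam'
  have hX'pos : 0 < X'.card := by
    rcases Nat.eq_zero_or_pos X'.card with h | h
    · rw [h] at hX'card; omega
    · exact h
  obtain ⟨x, hx⟩ := card_pos.mp hX'pos
  obtain ⟨hA, hB, hKA, hKB⟩ := hX' x hx
  have hxX := hX'X hx
  have hxacc : P c x = true := (mem_filter.mp hxX).2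
  have hcls : ∀ y ∈ B.cls F U x, Cub (hash γ y + w0) := by
    intro y hy
    have h1 : B.tau y = B.tau x := (mem_filter.mp hy).2.1
    have h2 : P c y = true := by rw [heval y x h1, hxacc]
    by_contra hcon
    have := hrej y (by rw [decide_eq_false_iff_not]; exact hcon) c
    rw [h2] at this
    exact Bool.noConfusion this
  have hcardS : ∀ S : Finset ((Fin M → ZMod 2) × (Fin (3 * M) → ZMod 2)),
      2 ^ (4 * M) ≤ S.card * 2 ^ (lam + g) → 4 ≤ S.card := by
    intro S hS
    have h1 : 4 * 2 ^ (lam + g) ≤ S.card * 2 ^ (lam + g) := by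
      calc 4 * 2 ^ (lam + g) = 2 ^ (lam + g + 2) := by rw [pow_add]; ring
        _ ≤ 2 ^ (4 * M) := Nat.pow_le_pow_right (by norm_num) hbig
        _ ≤ S.card * 2 ^ (lam + g) := hS
    exact Nat.le_of_mul_le_mul_right h1 (by positivity)
  have hS0 := hcardS _ (LT.Part1Lower2Aux.many_values2 γ (4 * M) a0 g lam hγ
    (B.foot F U 0 x) (ha0.trans hA) x
    (B.side F U 0 x) (fun y hy => (mem_filter.mp hy).2) hKA)
  have hS1 := hcardS _ (LT.Part1Lower2Aux.many_values2 γ (4 * M) a0 g lam hγ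
    (B.foot F U 1 x) (ha0.trans hB) x
    (B.side F U 1 x) (fun y hy => (mem_filter.mp hy).2) hKB)
  obtain ⟨a0, ha0, a1, ha1, a2, ha2, h01, h02, h12⟩ := two_lt_card.mp (by omega :
    2 < ((B.side F U 0 x).image (hash γ)).card)
  obtain ⟨b0, hb0, b1, hb1, hb01⟩ := one_lt_card.mp (by omega :
    1 < ((B.side F U 1 x).image (hash γ)).card)
  have hcub : ∀ a ∈ (B.side F U 0 x).image (hash γ), ∀ b ∈ (B.side F U 1 x).image (hash γ),
      Cub (a + (b - hash γ x + w0)) := by
    intro a ha b hb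
    obtain ⟨y, hy, rfl⟩ := mem_image.mp ha
    obtain ⟨z, hz, rfl⟩ := mem_image.mp hb
    obtain ⟨u, hu, hu'⟩ := B.cls_mix F U γ hcov x y z hy hz
    have := hcls u hu
    rw [hu', add_assoc] at this
    exact this
  have hav : ∀ i, (![a0, a1, a2] : Fin 3 → _) i ∈ (B.side F U 0 x).image (hash γ) := by
    intro i
    fin_cases i
    exacts [ha0, ha1, ha2]
  have hbv : ∀ j, (![b0, b1] : Fin 2 → _) j ∈ (B.side F U 1 x).image (hash γ) := by
    intro j
    fin_cases j
    exacts [hb0, hb1]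
  have hai : Function.Injective (![a0, a1, a2] : Fin 3 → _) := by
    intro i j hij
    fin_cases i <;> fin_cases j
    · rfl
    · exact absurd hij h01
    · exact absurd hij h02
    · exact absurd hij.symm h01
    · rfl
    · exact absurd hij h12
    · exact absurd hij.symm h02
    · exact absurd hij.symm h12
    · rfl
  have hbi : Function.Injective (![b0, b1] : Fin 2 → _) := by
    intro i j hij
    fin_cases i <;> fin_cases j
    · rfl
    · exact absurd hij hb01
    · exact absurd hij.symm hb01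
    · rfl
  refine LT.cub_rect (![a0, a1, a2] : Fin 3 → _)
    (fun j => (![b0, b1] : Fin 2 → _) j - hash γ x + w0) hai ?_ ?_
  · intro i j hij
    refine hbi ?_
    simpa using hij
  · intro i j
    exact hcub _ (hav i) _ (hbv j)

end Pool.Agent.SR
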