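import Pool.Agent.Lib.MP_b573ec_lc_ST.Core
import Pool.Agent.Lib.MP_b573ec_lc_SR.Model

/-!
# Local runs, units of skeletons (auxiliary, not used in the final statements)
-/

namespace Pool.Agent.SR

open Finset
open Pool.Agent.LT (Inp)
open Pool.Agent.ST (Conf Rel Pop Nd Cs Sk Dv)

variable {n T w : ℕ}

/-- the transition relation of a read program on a fixed input -/
def ReadProg.rel (P : ReadProg n T w) (x : Inp n) : Rel w := fun t q g _ mv =>
  ∃ h : t < T, mv = match P.move ⟨t, h⟩ q g with
    | .push q a => ST.Move.push q a
    | .pop q => ST.Move.pop q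
    | .read v f => ST.Move.next (f (x v))

/-- the constant stream -/
def z0 : ℕ → Bool := fun _ => false

/-- local configurations: number of readings, state, stack; the entry `none` of the stack stands for
the bottom of the stack, which is not removed by moves -/
@[ext]
structure LC (w : ℕ) where
  t : ℕ
  q : Fin w
  st : List (Option (Fin w))

/-- One local step.  Nothing happens when the stack of the local configuration is empty.  After `T`
readings the entries of the stack are removed one after the other. -/
def ReadProg.ls (P : ReadProg n T w) (x : Inp n) (c : LC w) : LC w :=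
  match c.st with
  | [] => c
  | g :: σ => if h : c.t < T then
      match P.move ⟨c.t, h⟩ c.q g with
      | .push q a => ⟨c.t, q, some a :: g :: σ⟩
      | .pop q => ⟨c.t, q, if g = none then g :: σ else σ⟩
      | .read v f => ⟨c.t + 1, f (x v), g :: σ⟩
    else ⟨c.t, c.q, σ⟩

/-- the variables read in the next local step -/
def ReadProg.lr (P : ReadProg n T w) (c : LC w) : Finset (Fin n) :=
  match c.st with
  | [] => ∅
  | g :: _ => if h : c.t < T then
      match P.move ⟨c.t, h⟩ c.q g with
      | .push _ _ => ∅
      | .pop _ => ∅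
      | .read v _ => {v}
    else ∅

/-- the local configuration after `k` steps -/
def ReadProg.run (P : ReadProg n T w) (x : Inp n) (c : LC w) (k : ℕ) : LC w := (P.ls x)^[k] c

/-- the variables read in the first `k` local steps -/
def ReadProg.rds (P : ReadProg n T w) (x : Inp n) (c : LC w) (k : ℕ) : Finset (Fin n) :=
  (range k).biUnion fun j => P.lr (P.run x c j)

open Classical in
/-- all variables which are read from the local configuration `c` on -/
noncomputable def ReadProg.all (P : ReadProg n T w) (x : Inp n) (c : LC w) : Finset (Fin n) :=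
  univ.filter fun v => ∃ j, v ∈ P.lr (P.run x c j)

/-- the local configuration at the beginning of a node -/
def beg (ν : Nd w) : LC w := ⟨ν.t, ν.q, [ν.g]⟩

/-- the local configuration at the end of a node -/
def fin (ν : Nd w) : LC w := ⟨ν.e, ν.r, []⟩

/-- the local configuration `c` is at the beginning of the node `μ` (with more symbols below) -/
def At (μ : Nd w) (c : LC w) : Prop := c.t = μ.t ∧ c.q = μ.q ∧ c.st.head? = some μ.g

/-- the units of skeletons: leaves; chains which end with a reading; chains which end with a push -/
inductive Un (w : ℕ)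
  | int (ν : Nd w)
  | nxt (ν μ : Nd w) (q : Fin w)
  | br (ν μ : Nd w) (q a : Fin w)

open Classical in
/-- the number of steps until the left run of the chain from `ν` to `μ` arrives (`0` if it does not
arrive) -/
noncomputable def ReadProg.arr (P : ReadProg n T w) (x : Inp n) (ν μ : Nd w) : ℕ :=
  if h : ∃ k, At μ (P.run x (beg ν) k) then Nat.find h else 0

/-- the beginning of the right run of the chain from `ν` to `μ` -/
noncomputable def ReadProg.rgt (P : ReadProg n T w) (x : Inp n) (ν μ : Nd w) : LC w :=
  ⟨μ.e, μ.r, (P.run x (beg ν) (P.arr x ν μ)).st.tail⟩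

open Classical in
/-- the variables read by the chain from `ν` to `μ` -/
noncomputable def ReadProg.chr (P : ReadProg n T w) (x : Inp n) (ν μ : Nd w) : Finset (Fin n) :=
  if ∃ k, At μ (P.run x (beg ν) k) then
    P.rds x (beg ν) (P.arr x ν μ) ∪ P.all x (P.rgt x ν μ)
  else P.all x (beg ν)

/-- the chain from `ν` to `μ` is correct: the left run arrives, and the right run ends correctly -/
def ReadProg.Ch (P : ReadProg n T w) (x : Inp n) (ν μ : Nd w) : Prop :=
  (∃ k, At μ (P.run x (beg ν) k)) ∧ ∃ k, P.run x (P.rgt x ν μ) k = fin ν

/-- the variables read by a unit -/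
noncomputable def Un.rd (P : ReadProg n T w) (x : Inp n) : Un w → Finset (Fin n)
  | .int ν => P.all x (beg ν)
  | .nxt ν μ _ => P.chr x ν μ ∪ P.lr (beg μ)
  | .br ν μ _ _ => P.chr x ν μ

/-- a unit is correct -/
def Un.Ok (P : ReadProg n T w) (x : Inp n) : Un w → Prop
  | .int ν => ∃ k, P.run x (beg ν) k = fin ν
  | .nxt ν μ q => P.Ch x ν μ ∧ P.rel x μ.t μ.q μ.g false (.next q)
  | .br ν μ q a => P.Ch x ν μ ∧ P.rel x μ.t μ.q μ.g false (.push q a)

/-- the units of the skeleton `s` with the root `ν` -/
def units : Nd w → Sk w → List (Un w)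
  | ν, .int => [.int ν]
  | ν, .nxt μ q s => .nxt ν μ q :: units ⟨μ.t + 1, q, μ.g, μ.e, μ.r⟩ s
  | ν, .br μ q a t1 q2 s s' => .br ν μ q a ::
      (units ⟨μ.t, q, some a, t1, q2⟩ s ++ units ⟨t1, q2, μ.g, μ.e, μ.r⟩ s')

/-- the program makes all its readings on every input -/
def ReadProg.Total (P : ReadProg n T w) : Prop := ∀ x, ∃ b, P.Outputs x b

end Pool.Agent.SR
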