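import Mathlib
import Pool.Agent.Lib.MP_b573ec_lc_SR.Units

/-!
# Local runs of read programs (module B1)
-/

namespace Pool.Agent.SR

open Finset
open Pool.Agent.LT (Inp)

section
variable {n T w : ℕ} (P : ReadProg n T w) (x : Inp n)

theorem ReadProg.B1_ls_nil (c : LC w) (h : c.st = []) : P.ls x c = c := by
  obtain ⟨t, q, st⟩ := c
  subst h
  rfl

theorem ReadProg.B1_lr_nil (c : LC w) (h : c.st = []) : P.lr c = ∅ := by
  obtain ⟨t, q, st⟩ := c
  subst h
  rfl

theorem ReadProg.B1_ls_le (c : LC w) : c.t ≤ (P.ls x c).t := by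
  obtain ⟨t, q, st⟩ := c
  cases st with
  | nil => exact le_refl _
  | cons g σ =>
    simp only [ReadProg.ls]
    split
    · split <;> simp
    · simp

theorem ReadProg.B1_ls_le_T (c : LC w) (h : c.t ≤ T) : (P.ls x c).t ≤ T := by
  obtain ⟨t, q, st⟩ := c
  cases st with
  | nil => exact h
  | cons g σ =>
    simp only [ReadProg.ls]
    split
    · rename_i h1
      simp only at h1 h
      split
      · exact h
      · exact h
      · exact h1
    · exact h

theorem ReadProg.B1_card_lr (c : LC w) : (P.lr c).card + c.t ≤ (P.ls x c).t := by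
  obtain ⟨t, q, st⟩ := c
  cases st with
  | nil => simp [ReadProg.lr, ReadProg.ls]
  | cons g σ =>
    simp only [ReadProg.lr, ReadProg.ls]
    split
    · split <;> simp_all [add_comm]
    · simp

theorem ReadProg.B1_ls_frame (c : LC w) (τ : List (Option (Fin w))) (h : c.st ≠ []) :
    P.ls x ⟨c.t, c.q, c.st ++ τ⟩ =
      ⟨(P.ls x c).t, (P.ls x c).q, (P.ls x c).st ++ τ⟩ := by
  obtain ⟨t, q, st⟩ := c
  cases st with
  | nil => exact absurd rfl h
  | cons g σ =>
    by_cases ht : t < T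
    · cases hm : P.move ⟨t, ht⟩ q g with
      | push q1 a => simp [ReadProg.ls, ht, hm]
      | pop q1 =>
        by_cases hg : g = none
        · subst hg
          simp [ReadProg.ls, ht, hm]
        · simp [ReadProg.ls, ht, hm, hg]
      | read v f => simp [ReadProg.ls, ht, hm]
    · simp [ReadProg.ls, ht]

theorem ReadProg.B1_ls_congr {y : Inp n} (c : LC w) (h : ∀ v ∈ P.lr c, x v = y v) :
    P.ls y c = P.ls x c := by
  obtain ⟨t, q, st⟩ := c
  cases st with
  | nil => rfl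
  | cons g σ =>
    simp only [ReadProg.lr, ReadProg.ls] at h ⊢
    split
    · rename_i h1
      rw [dif_pos h1] at h
      split
      · rfl
      · rfl
      · rename_i v f hm
        rw [hm] at h
        rw [h v (by simp)]
    · rfl

theorem ReadProg.run_zero (c : LC w) : P.run x c 0 = c := rfl

theorem ReadProg.run_succ (c : LC w) (k : ℕ) : P.run x c (k + 1) = P.ls x (P.run x c k) :=
  Function.iterate_succ_apply' _ _ _

theorem ReadProg.run_add (c : LC w) (j k : ℕ) : P.run x c (j + k) = P.run x (P.run x c j) k := by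
  unfold ReadProg.run
  rw [add_comm, Function.iterate_add_apply]

theorem ReadProg.B1_run_of_nil (c : LC w) (h : c.st = []) (k : ℕ) : P.run x c k = c := by
  induction k with
  | zero => rfl
  | succ k ih => rw [ReadProg.run_succ, ih, P.B1_ls_nil x c h]

theorem ReadProg.run_nil (t : ℕ) (q : Fin w) (k : ℕ) : P.run x ⟨t, q, []⟩ k = ⟨t, q, []⟩ :=
  P.B1_run_of_nil x _ rfl k

theorem ReadProg.run_mono (c : LC w) {j k : ℕ} (h : j ≤ k) :
    (P.run x c j).t ≤ (P.run x c k).t := by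
  induction k, h using Nat.le_induction with
  | base => exact le_refl _
  | succ k _ ih =>
    rw [ReadProg.run_succ]
    exact ih.trans (P.B1_ls_le x _)

theorem ReadProg.run_le (c : LC w) (h : c.t ≤ T) (k : ℕ) : (P.run x c k).t ≤ T := by
  induction k with
  | zero => exact h
  | succ k ih =>
    rw [ReadProg.run_succ]
    exact P.B1_ls_le_T x _ ih

theorem ReadProg.B1_frame (c : LC w) (τ : List (Option (Fin w))) (k : ℕ)
    (h : ∀ j < k, (P.run x c j).st ≠ []) :
    P.run x ⟨c.t, c.q, c.st ++ τ⟩ k = ⟨(P.run x c k).t, (P.run x c k).q,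
      (P.run x c k).st ++ τ⟩ := by
  induction k with
  | zero => rfl
  | succ k ih =>
    rw [ReadProg.run_succ, ReadProg.run_succ, ih (fun j hj => h j (by omega)),
      P.B1_ls_frame x _ τ (h k (by omega))]

theorem ReadProg.run_frame (t : ℕ) (q : Fin w) (σ τ : List (Option (Fin w))) (k : ℕ)
    (h : ∀ j < k, (P.run x ⟨t, q, σ⟩ j).st ≠ []) :
    P.run x ⟨t, q, σ ++ τ⟩ k = ⟨(P.run x ⟨t, q, σ⟩ k).t, (P.run x ⟨t, q, σ⟩ k).q,
      (P.run x ⟨t, q, σ⟩ k).st ++ τ⟩ :=
  P.B1_frame x ⟨t, q, σ⟩ τ k h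

open Classical in
theorem ReadProg.B1_first (c : LC w) {k : ℕ} (h : (P.run x c k).st = []) :
    ∃ j ≤ k, (P.run x c j).st = [] ∧ (∀ i < j, (P.run x c i).st ≠ []) ∧
      ∀ l, j ≤ l → P.run x c l = P.run x c j := by
  have hex : ∃ j, (P.run x c j).st = [] := ⟨k, h⟩
  refine ⟨Nat.find hex, Nat.find_min' hex h, Nat.find_spec hex,
    fun i hi => Nat.find_min hex hi, fun l hl => ?_⟩
  obtain ⟨d, rfl⟩ := Nat.exists_eq_add_of_le hl
  rw [ReadProg.run_add, P.B1_run_of_nil x _ (Nat.find_spec hex)]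

theorem ReadProg.run_pass {t t1 : ℕ} {q q1 : Fin w} {σ τ : List (Option (Fin w))} {k : ℕ}
    (h : P.run x ⟨t, q, σ⟩ k = ⟨t1, q1, []⟩) :
    ∃ j ≤ k, P.run x ⟨t, q, σ ++ τ⟩ j = ⟨t1, q1, τ⟩ := by
  obtain ⟨j, hj, h1, h2, h3⟩ := P.B1_first x ⟨t, q, σ⟩ (k := k) (by rw [h])
  refine ⟨j, hj, ?_⟩
  rw [P.run_frame x t q σ τ j h2, ← h3 k hj, h]
  rfl

theorem ReadProg.run_split {t e : ℕ} {q r : Fin w} {σ τ : List (Option (Fin w))} {k : ℕ}
    (h : P.run x ⟨t, q, σ ++ τ⟩ k = ⟨e, r, []⟩) : ∃ j ≤ k, ∃ t1 q1,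
      P.run x ⟨t, q, σ⟩ j = ⟨t1, q1, []⟩ ∧ P.run x ⟨t1, q1, τ⟩ (k - j) = ⟨e, r, []⟩ := by
  by_cases hk : (P.run x ⟨t, q, σ⟩ k).st = []
  · obtain ⟨j, hj, h1, h2, h3⟩ := P.B1_first x ⟨t, q, σ⟩ (k := k) hk
    refine ⟨j, hj, (P.run x ⟨t, q, σ⟩ j).t, (P.run x ⟨t, q, σ⟩ j).q, ?_, ?_⟩
    · ext1
      · rfl
      · rfl
      · exact h1
    · have h4 := P.run_frame x t q σ τ j h2
      rw [h1, List.nil_append] at h4
      rw [← h4, ← ReadProg.run_add, Nat.add_sub_cancel' hj, h]
  · exfalso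
    have h2 : ∀ j < k, (P.run x ⟨t, q, σ⟩ j).st ≠ [] := by
      intro j hj h0
      apply hk
      obtain ⟨d, rfl⟩ := Nat.exists_eq_add_of_le hj.le
      rw [ReadProg.run_add, P.B1_run_of_nil x _ h0, h0]
    have h4 := P.run_frame x t q σ τ k h2
    rw [h] at h4
    have h5 := congrArg LC.st h4
    simp only at h5
    exact hk (List.append_eq_nil_iff.mp h5.symm).1

theorem ReadProg.run_congr {y : Inp n} (c : LC w) (k : ℕ) (h : ∀ v ∈ P.rds x c k, x v = y v) :
    ∀ j ≤ k, P.run y c j = P.run x c j := by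
  intro j
  induction j with
  | zero => intro _; rfl
  | succ j ih =>
    intro hj
    rw [ReadProg.run_succ, ReadProg.run_succ, ih (by omega)]
    apply P.B1_ls_congr x
    intro v hv
    apply h v
    unfold ReadProg.rds
    rw [mem_biUnion]
    exact ⟨j, mem_range.mpr (by omega), hv⟩

theorem ReadProg.B1_mem_all (c : LC w) (v : Fin n) :
    v ∈ P.all x c ↔ ∃ j, v ∈ P.lr (P.run x c j) := by
  classical
  unfold ReadProg.all
  simp

theorem ReadProg.B1_rds_subset (c : LC w) (k : ℕ) : P.rds x c k ⊆ P.all x c := by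
  intro v hv
  unfold ReadProg.rds at hv
  rw [mem_biUnion] at hv
  obtain ⟨j, _, hj⟩ := hv
  exact (P.B1_mem_all x c v).mpr ⟨j, hj⟩

theorem ReadProg.run_congr_all {y : Inp n} (c : LC w) (h : ∀ v ∈ P.all x c, x v = y v) :
    (∀ j, P.run y c j = P.run x c j) ∧ P.all y c = P.all x c := by
  have h1 : ∀ j, P.run y c j = P.run x c j := fun j =>
    P.run_congr x c j (fun v hv => h v (P.B1_rds_subset x c j hv)) j le_rfl
  refine ⟨h1, ?_⟩
  ext v
  rw [ReadProg.B1_mem_all, ReadProg.B1_mem_all]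
  simp only [h1]

theorem ReadProg.card_rds (c : LC w) (k : ℕ) :
    (P.rds x c k).card + c.t ≤ (P.run x c k).t := by
  induction k with
  | zero => simp [ReadProg.rds, ReadProg.run_zero]
  | succ k ih =>
    have h1 : P.rds x c (k + 1) = P.lr (P.run x c k) ∪ P.rds x c k := by
      unfold ReadProg.rds
      rw [range_add_one, biUnion_insert]
    have h2 := card_union_le (P.lr (P.run x c k)) (P.rds x c k)
    have h3 := P.B1_card_lr x (P.run x c k)
    rw [← ReadProg.run_succ] at h3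
    rw [h1]
    omega

theorem ReadProg.all_eq {c : LC w} {k : ℕ} (h : (P.run x c k).st = []) :
    P.all x c = P.rds x c k := by
  apply subset_antisymm
  · intro v hv
    obtain ⟨j, hj⟩ := (P.B1_mem_all x c v).mp hv
    unfold ReadProg.rds
    rw [mem_biUnion]
    refine ⟨j, mem_range.mpr ?_, hj⟩
    by_contra hkj
    obtain ⟨d, rfl⟩ := Nat.exists_eq_add_of_le (not_lt.mp hkj)
    rw [ReadProg.run_add, P.B1_run_of_nil x _ h, P.B1_lr_nil _ h] at hj
    exact absurd hj (notMem_empty v)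
  · exact P.B1_rds_subset x c k

end

end Pool.Agent.SR
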