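import Pool.Agent.Lib.MP_b573ec_lc_SR.Units
import Pool.Agent.Lib.MP_b573ec_lc_SR.Runs
import Pool.Agent.Lib.MP_b573ec_lc_ST.Deriv

/-!
# Derivations and local runs
-/

namespace Pool.Agent.SR

open Finset
open Pool.Agent.LT (Inp)
open Pool.Agent.ST (Conf Rel Pop Nd Cs Sk Dv)

variable {n T w : ℕ} (P : ReadProg n T w) (x : Inp n)

theorem ReadProg.rel_det : (P.rel x).Det := by
  rintro t q g b mv mv' ⟨h, h1⟩ ⟨h', h2⟩
  rw [h1, h2]

theorem ReadProg.B2_one (c : LC w) : P.run x c 1 = P.ls x c := by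
  rw [P.run_succ, P.run_zero]

theorem ReadProg.B2_cons (c : LC w) (k : ℕ) : P.run x c (k + 1) = P.run x (P.ls x c) k := by
  rw [Nat.add_comm, P.run_add, P.B2_one]

theorem ReadProg.B2_ls {t : ℕ} (h : t < T) (q : Fin w) (g : Option (Fin w))
    (σ : List (Option (Fin w))) : P.ls x ⟨t, q, g :: σ⟩ =
      match P.move ⟨t, h⟩ q g with
      | .push q a => ⟨t, q, some a :: g :: σ⟩
      | .pop q => ⟨t, q, if g = none then g :: σ else σ⟩
      | .read v f => ⟨t + 1, f (x v), g :: σ⟩ := by
  unfold ReadProg.ls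
  simp only [dif_pos h]
  cases P.move ⟨t, h⟩ q g <;> rfl

theorem ReadProg.B2_end {t : ℕ} (h : ¬ t < T) (q : Fin w) (g : Option (Fin w))
    (σ : List (Option (Fin w))) : P.ls x ⟨t, q, g :: σ⟩ = ⟨t, q, σ⟩ := by
  unfold ReadProg.ls
  simp only [dif_neg h]

theorem ReadProg.pop_run {t e : ℕ} {q r : Fin w} {g : Option (Fin w)} {l : List (ℕ × ℕ)}
    (h : Pop (P.rel x) T z0 t q g e r l) : ∃ k, P.run x ⟨t, q, [g]⟩ k = ⟨e, r, []⟩ := by
  induction h with
  | fin q g => exact ⟨1, by rw [P.B2_one, P.B2_end x (lt_irrefl _)]⟩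
  | pop t q a q' ht hm =>
    obtain ⟨h, h1⟩ := hm
    refine ⟨1, ?_⟩
    rw [P.B2_one, P.B2_ls x h]
    cases hmv : P.move ⟨t, h⟩ q (some a) with
    | push q1 a1 => rw [hmv] at h1; exact absurd h1 (by simp)
    | pop q1 =>
      rw [hmv] at h1
      injection h1 with h2
      rw [h2]
      simp
    | read v f => rw [hmv] at h1; exact absurd h1 (by simp)
  | bot t q q1 t' q' l ht hm hp ih =>
    obtain ⟨h, h1⟩ := hm
    obtain ⟨k, hk⟩ := ih
    refine ⟨k + 1, ?_⟩
    rw [P.B2_cons, P.B2_ls x h]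
    cases hmv : P.move ⟨t, h⟩ q none with
    | push q2 a1 => rw [hmv] at h1; exact absurd h1 (by simp)
    | pop q2 =>
      rw [hmv] at h1
      injection h1 with h2
      rw [← h2]
      simpa using hk
    | read v f => rw [hmv] at h1; exact absurd h1 (by simp)
  | next t q g q1 t' q' l ht hm hp ih =>
    obtain ⟨h, h1⟩ := hm
    obtain ⟨k, hk⟩ := ih
    refine ⟨k + 1, ?_⟩
    rw [P.B2_cons, P.B2_ls x h]
    cases hmv : P.move ⟨t, h⟩ q g with
    | push q2 a1 => rw [hmv] at h1; exact absurd h1 (by simp)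
    | pop q2 => rw [hmv] at h1; exact absurd h1 (by simp)
    | read v f =>
      rw [hmv] at h1
      injection h1 with h2
      subst h2
      exact hk
  | push t q g q1 a t1 q2 t' q' l1 l2 ht hm hp1 hp2 ih1 ih2 =>
    obtain ⟨h, h1⟩ := hm
    obtain ⟨k1, hk1⟩ := ih1
    obtain ⟨k2, hk2⟩ := ih2
    obtain ⟨j, -, hj⟩ := P.run_pass x (τ := [g]) hk1
    refine ⟨j + k2 + 1, ?_⟩
    rw [P.B2_cons, P.B2_ls x h]
    cases hmv : P.move ⟨t, h⟩ q g with
    | push q3 a1 =>
      rw [hmv] at h1
      injection h1 with h2 h3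
      rw [← h2, ← h3]
      simp only
      rw [P.run_add]
      have hj' : P.run x ⟨t, q1, [some a, g]⟩ j = ⟨t1, q2, [g]⟩ := hj
      rw [hj']
      exact hk2
    | pop q2 => rw [hmv] at h1; exact absurd h1 (by simp)
    | read v f => rw [hmv] at h1; exact absurd h1 (by simp)

theorem ReadProg.B2_run_pop (k : ℕ) : ∀ {t e : ℕ} {q r : Fin w} {g : Option (Fin w)},
    t ≤ T → P.run x ⟨t, q, [g]⟩ k = ⟨e, r, []⟩ → ∃ l, Pop (P.rel x) T z0 t q g e r l := by
  induction k using Nat.strong_induction_on with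
  | _ k ih =>
    intro t e q r g ht h
    rcases k with _ | k
    · rw [P.run_zero] at h
      simp at h
    rw [P.B2_cons] at h
    by_cases hT : t < T
    · rw [P.B2_ls x hT] at h
      cases hmv : P.move ⟨t, hT⟩ q g with
      | push q1 a =>
        rw [hmv] at h
        simp only at h
        obtain ⟨j, hj, t1, q2, h1, h2⟩ := P.run_split x (σ := [some a]) (τ := [g]) h
        have ht1 : t1 ≤ T := by
          have := P.run_le x ⟨t, q1, [some a]⟩ ht j
          rw [h1] at this
          exact this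
        obtain ⟨l1, p1⟩ := ih j (by omega) ht h1
        obtain ⟨l2, p2⟩ := ih (k - j) (by omega) ht1 h2
        exact ⟨_, Pop.push t q g q1 a t1 q2 e r l1 l2 hT ⟨hT, by rw [hmv]⟩ p1 p2⟩
      | pop q1 =>
        rw [hmv] at h
        simp only at h
        cases g with
        | none =>
          simp only [if_true] at h
          obtain ⟨l, p⟩ := ih k (by omega) ht h
          exact ⟨_, Pop.bot t q q1 e r l hT ⟨hT, by rw [hmv]⟩ p⟩
        | some a =>
          simp only [reduceCtorEq, if_false] at h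
          rw [P.run_nil] at h
          injection h with h1 h2 h3
          subst h1 h2
          exact ⟨_, Pop.pop t q a q1 hT ⟨hT, by rw [hmv]⟩⟩
      | read v f =>
        rw [hmv] at h
        simp only at h
        obtain ⟨l, p⟩ := ih k (by omega) hT h
        exact ⟨_, Pop.next t q g (f (x v)) e r l hT ⟨hT, by rw [hmv]⟩ p⟩
    · rw [P.B2_end x hT, P.run_nil] at h
      injection h with h1 h2 h3
      subst h1 h2
      have : t = T := by omega
      subst this
      exact ⟨_, Pop.fin q g⟩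

theorem ReadProg.run_pop {t e : ℕ} {q r : Fin w} {g : Option (Fin w)} {k : ℕ} (ht : t ≤ T)
    (h : P.run x ⟨t, q, [g]⟩ k = ⟨e, r, []⟩) : ∃ l, Pop (P.rel x) T z0 t q g e r l :=
  P.B2_run_pop x k ht h

/-- the local configuration of a configuration -/
def B2_loc (c : Conf w) : LC w := ⟨c.pos, c.state, c.stack.map some ++ [none]⟩

theorem ReadProg.B2_loc_step (c : Conf w) (h : c.pos < T) :
    P.ls x (B2_loc c) = B2_loc (P.step x c) := by
  obtain ⟨t, q, s⟩ := c
  have h' : t < T := h
  unfold ReadProg.step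
  rw [dif_pos h]
  cases s with
  | nil =>
    have e : B2_loc (⟨t, q, []⟩ : Conf w) = ⟨t, q, [none]⟩ := rfl
    rw [e, P.B2_ls x h']
    simp only [List.head?_nil]
    cases P.move ⟨t, h'⟩ q none <;> simp [B2_loc]
  | cons a s =>
    have e : B2_loc (⟨t, q, a :: s⟩ : Conf w) = ⟨t, q, some a :: (s.map some ++ [none])⟩ := rfl
    rw [e, P.B2_ls x h']
    simp only [List.head?_cons]
    cases P.move ⟨t, h'⟩ q (some a) <;> simp [B2_loc]

theorem ReadProg.B2_conf_succ (k : ℕ) : P.conf x (k + 1) = P.step x (P.conf x k) := by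
  simp only [ReadProg.conf, Function.iterate_succ_apply']

theorem ReadProg.B2_loc_run (k : ℕ) (h : ∀ j < k, (P.conf x j).pos < T) :
    P.run x ⟨0, P.start, [none]⟩ k = B2_loc (P.conf x k) := by
  induction k with
  | zero => rfl
  | succ k ih =>
    rw [P.run_succ, ih fun j hj => h j (by omega), P.B2_loc_step x _ (h k (by omega)),
      P.B2_conf_succ]

/-- the end of a local run -/
theorem ReadProg.B2_finish (q : Fin w) (s : List (Option (Fin w))) :
    ∃ k, P.run x ⟨T, q, s⟩ k = ⟨T, q, []⟩ := by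
  induction s with
  | nil => exact ⟨0, rfl⟩
  | cons g s ih =>
    obtain ⟨k, hk⟩ := ih
    exact ⟨k + 1, by rw [P.B2_cons, P.B2_end x (lt_irrefl _), hk]⟩

theorem ReadProg.B2_conf_le (k : ℕ) : (P.conf x k).pos ≤ T := by
  induction k with
  | zero => exact Nat.zero_le _
  | succ k ih =>
    rw [P.B2_conf_succ]
    unfold ReadProg.step
    split_ifs with h
    · cases P.move ⟨(P.conf x k).pos, h⟩ (P.conf x k).state (P.conf x k).stack.head? with
      | push q a => exact h.le
      | pop q => exact h.le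
      | read v f => exact h
    · exact ih

theorem ReadProg.B2_conf_end {k : ℕ} (h : (P.conf x k).pos = T) (m : ℕ) :
    P.conf x (k + m) = P.conf x k := by
  induction m with
  | zero => rfl
  | succ m ih =>
    rw [← Nat.add_assoc, P.B2_conf_succ, ih, ReadProg.step, dif_neg (by rw [h]; exact lt_irrefl _)]

theorem ReadProg.outputs_iff (b : Bool) : P.Outputs x b ↔
    ∃ r l, Pop (P.rel x) T z0 0 P.start none T r l ∧ P.acc r = b := by
  classical
  constructor
  · rintro ⟨k, hk, hb⟩
    have hex : ∃ k, (P.conf x k).pos = T := ⟨k, hk⟩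
    set k0 := Nat.find hex with hk0
    have h0 : (P.conf x k0).pos = T := Nat.find_spec hex
    have h1 : ∀ j < k0, (P.conf x j).pos < T := fun j hj =>
      lt_of_le_of_ne (P.B2_conf_le x j) (Nat.find_min hex hj)
    have h2 : P.conf x k = P.conf x k0 := by
      have h3 : k0 ≤ k := Nat.find_min' hex hk
      obtain ⟨m, rfl⟩ := Nat.exists_eq_add_of_le h3
      exact P.B2_conf_end x h0 m
    have h3 := P.B2_loc_run x k0 h1
    obtain ⟨m, hm⟩ := P.B2_finish x (P.conf x k0).state ((P.conf x k0).stack.map some ++ [none])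
    have h4 : P.run x ⟨0, P.start, [none]⟩ (k0 + m) = ⟨T, (P.conf x k0).state, []⟩ := by
      rw [P.run_add, h3, ← hm]
      unfold B2_loc
      rw [h0]
    obtain ⟨l, hl⟩ := P.run_pop x (Nat.zero_le T) h4
    exact ⟨_, l, hl, by rw [← h2]; exact hb⟩
  · rintro ⟨r, l, hp, hb⟩
    obtain ⟨k, hk⟩ := P.pop_run x hp
    by_cases hex : ∃ k, (P.conf x k).pos = T
    · set k0 := Nat.find hex with hk0
      have h0 : (P.conf x k0).pos = T := Nat.find_spec hex
      have h1 : ∀ j < k0, (P.conf x j).pos < T := fun j hj =>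
        lt_of_le_of_ne (P.B2_conf_le x j) (Nat.find_min hex hj)
      refine ⟨k0, h0, ?_⟩
      have h3 := P.B2_loc_run x k0 h1
      obtain ⟨m, hm⟩ := P.B2_finish x (P.conf x k0).state
        ((P.conf x k0).stack.map some ++ [none])
      have h4 : P.run x ⟨0, P.start, [none]⟩ (k0 + m) = ⟨T, (P.conf x k0).state, []⟩ := by
        rw [P.run_add, h3, ← hm]
        unfold B2_loc
        rw [h0]
      obtain ⟨l', hl'⟩ := P.run_pop x (Nat.zero_le T) h4
      rw [← (ST.Pop.det (P.rel_det x) hp hl').2.1]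
      exact hb
    · exfalso
      have h1 : ∀ j < k, (P.conf x j).pos < T := fun j _ =>
        lt_of_le_of_ne (P.B2_conf_le x j) fun h => hex ⟨j, h⟩
      have h3 := P.B2_loc_run x k h1
      rw [hk] at h3
      have h4 := congrArg LC.st h3
      simp [B2_loc] at h4

end Pool.Agent.SR
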