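import Pool.Agent.Lib.MP_b573ec_lc_SR.Units
import Pool.Agent.Lib.MP_b573ec_lc_SR.Runs
import Pool.Agent.Lib.MP_b573ec_lc_SR.PopRun
import Pool.Agent.Lib.MP_b573ec_lc_ST.Deriv

/-!
# Chains and local runs (module B3)
-/

namespace Pool.Agent.SR

open Finset
open Pool.Agent.LT (Inp)
open Pool.Agent.ST (Conf Rel Pop Nd Cs Sk Dv)

section
variable {n T w : ℕ} (P : ReadProg n T w) (x : Inp n) {ph : ℕ → ℕ}

theorem ReadProg.B3_push {t : ℕ} {q q1 a : Fin w} {g : Option (Fin w)} {b : Bool}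
    (h : P.rel x t q g b (.push q1 a)) (σ : List (Option (Fin w))) :
    P.ls x ⟨t, q, g :: σ⟩ = ⟨t, q1, some a :: g :: σ⟩ := by
  obtain ⟨ht, hm⟩ := h
  cases hmv : P.move ⟨t, ht⟩ q g with
  | push q' a' =>
    rw [hmv] at hm
    injection hm with h1 h2
    subst h1 h2
    simp [ReadProg.ls, ht, hmv]
  | pop q' => rw [hmv] at hm; cases hm
  | read v f => rw [hmv] at hm; cases hm

theorem ReadProg.B3_next {t : ℕ} {q q1 : Fin w} {g : Option (Fin w)} {b : Bool}
    (h : P.rel x t q g b (.next q1)) (σ : List (Option (Fin w))) :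
    P.ls x ⟨t, q, g :: σ⟩ = ⟨t + 1, q1, g :: σ⟩ := by
  obtain ⟨ht, hm⟩ := h
  cases hmv : P.move ⟨t, ht⟩ q g with
  | push q' a' => rw [hmv] at hm; cases hm
  | pop q' => rw [hmv] at hm; cases hm
  | read v f =>
    rw [hmv] at hm
    injection hm with h1
    subst h1
    simp [ReadProg.ls, ht, hmv]

theorem ReadProg.B3_bot {t : ℕ} {q q1 : Fin w} {b : Bool}
    (h : P.rel x t q none b (.pop q1)) (σ : List (Option (Fin w))) :
    P.ls x ⟨t, q, none :: σ⟩ = ⟨t, q1, none :: σ⟩ := by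
  obtain ⟨ht, hm⟩ := h
  cases hmv : P.move ⟨t, ht⟩ q none with
  | push q' a' => rw [hmv] at hm; cases hm
  | pop q' =>
    rw [hmv] at hm
    injection hm with h1
    subst h1
    simp [ReadProg.ls, ht, hmv]
  | read v f => rw [hmv] at hm; cases hm

theorem ReadProg.B3_succ (c : LC w) (k : ℕ) : P.run x c (1 + k) = P.run x (P.ls x c) k := by
  rw [ReadProg.run_add, ReadProg.run_succ, ReadProg.run_zero]

/-- a nonempty stack was nonempty before -/
theorem ReadProg.B3_ne {c : LC w} {k : ℕ} (h : (P.run x c k).st ≠ []) :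
    ∀ j ≤ k, (P.run x c j).st ≠ [] := by
  intro j hj h0
  apply h
  obtain ⟨d, rfl⟩ := Nat.exists_eq_add_of_le hj
  rw [ReadProg.run_add, P.B1_run_of_nil x _ h0, h0]

/-- the left and the right run of a chain -/
theorem ReadProg.B3_runs {ν μ : Nd w} (h : Relation.ReflTransGen (Cs (P.rel x) T ph z0) ν μ) :
    ∃ (k : ℕ) (σ : List (Option (Fin w))) (k' : ℕ),
      P.run x (beg ν) k = ⟨μ.t, μ.q, μ.g :: σ⟩ ∧ P.run x ⟨μ.e, μ.r, σ⟩ k' = fin ν := by
  induction h using Relation.ReflTransGen.head_induction_on with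
  | refl => exact ⟨0, [], 0, rfl, rfl⟩
  | @head ν ν1 hs _ ih =>
    obtain ⟨k, σ, k', h1, h2⟩ := ih
    cases hs with
    | bot t q q1 e r ht hm =>
      refine ⟨1 + k, σ, k', ?_, h2⟩
      rw [B3_succ]
      change P.run x (P.ls x ⟨t, q, [none]⟩) k = _
      rw [P.B3_bot x hm]
      exact h1
    | next t q g q1 e r ht hm _ =>
      refine ⟨1 + k, σ, k', ?_, h2⟩
      rw [B3_succ]
      change P.run x (P.ls x ⟨t, q, [g]⟩) k = _
      rw [P.B3_next x hm]
      exact h1
    | left t q g q1 a t1 q2 e r l ht hm hp _ =>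
      obtain ⟨k1, hk1⟩ := P.pop_run x hp
      obtain ⟨j, _, hj⟩ := P.run_pass x (τ := [g]) hk1
      refine ⟨1 + (j + k), σ, k', ?_, h2⟩
      rw [B3_succ]
      change P.run x (P.ls x ⟨t, q, [g]⟩) (j + k) = _
      rw [P.B3_push x hm, ReadProg.run_add]
      change P.run x (P.run x ⟨t, q1, [some a] ++ [g]⟩ j) k = _
      rw [hj]
      exact h1
    | right t q g q1 a t1 q2 e r l ht hm hp _ =>
      change P.run x ⟨t, q1, [some a]⟩ k = _ at h1
      change P.run x ⟨μ.e, μ.r, σ⟩ k' = ⟨t1, q2, []⟩ at h2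
      have hne : ∀ j < k, (P.run x ⟨t, q1, [some a]⟩ j).st ≠ [] := by
        intro j hj
        exact P.B3_ne x (k := k) (by rw [h1]; simp) j hj.le
      have hfr := P.run_frame x t q1 [some a] [g] k hne
      obtain ⟨j, _, hj⟩ := P.run_pass x (τ := [g]) h2
      obtain ⟨k2, hk2⟩ := P.pop_run x hp
      refine ⟨1 + k, σ ++ [g], j + k2, ?_, ?_⟩
      · rw [B3_succ]
        change P.run x (P.ls x ⟨t, q, [g]⟩) k = _
        rw [P.B3_push x hm]
        change P.run x ⟨t, q1, [some a] ++ [g]⟩ k = _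
        rw [hfr, h1]
        rfl
      · rw [ReadProg.run_add, hj]
        exact hk2

theorem B3_at {μ : Nd w} {c : LC w} (h : At μ c) : c = ⟨μ.t, μ.q, μ.g :: c.st.tail⟩ := by
  obtain ⟨t, q, st⟩ := c
  obtain ⟨h1, h2, h3⟩ := h
  cases st with
  | nil => simp at h3
  | cons g σ =>
    simp only at h1 h2
    simp only [List.head?_cons, Option.some.injEq] at h3
    subst h1 h2 h3
    rfl

/-- the first arrival is the only one -/
theorem ReadProg.B3_first {μ : Nd w} {c : LC w} {k : ℕ}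
    (hp : ∃ l, Pop (P.rel x) T z0 μ.t μ.q μ.g μ.e μ.r l) (hlt : μ.t < μ.e)
    {k0 : ℕ} (h0 : At μ (P.run x c k0)) (h : At μ (P.run x c k)) (hk : k0 ≤ k) : k0 = k := by
  classical
  obtain ⟨l, hl⟩ := hp
  obtain ⟨K, hK⟩ := P.pop_run x hl
  have hex : ∃ j, μ.t < (P.run x ⟨μ.t, μ.q, [μ.g]⟩ j).t := ⟨K, by rw [hK]; exact hlt⟩
  obtain ⟨m, hm⟩ : ∃ m, Nat.find hex = m + 1 := by
    rcases Nat.eq_zero_or_pos (Nat.find hex) with h0 | h0
    · have := Nat.find_spec hex
      rw [h0] at this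
      exact absurd this (lt_irrefl _)
    · exact ⟨Nat.find hex - 1, by omega⟩
  have h1 : μ.t < (P.run x ⟨μ.t, μ.q, [μ.g]⟩ (m + 1)).t := hm ▸ Nat.find_spec hex
  have h2 : (P.run x ⟨μ.t, μ.q, [μ.g]⟩ m).t ≤ μ.t := by
    have := Nat.find_min hex (m := m) (by omega)
    omega
  have hne : (P.run x ⟨μ.t, μ.q, [μ.g]⟩ m).st ≠ [] := by
    intro h3
    rw [ReadProg.run_succ, P.B1_ls_nil x _ h3] at h1
    omega
  have hfr : ∀ (τ : List (Option (Fin w))) (j : ℕ), j ≤ m + 1 →
      (P.run x ⟨μ.t, μ.q, μ.g :: τ⟩ j).t = (P.run x ⟨μ.t, μ.q, [μ.g]⟩ j).t := by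
    intro τ j hj
    have := P.run_frame x μ.t μ.q [μ.g] τ j
      (fun i hi => P.B3_ne x hne i (by omega))
    change P.run x ⟨μ.t, μ.q, μ.g :: τ⟩ j = _ at this
    rw [this]
  by_contra hne0
  have hlt0 : k0 < k := lt_of_le_of_ne hk hne0
  have h3 : (P.run x c (k0 + (m + 1))).t = (P.run x ⟨μ.t, μ.q, [μ.g]⟩ (m + 1)).t := by
    rw [ReadProg.run_add, B3_at h0]
    exact hfr _ _ le_rfl
  have h4 : (P.run x c (k + m)).t = (P.run x ⟨μ.t, μ.q, [μ.g]⟩ m).t := by
    rw [ReadProg.run_add, B3_at h]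
    exact hfr _ _ (by omega)
  have h5 := P.run_mono x c (j := k0 + (m + 1)) (k := k + m) (by omega)
  omega

theorem ReadProg.cs_ch {ν μ : Nd w} (h : Relation.ReflTransGen (Cs (P.rel x) T ph z0) ν μ)
    (hp : ∃ l, Pop (P.rel x) T z0 μ.t μ.q μ.g μ.e μ.r l) (hlt : μ.t < μ.e) :
    P.Ch x ν μ ∧ ν.t ≤ μ.t ∧ μ.e ≤ ν.e ∧
      (P.chr x ν μ).card ≤ (μ.t - ν.t) + (ν.e - μ.e) := by
  classical
  obtain ⟨k, σ, k', h1, h2⟩ := P.B3_runs x h
  have hat : At μ (P.run x (beg ν) k) := by rw [h1]; exact ⟨rfl, rfl, rfl⟩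
  have hex : ∃ k, At μ (P.run x (beg ν) k) := ⟨k, hat⟩
  have harr : P.arr x ν μ = k := by
    unfold ReadProg.arr
    rw [dif_pos hex]
    exact P.B3_first x hp hlt (Nat.find_spec hex) hat (Nat.find_min' hex hat)
  have hrgt : P.rgt x ν μ = ⟨μ.e, μ.r, σ⟩ := by
    unfold ReadProg.rgt
    rw [harr, h1]
    rfl
  have ht : ν.t ≤ μ.t := by
    have := P.run_mono x (beg ν) (Nat.zero_le k)
    rw [h1] at this
    exact this
  have he : μ.e ≤ ν.e := by
    have := P.run_mono x ⟨μ.e, μ.r, σ⟩ (Nat.zero_le k')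
    rw [h2] at this
    exact this
  refine ⟨⟨hex, k', by rw [hrgt]; exact h2⟩, ht, he, ?_⟩
  unfold ReadProg.chr
  rw [if_pos hex, harr, hrgt]
  have h3 := P.card_rds x (beg ν) k
  rw [h1] at h3
  change (P.rds x (beg ν) k).card + ν.t ≤ μ.t at h3
  have h4 := P.card_rds x ⟨μ.e, μ.r, σ⟩ k'
  rw [h2] at h4
  change (P.rds x ⟨μ.e, μ.r, σ⟩ k').card + μ.e ≤ ν.e at h4
  have h5 : P.all x ⟨μ.e, μ.r, σ⟩ = P.rds x ⟨μ.e, μ.r, σ⟩ k' :=
    P.all_eq x (by rw [h2]; rfl)
  rw [h5]
  have h6 := card_union_le (P.rds x (beg ν) k) (P.rds x ⟨μ.e, μ.r, σ⟩ k')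
  omega

theorem ReadProg.B3_ch_cs (hph : Monotone ph) {μ : Nd w} (h3 : μ.e ≤ T) (k : ℕ) :
    ∀ (ν : Nd w) (σ : List (Option (Fin w))) (k' : ℕ),
      P.run x (beg ν) k = ⟨μ.t, μ.q, μ.g :: σ⟩ → P.run x ⟨μ.e, μ.r, σ⟩ k' = fin ν →
      ph μ.t = ph ν.t → ph μ.e = ph ν.e →
      Relation.ReflTransGen (Cs (P.rel x) T ph z0) ν μ := by
  induction k using Nat.strong_induction_on with
  | _ k ih =>
    intro ν σ k' hl hr h1 h2
    obtain ⟨t, q, g, e, r⟩ := ν
    simp only at h1 h2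
    rcases Nat.eq_zero_or_pos k with hk | hk
    · subst hk
      rw [ReadProg.run_zero] at hl
      change (⟨t, q, [g]⟩ : LC w) = _ at hl
      injection hl with ha hb hc
      injection hc with hc hd
      subst hd
      rw [ReadProg.run_nil] at hr
      change _ = (⟨e, r, []⟩ : LC w) at hr
      injection hr with hf hg
      have : (⟨t, q, g, e, r⟩ : Nd w) = μ := by
        ext1
        · exact ha
        · exact hb
        · exact hc
        · exact hf.symm
        · exact hg.symm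
      rw [this]
    obtain ⟨k1, rfl⟩ : ∃ k1, k = 1 + k1 := ⟨k - 1, by omega⟩
    rw [B3_succ] at hl
    change P.run x (P.ls x ⟨t, q, [g]⟩) k1 = _ at hl
    by_cases ht : t < T
    swap
    · exfalso
      have h4 : P.ls x ⟨t, q, [g]⟩ = ⟨t, q, []⟩ := by simp [ReadProg.ls, ht]
      rw [h4, ReadProg.run_nil] at hl
      injection hl with _ _ hc
      cases hc
    cases hmv : P.move ⟨t, ht⟩ q g with
    | pop q1 =>
      cases g with
      | some b =>
        exfalso
        have h4 : P.ls x ⟨t, q, [some b]⟩ = ⟨t, q1, []⟩ := by simp [ReadProg.ls, ht, hmv]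
        rw [h4, ReadProg.run_nil] at hl
        injection hl with _ _ hc
        cases hc
      | none =>
        have hm : P.rel x t q none (z0 t) (.pop q1) := ⟨ht, by rw [hmv]⟩
        rw [P.B3_bot x hm] at hl
        exact Relation.ReflTransGen.head (Cs.bot t q q1 e r ht hm)
          (ih k1 (by omega) ⟨t, q1, none, e, r⟩ σ k' hl hr h1 h2)
    | read v f =>
      have hm : P.rel x t q g (z0 t) (.next (f (x v))) := ⟨ht, by rw [hmv]⟩
      rw [P.B3_next x hm] at hl
      have h5 : t + 1 ≤ μ.t := by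
        have := P.run_mono x ⟨t + 1, f (x v), [g]⟩ (Nat.zero_le k1)
        rw [hl] at this
        exact this
      have h6 : ph (t + 1) = ph t :=
        le_antisymm ((hph h5).trans h1.le) (hph (Nat.le_succ t))
      exact Relation.ReflTransGen.head (Cs.next t q g _ e r ht hm h6)
        (ih k1 (by omega) ⟨t + 1, f (x v), g, e, r⟩ σ k' hl hr (h1.trans h6.symm) h2)
    | push q1 a =>
      have hm : P.rel x t q g (z0 t) (.push q1 a) := ⟨ht, by rw [hmv]⟩
      rw [P.B3_push x hm] at hl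
      by_cases hj : (P.run x ⟨t, q1, [some a]⟩ k1).st = []
      · obtain ⟨j, hjk, hj1, hj2, hj3⟩ := P.B1_first x ⟨t, q1, [some a]⟩ hj
        set t1 := (P.run x ⟨t, q1, [some a]⟩ j).t with ht1
        set q2 := (P.run x ⟨t, q1, [some a]⟩ j).q with hq2
        have h5 : P.run x ⟨t, q1, [some a]⟩ j = ⟨t1, q2, []⟩ := by
          ext1
          · rfl
          · rfl
          · exact hj1
        obtain ⟨l, hl5⟩ := P.run_pop x ht.le h5
        have h6 := P.run_frame x t q1 [some a] [g] j hj2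
        rw [h5] at h6
        change P.run x ⟨t, q1, [some a, g]⟩ j = ⟨t1, q2, [g]⟩ at h6
        obtain ⟨d, rfl⟩ := Nat.exists_eq_add_of_le hjk
        rw [ReadProg.run_add, h6] at hl
        have h7 : t ≤ t1 := P.run_mono x ⟨t, q1, [some a]⟩ (Nat.zero_le j)
        have h8 : t1 ≤ μ.t := by
          have := P.run_mono x ⟨t1, q2, [g]⟩ (Nat.zero_le d)
          rw [hl] at this
          exact this
        have h9 : ph t1 = ph t := le_antisymm ((hph h8).trans h1.le) (hph h7)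
        exact Relation.ReflTransGen.head (Cs.left t q g q1 a t1 q2 e r l ht hm hl5 h9)
          (ih d (by omega) ⟨t1, q2, g, e, r⟩ σ k' hl hr (h1.trans h9.symm) h2)
      · have hne : ∀ j < k1, (P.run x ⟨t, q1, [some a]⟩ j).st ≠ [] :=
          fun j hj' => P.B3_ne x hj j hj'.le
        have h6 := P.run_frame x t q1 [some a] [g] k1 hne
        change P.run x ⟨t, q1, [some a, g]⟩ k1 = _ at h6
        rw [h6] at hl
        injection hl with ha hb hc
        cases hρ : (P.run x ⟨t, q1, [some a]⟩ k1).st with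
        | nil => exact absurd hρ hj
        | cons g' σ' =>
          rw [hρ, List.cons_append] at hc
          injection hc with hc hd
          subst hd
          have h7 : P.run x (beg ⟨t, q1, some a, 0, q⟩) k1 = ⟨μ.t, μ.q, μ.g :: σ'⟩ := by
            change P.run x ⟨t, q1, [some a]⟩ k1 = _
            ext1
            · exact ha
            · exact hb
            · rw [hρ, hc]
          obtain ⟨j, hjk, t1, q2, hj1, hj2⟩ := P.run_split x hr
          have h8 : μ.e ≤ t1 := by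
            have := P.run_mono x ⟨μ.e, μ.r, σ'⟩ (Nat.zero_le j)
            rw [hj1] at this
            exact this
          have h9 : t1 ≤ e := by
            have := P.run_mono x ⟨t1, q2, [g]⟩ (Nat.zero_le (k' - j))
            rw [hj2] at this
            exact this
          have h10 : t1 ≤ T := by
            have := P.run_le x ⟨μ.e, μ.r, σ'⟩ h3 j
            rw [hj1] at this
            exact this
          have h11 : ph t1 = ph e := le_antisymm (hph h9) (h2.symm.le.trans (hph h8))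
          obtain ⟨l, hl5⟩ := P.run_pop x h10 hj2
          exact Relation.ReflTransGen.head (Cs.right t q g q1 a t1 q2 e r l ht hm hl5 h11)
            (ih k1 (by omega) ⟨t, q1, some a, t1, q2⟩ σ' j h7 hj1 h1 (h2.trans h11.symm))

theorem ReadProg.ch_cs (hph : Monotone ph) {ν μ : Nd w} (h : P.Ch x ν μ)
    (h1 : ph μ.t = ph ν.t) (h2 : ph μ.e = ph ν.e) (h3 : μ.e ≤ T) :
    Relation.ReflTransGen (Cs (P.rel x) T ph z0) ν μ := by
  classical
  obtain ⟨hex, k', hk'⟩ := h
  have hat : At μ (P.run x (beg ν) (P.arr x ν μ)) := by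
    unfold ReadProg.arr
    rw [dif_pos hex]
    exact Nat.find_spec hex
  exact P.B3_ch_cs x hph h3 (P.arr x ν μ) ν _ k' (B3_at hat) hk' h1 h2
end

end Pool.Agent.SR
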