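import Pool.Agent.Lib.MP_b573ec_lc_SR.Units
import Pool.Agent.Lib.MP_b573ec_lc_SR.Runs
import Pool.Agent.Lib.MP_b573ec_lc_SR.PopRun
import Pool.Agent.Lib.MP_b573ec_lc_SR.Chain
import Pool.Agent.Lib.MP_b573ec_lc_ST.Deriv
import Pool.Agent.Lib.MP_b573ec_lc_ST.Skel

/-!
# Project SR, module B4: units of skeletons
-/

namespace Pool.Agent.SR

open Finset
open Pool.Agent.LT (Inp)
open Pool.Agent.ST (Conf Rel Pop Nd Cs Sk Dv)

section
variable {n T w : ℕ} (P : ReadProg n T w) {x y : Inp n} {ph : ℕ → ℕ}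

theorem units_length (ν : Nd w) (s : Sk w) : (units ν s).length = s.size := by
  induction s generalizing ν with
  | int => rfl
  | nxt μ q s ih => simp only [units, List.length_cons, ih, Sk.size]
  | br μ q a t1 q2 s s' ih ih' =>
    simp only [units, List.length_cons, List.length_append, ih, ih', Sk.size]

/-- the chain depends only on the variables read by it -/
theorem B4_chr (ν μ : Nd w) (h : ∀ v ∈ P.chr x ν μ, x v = y v) :
    P.chr y ν μ = P.chr x ν μ ∧ (P.Ch x ν μ → P.Ch y ν μ) := by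
  classical
  by_cases hx : ∃ k, At μ (P.run x (beg ν) k)
  · have hchr : P.chr x ν μ = P.rds x (beg ν) (P.arr x ν μ) ∪ P.all x (P.rgt x ν μ) := by
      unfold ReadProg.chr
      rw [if_pos hx]
    have harr : P.arr x ν μ = Nat.find hx := by
      unfold ReadProg.arr
      rw [dif_pos hx]
    have hrun : ∀ j ≤ P.arr x ν μ, P.run y (beg ν) j = P.run x (beg ν) j :=
      P.run_congr x (beg ν) _ fun v hv => h v (by rw [hchr]; exact mem_union_left _ hv)
    have hat : At μ (P.run x (beg ν) (P.arr x ν μ)) := by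
      rw [harr]
      exact Nat.find_spec hx
    have hy : ∃ k, At μ (P.run y (beg ν) k) := ⟨_, by rw [hrun _ le_rfl]; exact hat⟩
    have harr' : P.arr y ν μ = P.arr x ν μ := by
      have h1 : P.arr y ν μ = Nat.find hy := by
        unfold ReadProg.arr
        rw [dif_pos hy]
      rw [h1, Nat.find_eq_iff]
      refine ⟨by rw [hrun _ le_rfl]; exact hat, fun j hj hcon => ?_⟩
      rw [hrun j hj.le] at hcon
      rw [harr] at hj
      exact Nat.find_min hx hj hcon
    have hrgt : P.rgt y ν μ = P.rgt x ν μ := by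
      unfold ReadProg.rgt
      rw [harr', hrun _ le_rfl]
    have hrds : P.rds y (beg ν) (P.arr x ν μ) = P.rds x (beg ν) (P.arr x ν μ) := by
      unfold ReadProg.rds
      refine Finset.biUnion_congr rfl fun j hj => ?_
      rw [hrun j (mem_range.1 hj).le]
    have hall := P.run_congr_all x (y := y) (P.rgt x ν μ) fun v hv =>
      h v (by rw [hchr]; exact mem_union_right _ hv)
    constructor
    · rw [hchr]
      unfold ReadProg.chr
      rw [if_pos hy, harr', hrgt, hrds, hall.2]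
    · rintro ⟨-, k, hk⟩
      exact ⟨hy, k, by rw [hrgt, hall.1]; exact hk⟩
  · have hchr : P.chr x ν μ = P.all x (beg ν) := by
      unfold ReadProg.chr
      rw [if_neg hx]
    have hall := P.run_congr_all x (y := y) (beg ν) fun v hv => h v (by rw [hchr]; exact hv)
    have hy : ¬ ∃ k, At μ (P.run y (beg ν) k) := by
      rintro ⟨k, hk⟩
      rw [hall.1] at hk
      exact hx ⟨k, hk⟩
    constructor
    · rw [hchr]
      unfold ReadProg.chr
      rw [if_neg hy, hall.2]
    · intro hc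
      exact absurd hc.1 hx

theorem B4_rel_next {μ : Nd w} {q : Fin w} (h : ∀ v ∈ P.lr (beg μ), x v = y v)
    (hr : P.rel x μ.t μ.q μ.g false (.next q)) : P.rel y μ.t μ.q μ.g false (.next q) := by
  obtain ⟨ht, hm⟩ := hr
  refine ⟨ht, ?_⟩
  cases hmv : P.move ⟨μ.t, ht⟩ μ.q μ.g with
  | push q a => rw [hmv] at hm; exact hm
  | pop q => rw [hmv] at hm; exact hm
  | read v f =>
    rw [hmv] at hm
    have hv : v ∈ P.lr (beg μ) := by
      unfold ReadProg.lr beg
      simp only [dif_pos ht, hmv, mem_singleton]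
    change ST.Move.next q = ST.Move.next (f (y v))
    rw [← h v hv]
    exact hm

theorem B4_rel_push {μ : Nd w} {q a : Fin w}
    (hr : P.rel x μ.t μ.q μ.g false (.push q a)) : P.rel y μ.t μ.q μ.g false (.push q a) := by
  obtain ⟨ht, hm⟩ := hr
  refine ⟨ht, ?_⟩
  cases hmv : P.move ⟨μ.t, ht⟩ μ.q μ.g with
  | push q a => rw [hmv] at hm; exact hm
  | pop q => rw [hmv] at hm; exact hm
  | read v f => rw [hmv] at hm; exact absurd hm (by simp)

theorem Un.dep (u : Un w) (h : ∀ v ∈ u.rd P x, x v = y v) :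
    u.rd P y = u.rd P x ∧ (u.Ok P x → u.Ok P y) := by
  cases u with
  | int ν =>
    have hall := P.run_congr_all x (y := y) (beg ν) h
    refine ⟨hall.2, ?_⟩
    rintro ⟨k, hk⟩
    exact ⟨k, by rw [hall.1]; exact hk⟩
  | nxt ν μ q =>
    have hc := B4_chr P (x := x) (y := y) ν μ fun v hv => h v (mem_union_left _ hv)
    refine ⟨?_, ?_⟩
    · change P.chr y ν μ ∪ P.lr (beg μ) = P.chr x ν μ ∪ P.lr (beg μ)
      rw [hc.1]
    · rintro ⟨h1, h2⟩
      exact ⟨hc.2 h1, B4_rel_next P (fun v hv => h v (mem_union_right _ hv)) h2⟩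
  | br ν μ q a =>
    have hc := B4_chr P (x := x) (y := y) ν μ h
    refine ⟨hc.1, ?_⟩
    rintro ⟨h1, h2⟩
    exact ⟨hc.2 h1, B4_rel_push P h2⟩

theorem B4_card_lr (c : LC w) : (P.lr c).card ≤ 1 := by
  unfold ReadProg.lr
  split
  · simp
  · split
    · split <;> simp
    · simp

/-- the number of variables read by a leaf -/
theorem B4_card_all {t e : ℕ} {q r : Fin w} {g : Option (Fin w)} {l : List (ℕ × ℕ)}
    (h : Pop (P.rel x) T z0 t q g e r l) : (P.all x ⟨t, q, [g]⟩).card ≤ e - t := by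
  obtain ⟨k, hk⟩ := P.pop_run x h
  have h1 : P.all x ⟨t, q, [g]⟩ = P.rds x ⟨t, q, [g]⟩ k := P.all_eq x (by rw [hk])
  have h2 := P.card_rds x ⟨t, q, [g]⟩ k
  rw [hk] at h2
  rw [h1]
  have h3 : (P.rds x ⟨t, q, [g]⟩ k).card + t ≤ e := h2
  omega

theorem dv_units_ok {ν : Nd w} {s : Sk w} (h : Dv (P.rel x) T ph z0 ν s) :
    (∀ u ∈ units ν s, u.Ok P x) ∧
      ((units ν s).map fun u => (u.rd P x).card).sum ≤ ν.e - ν.t := by
  induction h with
  | int t q g e r l h1 h2 =>
    refine ⟨?_, ?_⟩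
    · intro u hu
      rw [units, List.mem_singleton] at hu
      subst hu
      exact P.pop_run x h2
    · simp only [units, List.map_cons, List.map_nil, List.sum_cons, List.sum_nil, add_zero]
      exact B4_card_all P h2
  | nxt ν t q g q1 e r s h1 h2 h3 h4 h5 h6 h7 ih =>
    obtain ⟨l, hl⟩ := h7.sound
    have hb := hl.bounds
    have hp : Pop (P.rel x) T z0 t q g e r ((t, e) :: l) := Pop.next _ _ _ _ _ _ _ h3 h4 hl
    obtain ⟨hC, hb1, hb2, hcard⟩ := P.cs_ch x h2 ⟨_, hp⟩ (by simp only at hb ⊢; omega)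
    refine ⟨?_, ?_⟩
    · intro u hu
      rw [units, List.mem_cons] at hu
      rcases hu with rfl | hu
      · exact ⟨hC, h4⟩
      · exact ih.1 u hu
    · have ih2 := ih.2
      rw [units, List.map_cons, List.sum_cons]
      have h8 : (Un.rd P x (.nxt ν ⟨t, q, g, e, r⟩ q1)).card ≤ (t - ν.t) + (ν.e - e) + 1 := by
        refine (card_union_le _ _).trans ?_
        have := B4_card_lr P (beg ⟨t, q, g, e, r⟩)
        simp only at hcard
        omega
      simp only at ih2 hb hb1 hb2 ⊢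
      omega
  | br ν t q g q1 a t1 q2 e r s s' h1 h2 h3 h4 h5 h6 h7 h8 ih1 ih2 =>
    obtain ⟨l1, hl1⟩ := h7.sound
    obtain ⟨l2, hl2⟩ := h8.sound
    have hb1 := hl1.bounds
    have hb2 := hl2.bounds
    have hp : Pop (P.rel x) T z0 t q g e r ((t, e) :: (l1 ++ l2)) :=
      Pop.push _ _ _ _ _ _ _ _ _ _ _ h3 h4 hl1 hl2
    have hlt : t < e := by
      simp only at hb1 hb2
      rcases Nat.lt_or_ge t e with h | h
      · exact h
      · exfalso
        have : t1 = t := by omega
        rw [this] at h5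
        exact lt_irrefl _ h5
    obtain ⟨hC, hc1, hc2, hcard⟩ := P.cs_ch x h2 ⟨_, hp⟩ hlt
    refine ⟨?_, ?_⟩
    · intro u hu
      rw [units, List.mem_cons, List.mem_append] at hu
      rcases hu with rfl | hu | hu
      · exact ⟨hC, h4⟩
      · exact ih1.1 u hu
      · exact ih2.1 u hu
    · have ih1' := ih1.2
      have ih2' := ih2.2
      rw [units, List.map_cons, List.sum_cons, List.map_append, List.sum_append]
      have h9 : (Un.rd P x (.br ν ⟨t, q, g, e, r⟩ q1 a)).card ≤ (t - ν.t) + (ν.e - e) := hcard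
      simp only at ih1' ih2' hb1 hb2 hc1 hc2 ⊢
      omega

theorem B4_div {a b m : ℕ} (hm : 1 ≤ m) (h : a / m = b / m) : b ≤ a + (m - 1) := by
  have h1 := Nat.div_add_mod a m
  have h2 := Nat.div_add_mod b m
  have h3 := Nat.mod_lt a (show 0 < m by omega)
  have h4 := Nat.mod_lt b (show 0 < m by omega)
  rw [h] at h1
  omega

theorem dv_units_card {L : ℕ} (hL : 1 ≤ L) {ν : Nd w} {s : Sk w}
    (h : Dv (P.rel x) T (fun t => t / ((L + 1) / 2)) z0 ν s) :
    ∀ u ∈ units ν s, (u.rd P x).card ≤ L := by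
  have hm : 1 ≤ (L + 1) / 2 := by omega
  generalize hM : (L + 1) / 2 = M at h hm
  have hML : 2 * M ≤ L + 1 := by omega
  induction h with
  | int t q g e r l h1 h2 =>
    intro u hu
    rw [units, List.mem_singleton] at hu
    subst hu
    have h3 : (P.all x ⟨t, q, [g]⟩).card ≤ e - t := B4_card_all P h2
    have h4 := B4_div hm h1
    change (P.all x ⟨t, q, [g]⟩).card ≤ L
    omega
  | nxt ν t q g q1 e r s h1 h2 h3 h4 h5 h6 h7 ih =>
    obtain ⟨l, hl⟩ := h7.sound
    have hb := hl.bounds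
    have hp : Pop (P.rel x) T z0 t q g e r ((t, e) :: l) := Pop.next _ _ _ _ _ _ _ h3 h4 hl
    obtain ⟨hC, hb1, hb2, hcard⟩ := P.cs_ch x h2 ⟨_, hp⟩ (by simp only at hb ⊢; omega)
    intro u hu
    rw [units, List.mem_cons] at hu
    rcases hu with rfl | hu
    · have hinv := ST.T3_chain_inv h2
      have h8 := B4_div hm hinv.1.symm
      have h9 := B4_div hm hinv.2
      refine (card_union_le _ _).trans ?_
      have := B4_card_lr P (beg ⟨t, q, g, e, r⟩)
      simp only at hcard h8 h9 hb1 hb2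
      omega
    · exact ih u hu
  | br ν t q g q1 a t1 q2 e r s s' h1 h2 h3 h4 h5 h6 h7 h8 ih1 ih2 =>
    obtain ⟨l1, hl1⟩ := h7.sound
    obtain ⟨l2, hl2⟩ := h8.sound
    have hb1 := hl1.bounds
    have hb2 := hl2.bounds
    have hp : Pop (P.rel x) T z0 t q g e r ((t, e) :: (l1 ++ l2)) :=
      Pop.push _ _ _ _ _ _ _ _ _ _ _ h3 h4 hl1 hl2
    have hlt : t < e := by
      simp only at hb1 hb2
      rcases Nat.lt_or_ge t e with h | h
      · exact h
      · exfalso
        have : t1 = t := by omega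
        rw [this] at h5
        exact lt_irrefl _ h5
    obtain ⟨hC, hc1, hc2, hcard⟩ := P.cs_ch x h2 ⟨_, hp⟩ hlt
    intro u hu
    rw [units, List.mem_cons, List.mem_append] at hu
    rcases hu with rfl | hu | hu
    · have hinv := ST.T3_chain_inv h2
      have h9 := B4_div hm hinv.1.symm
      have h10 := B4_div hm hinv.2
      have h11 : (Un.rd P x (.br ν ⟨t, q, g, e, r⟩ q1 a)).card ≤ (t - ν.t) + (ν.e - e) := hcard
      simp only at h9 h10 h11 hc1 hc2
      omega
    · exact ih1 u hu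
    · exact ih2 u hu

theorem units_dv (hph : Monotone ph) {ν : Nd w} {s : Sk w} (h : Dv (P.rel x) T ph z0 ν s)
    (hy : ∀ u ∈ units ν s, u.Ok P y) : Dv (P.rel y) T ph z0 ν s := by
  induction h with
  | int t q g e r l h1 h2 =>
    have hb := h2.bounds
    obtain ⟨k, hk⟩ := hy (.int ⟨t, q, g, e, r⟩) (by simp [units])
    obtain ⟨l', hl'⟩ := P.run_pop y (hb.1.trans hb.2) hk
    exact Dv.int _ _ _ _ _ l' h1 hl'
  | nxt ν t q g q1 e r s h1 h2 h3 h4 h5 h6 h7 ih =>
    obtain ⟨l, hl⟩ := h7.sound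
    have hb := hl.bounds
    have hinv := ST.T3_chain_inv h2
    obtain ⟨hC, hR⟩ := hy (.nxt ν ⟨t, q, g, e, r⟩ q1) (by simp [units])
    have hch := P.ch_cs y hph hC hinv.1 hinv.2 hb.2
    exact Dv.nxt ν t q g q1 e r s h1 hch h3 hR h5 h6
      (ih fun u hu => hy u (by rw [units, List.mem_cons]; exact Or.inr hu))
  | br ν t q g q1 a t1 q2 e r s s' h1 h2 h3 h4 h5 h6 h7 h8 ih1 ih2 =>
    obtain ⟨l1, hl1⟩ := h7.sound
    obtain ⟨l2, hl2⟩ := h8.sound
    have hb2 := hl2.bounds
    have hinv := ST.T3_chain_inv h2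
    obtain ⟨hC, hR⟩ := hy (.br ν ⟨t, q, g, e, r⟩ q1 a) (by simp [units])
    have hch := P.ch_cs y hph hC hinv.1 hinv.2 hb2.2
    exact Dv.br ν t q g q1 a t1 q2 e r s s' h1 hch h3 hR h5 h6
      (ih1 fun u hu => hy u (by rw [units, List.mem_cons, List.mem_append]; exact Or.inr (Or.inl hu)))
      (ih2 fun u hu => hy u (by rw [units, List.mem_cons, List.mem_append]; exact Or.inr (Or.inr hu)))

end

end Pool.Agent.SR
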