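import Pool.Agent.Lib.MP_b573ec_lc_SR.Sys
import Pool.Agent.Lib.MP_b573ec_lc_SR.Units
import Pool.Agent.Lib.MP_b573ec_lc_SR.PopRun
import Pool.Agent.Lib.MP_b573ec_lc_SR.UnitsOk
import Pool.Agent.Lib.MP_b573ec_lc_ST.Deriv
import Pool.Agent.Lib.MP_b573ec_lc_ST.Skel
import Pool.Agent.Lib.MP_b573ec_lc_ST.SkelDet
import Pool.Agent.Lib.MP_b573ec_lc_ST.Codes

/-!
# The system of a total read program (auxiliary)
-/

namespace Pool.Agent.SR

open Finset
open Pool.Agent.LT (Inp)
open Pool.Agent.ST (Conf Rel Pop Nd Cs Sk Dv)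

/-! ## module B6: SysOf -/

theorem B6_sum {α : Type*} (f : α → ℕ) (M : ℕ) : ∀ us : List α, us.length ≤ M →
    ∑ l : Fin M, (us[(l : ℕ)]?).elim 0 f = (us.map f).sum := by
  induction M with
  | zero =>
    intro us h
    have : us = [] := List.length_eq_zero_iff.mp (by omega)
    subst this
    simp
  | succ M ih =>
    intro us h
    rw [Fin.sum_univ_succ]
    cases us with
    | nil => simp
    | cons a us =>
      have h1 := ih us (by simpa using h)
      simp only [Fin.val_zero, List.getElem?_cons_zero, Option.elim_some, Fin.val_succ,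
        List.getElem?_cons_succ, List.map_cons, List.sum_cons]
      rw [h1]

section
variable {n T w : ℕ} (L : ℕ) (P : ReadProg n T w)

/-- the root -/
def B6_root (r : Fin w) : Nd w := ⟨0, P.start, none, T, r⟩

/-- the pair `p` (final state, skeleton) belongs to the input `x` -/
def B6_D (x : Inp n) (p : Fin w × Sk w) : Prop :=
  Dv (P.rel x) T (fun t => t / ((L + 1) / 2)) z0 (B6_root P p.1) p.2

theorem B6_mono : Monotone fun t => t / ((L + 1) / 2) := fun _ _ h => Nat.div_le_div_right h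

theorem B6_exists {x : Inp n} {r : Fin w} {l : List (ℕ × ℕ)}
    (h : Pop (P.rel x) T z0 0 P.start none T r l) : ∃ s, B6_D L P x (r, s) := by
  obtain ⟨s, hs, -⟩ := h.exists_dv (B6_mono L) (fun _ => ST.Lab.c)
    (fun _ _ => ⟨by simp, by simp⟩)
  exact ⟨s, hs⟩

theorem B6_unique {x : Inp n} {p p' : Fin w × Sk w} (h : B6_D L P x p) (h' : B6_D L P x p') :
    p = p' := by
  obtain ⟨l, hl⟩ := h.sound
  obtain ⟨l', hl'⟩ := h'.sound
  obtain ⟨-, h1, -⟩ := hl.det (P.rel_det x) hl'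
  obtain ⟨r, s⟩ := p
  obtain ⟨r', s'⟩ := p'
  have h2 : r = r' := h1
  subst h2
  have h3 : s = s' := ST.Dv.det (P.rel_det x) (B6_mono L) h h'
  rw [h3]

theorem B6_size {x : Inp n} {p : Fin w × Sk w} (h : B6_D L P x p) :
    p.2.size ≤ 3 * (T / ((L + 1) / 2)) + 1 := by
  have h1 := ST.Dv.size (B6_mono L) h
  have h2 : (0 : ℕ) / ((L + 1) / 2) = 0 := Nat.zero_div _
  change p.2.size ≤ 3 * (T / ((L + 1) / 2) - 0 / ((L + 1) / 2)) + 1 at h1
  rw [h2, Nat.sub_zero] at h1
  exact h1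

/-- the type of skeletons -/
def B6_Sk : Type := {p : Fin w × Sk w // ∃ x, B6_D L P x p}

theorem B6_codes : ∃ c : B6_Sk L P → Fin w × Fin (((T + 1) * (w + 1)) ^
    (8 * (3 * (T / ((L + 1) / 2)) + 1))), Function.Injective c := by
  obtain ⟨code, h1, h2⟩ := ST.sk_codes w T (3 * (T / ((L + 1) / 2)) + 1)
  have h3 : ∀ p : B6_Sk L P, p.1.2.size ≤ 3 * (T / ((L + 1) / 2)) + 1 ∧ p.1.2.Bdd T := by
    rintro ⟨p, x, hx⟩
    exact ⟨B6_size L P hx, hx.bdd⟩
  refine ⟨fun p => (p.1.1, ⟨code p.1.2, h2 _ (h3 p).1 (h3 p).2⟩), ?_⟩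
  intro p p' h
  simp only [Prod.mk.injEq, Fin.mk.injEq] at h
  apply Subtype.ext
  exact Prod.ext h.1 (h1 _ _ (h3 p).1 (h3 p).2 (h3 p').1 (h3 p').2 h.2)

theorem B6_fin : Finite (B6_Sk L P) := by
  obtain ⟨c, hc⟩ := B6_codes L P
  exact Finite.of_injective c hc

/-- the units of a pair -/
def B6_us (p : B6_Sk L P) : List (Un w) := units (B6_root P p.1.1) p.1.2

theorem B6_us_length (p : B6_Sk L P) :
    (B6_us L P p).length ≤ 3 * (T / ((L + 1) / 2)) + 1 := by
  obtain ⟨p, x, hx⟩ := p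
  change (units (B6_root P p.1) p.2).length ≤ _
  rw [units_length]
  exact B6_size L P hx

/-- the system of a total program -/
noncomputable def B6_sys (τ : Inp n → Fin w × Sk w) (hτ : ∀ x, B6_D L P x (τ x)) :
    Sys n (3 * (T / ((L + 1) / 2)) + 1) (B6_Sk L P) where
  rd p l x := ((B6_us L P p)[(l : ℕ)]?).elim ∅ fun u => u.rd P x
  ok p l x := ∀ u, (B6_us L P p)[(l : ℕ)]? = some u → u.Ok P x
  tau x := ⟨τ x, x, hτ x⟩
  dep_rd p l x y h := by
    cases hu : (B6_us L P p)[(l : ℕ)]? with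
    | none => rfl
    | some u =>
      rw [hu] at h
      exact (Un.dep P u h).1
  dep_ok p l x y h hok u hu := by
    rw [hu] at h
    exact (Un.dep P u h).2 (hok u hu)
  tau_ok x l u hu := (dv_units_ok P (hτ x)).1 u (List.mem_of_getElem? hu)
  ok_tau p x h := by
    apply Subtype.ext
    obtain ⟨p, x0, h0⟩ := p
    refine B6_unique L P (hτ x) (units_dv P (B6_mono L) h0 fun u hu => ?_)
    obtain ⟨i, hi, hiu⟩ := List.mem_iff_getElem.mp hu
    have h1 := B6_us_length L P ⟨p, x0, h0⟩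
    exact h ⟨i, lt_of_lt_of_le hi h1⟩ u (by
      show (units (B6_root P p.1) p.2)[i]? = some u
      rw [List.getElem?_eq_getElem hi, hiu])

end

theorem sysFn_of_total {n T w L : ℕ} (hL : 1 ≤ L) (P : ReadProg n T w) (hP : P.Total) :
    SysFn n (3 * (T / ((L + 1) / 2)) + 1) L T
      (w * ((T + 1) * (w + 1)) ^ (8 * (3 * (T / ((L + 1) / 2)) + 1)))
      (fun x => open Classical in decide (P.Outputs x true)) := by
  classical
  have h1 : ∀ x, ∃ p, B6_D L P x p := by
    intro x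
    obtain ⟨b, hb⟩ := hP x
    obtain ⟨r, l, hp, -⟩ := (P.outputs_iff x b).mp hb
    obtain ⟨s, hs⟩ := B6_exists L P hp
    exact ⟨_, hs⟩
  choose τ hτ using h1
  have := B6_fin L P
  refine ⟨B6_Sk L P, Fintype.ofFinite _, B6_sys L P τ hτ, ?_, ?_, ?_, ?_⟩
  · obtain ⟨c, hc⟩ := B6_codes L P
    let _ : Fintype (B6_Sk L P) := Fintype.ofFinite _
    have h2 := Fintype.card_le_of_injective c hc
    rwa [Fintype.card_prod, Fintype.card_fin, Fintype.card_fin] at h2
  · intro x l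
    change (((B6_us L P ⟨τ x, x, hτ x⟩)[(l : ℕ)]?).elim ∅ fun u => u.rd P x).card ≤ L
    cases hu : (B6_us L P ⟨τ x, x, hτ x⟩)[(l : ℕ)]? with
    | none => simp
    | some u => exact dv_units_card P hL (hτ x) u (List.mem_of_getElem? hu)
  · intro x
    have h2 := (dv_units_ok P (hτ x)).2
    have h3 := B6_sum (fun u : Un w => (u.rd P x).card) _ _ (B6_us_length L P ⟨τ x, x, hτ x⟩)
    refine le_trans (le_of_eq ?_) (le_trans (le_of_eq h3) h2)
    refine Finset.sum_congr rfl fun l _ => ?_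
    change (((B6_us L P ⟨τ x, x, hτ x⟩)[(l : ℕ)]?).elim ∅ fun u => u.rd P x).card = _
    cases hu : (B6_us L P ⟨τ x, x, hτ x⟩)[(l : ℕ)]? with
    | none => simp
    | some u => rfl
  · have h2 : ∀ x, P.Outputs x true ↔ P.acc (τ x).1 = true := by
      intro x
      obtain ⟨l, hl⟩ := (hτ x).sound
      rw [P.outputs_iff]
      constructor
      · rintro ⟨r, l', hp, hr⟩
        obtain ⟨-, h3, -⟩ := hl.det (P.rel_det x) hp
        have h4 : (τ x).1 = r := h3
        rw [h4]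
        exact hr
      · intro hr
        exact ⟨_, l, hl, hr⟩
    intro x y hxy
    have h3 : τ x = τ y := congrArg Subtype.val hxy
    have h4 : P.Outputs x true ↔ P.Outputs y true := by rw [h2, h2, h3]
    simp only [h4]

end Pool.Agent.SR
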