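import Pool.Agent.Lib.MP_b573ec_lc_SR.Units

/-!
# Programs without infinite loops

Every read program can be changed into a read program with one more state which makes all its
readings on every input and has the same accepted inputs.
-/

namespace Pool.Agent.SR

open Pool.Agent.LT (Inp)
open Pool.Agent.ST (Conf)

namespace Total

variable {n T w : ℕ}

/-- the local run which starts at a surface with the number of readings `t`, the state `q` and the
top symbol `g` never reads and never removes the top symbol -/
def Loop (P : ReadProg n T w) (t : ℕ) (q : Fin w) (g : Option (Fin w)) : Prop :=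
  ∀ k, (P.run (fun _ => false) ⟨t, q, [g]⟩ k).t = t ∧
    (P.run (fun _ => false) ⟨t, q, [g]⟩ k).st ≠ []

/-- the configuration `c` and the local configuration `l` agree, above the symbols `σ` -/
def Agree (g : Option (Fin w)) (σ : List (Fin w)) (c : Conf w) (l : LC w) : Prop :=
  c.pos = l.t ∧ c.state = l.q ∧ ∃ u : List (Fin w), l.st = u.map some ++ [g] ∧
    c.stack = u ++ (g.toList ++ σ)

theorem agree_init (t : ℕ) (q : Fin w) (st : List (Fin w)) :
    Agree st.head? st.tail ⟨t, q, st⟩ ⟨t, q, [st.head?]⟩ := by
  refine ⟨rfl, rfl, [], rfl, ?_⟩
  cases st with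
  | nil => rfl
  | cons a s => rfl

theorem agree_step (P : ReadProg n T w) (x y : Inp n) {g : Option (Fin w)} {σ : List (Fin w)}
    (hg : g = none → σ = []) {c : Conf w} {l : LC w} (h : Agree g σ c l) (hT : c.pos < T) :
    ((P.step x c).pos = c.pos + 1 ∧ (P.ls y l).t = l.t + 1) ∨
    ((P.step x c).pos = c.pos ∧ (P.ls y l).t = l.t ∧ (P.step x c).stack = σ ∧
      (∃ a, g = some a) ∧ (P.ls y l).st = []) ∨
    ((P.step x c).pos = c.pos ∧ (P.ls y l).t = l.t ∧ Agree g σ (P.step x c) (P.ls y l)) := by
  obtain ⟨h1, h2, u, h3, h4⟩ := h
  obtain ⟨p, q, st⟩ := c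
  obtain ⟨t, q', s⟩ := l
  simp only at h1 h2 h3 h4 hT
  subst h1 h2
  cases u with
  | nil =>
    have hs : s = [g] := by simpa using h3
    subst hs
    have hh : st.head? = g := by
      rw [h4]
      cases g with
      | none => simp [hg rfl]
      | some a => rfl
    unfold ReadProg.step ReadProg.ls
    simp only [dif_pos hT, hh]
    cases hm : P.move ⟨p, hT⟩ q g with
    | push q1 a =>
      simp only
      exact Or.inr (Or.inr ⟨trivial, trivial, rfl, rfl, [a], rfl, by simp [h4]⟩)
    | pop q1 =>
      simp only
      cases g with
      | none =>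
        right; right
        refine ⟨trivial, trivial, rfl, rfl, [], by simp, ?_⟩
        have := hg rfl
        subst this
        have : st = [] := by simpa using h4
        rw [this]
        rfl
      | some a =>
        right; left
        have h5 : st = a :: σ := by simpa using h4
        refine ⟨trivial, trivial, ?_, ⟨a, rfl⟩, ?_⟩
        · rw [h5]; rfl
        · simp
    | read v f =>
      simp only
      exact Or.inl ⟨trivial, trivial⟩
  | cons b u =>
    have hs : s = some b :: (u.map some ++ [g]) := by simpa using h3
    subst hs
    have hh : st.head? = some b := by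
      rw [h4]
      rfl
    unfold ReadProg.step ReadProg.ls
    simp only [dif_pos hT, hh]
    cases hm : P.move ⟨p, hT⟩ q (some b) with
    | push q1 a =>
      simp only
      exact Or.inr (Or.inr ⟨trivial, trivial, rfl, rfl, a :: b :: u, rfl, by simp [h4]⟩)
    | pop q1 =>
      simp only
      right; right
      refine ⟨trivial, trivial, rfl, rfl, u, by simp, ?_⟩
      rw [h4]
      rfl
    | read v f =>
      simp only
      exact Or.inl ⟨trivial, trivial⟩

/-! ### positions -/

theorem step_pos (P : ReadProg n T w) (x : Inp n) (c : Conf w) :
    c.pos ≤ (P.step x c).pos := by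
  unfold ReadProg.step
  split_ifs with h
  · split <;> simp
  · exact le_rfl

theorem step_le (P : ReadProg n T w) (x : Inp n) (c : Conf w) (h : c.pos ≤ T) :
    (P.step x c).pos ≤ T := by
  unfold ReadProg.step
  split_ifs with h1
  · split
    · exact h
    · exact h
    · exact h1
  · exact h

theorem step_stop (P : ReadProg n T w) (x : Inp n) (c : Conf w) (h : ¬ c.pos < T) :
    P.step x c = c := by
  unfold ReadProg.step
  rw [dif_neg h]

theorem conf_succ (P : ReadProg n T w) (x : Inp n) (k : ℕ) :
    P.conf x (k + 1) = P.step x (P.conf x k) := by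
  unfold ReadProg.conf
  exact Function.iterate_succ_apply' _ _ _

theorem conf_mono (P : ReadProg n T w) (x : Inp n) {j k : ℕ} (h : j ≤ k) :
    (P.conf x j).pos ≤ (P.conf x k).pos := by
  induction h with
  | refl => exact le_rfl
  | step _ ih =>
    rw [Nat.succ_eq_add_one, conf_succ]
    exact ih.trans (step_pos P x _)

theorem conf_le (P : ReadProg n T w) (x : Inp n) (k : ℕ) : (P.conf x k).pos ≤ T := by
  induction k with
  | zero => exact Nat.zero_le _
  | succ k ih =>
    rw [conf_succ]
    exact step_le P x _ ih

/-! ### the loops -/

/-- from a loop surface on nothing is read -/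
theorem loop_pos (P : ReadProg n T w) (x : Inp n) (j : ℕ) (hT : (P.conf x j).pos < T)
    (h : Loop P (P.conf x j).pos (P.conf x j).state (P.conf x j).stack.head?) (i : ℕ) :
    (P.conf x (j + i)).pos = (P.conf x j).pos ∧
      Agree (P.conf x j).stack.head? (P.conf x j).stack.tail (P.conf x (j + i))
        (P.run (fun _ => false)
          ⟨(P.conf x j).pos, (P.conf x j).state, [(P.conf x j).stack.head?]⟩ i) := by
  induction i with
  | zero => exact ⟨rfl, agree_init _ _ _⟩
  | succ i ih =>
    obtain ⟨h1, h2⟩ := ih
    have hg : (P.conf x j).stack.head? = none → (P.conf x j).stack.tail = [] := by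
      intro h0
      rw [List.head?_eq_none_iff] at h0
      rw [h0]
      rfl
    have h3 := agree_step P x (fun _ => false) hg h2 (by rw [h1]; exact hT)
    rw [← conf_succ, add_assoc] at h3
    have h4 : ∀ l : LC w, P.run (fun _ => false) l (i + 1) =
        P.ls (fun _ => false) (P.run (fun _ => false) l i) := by
      intro l
      unfold ReadProg.run
      exact Function.iterate_succ_apply' _ _ _
    rw [← h4] at h3
    have h5 := h (i + 1)
    have h6 := h i
    rcases h3 with h3 | h3 | h3
    · have := h3.2
      rw [h5.1, h6.1] at this
      omega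
    · exact absurd h3.2.2.2.2 h5.2
    · exact ⟨h3.1.trans h1, h3.2.2⟩

/-- a run which stops reading before time `T` visits a loop surface -/
theorem exists_loop (P : ReadProg n T w) (x : Inp n) (h : ∀ k, (P.conf x k).pos < T) :
    ∃ j, Loop P (P.conf x j).pos (P.conf x j).state (P.conf x j).stack.head? := by
  classical
  -- the last position
  obtain ⟨t, ht⟩ : ∃ t, (∃ k, (P.conf x k).pos = t) ∧ ∀ k, (P.conf x k).pos ≤ t := by
    have hfin : (Set.range fun k => (P.conf x k).pos).Finite :=
      (Set.finite_le_nat T).subset (by rintro _ ⟨k, rfl⟩; exact conf_le P x k)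
    obtain ⟨t, ⟨k, hk⟩, hmax⟩ := Set.exists_max_image _ id hfin ⟨_, 0, rfl⟩
    exact ⟨t, ⟨k, hk⟩, fun k => hmax _ ⟨k, rfl⟩⟩
  obtain ⟨⟨k1, hk1⟩, hmax⟩ := ht
  have hconst : ∀ k, k1 ≤ k → (P.conf x k).pos = t := fun k hk =>
    le_antisymm (hmax k) (hk1 ▸ conf_mono P x hk)
  -- the least height after k1
  have hex : ∃ m, ∃ k, k1 ≤ k ∧ (P.conf x k).stack.length = m := ⟨_, k1, le_rfl, rfl⟩
  obtain ⟨j, hj, hjm⟩ := Nat.find_spec hex
  have hmin : ∀ k, k1 ≤ k → (P.conf x j).stack.length ≤ (P.conf x k).stack.length := by
    intro k hk
    rw [hjm]
    exact Nat.find_min' hex ⟨k, hk, rfl⟩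
  refine ⟨j, ?_⟩
  have key : ∀ i, Agree (P.conf x j).stack.head? (P.conf x j).stack.tail (P.conf x (j + i))
        (P.run (fun _ => false)
          ⟨(P.conf x j).pos, (P.conf x j).state, [(P.conf x j).stack.head?]⟩ i) := by
    intro i
    induction i with
    | zero => exact agree_init _ _ _
    | succ i ih =>
      have hg : (P.conf x j).stack.head? = none → (P.conf x j).stack.tail = [] := by
        intro h0
        rw [List.head?_eq_none_iff] at h0
        rw [h0]
        rfl
      have h3 := agree_step P x (fun _ => false) hg ih (h _)
      rw [← conf_succ, add_assoc] at h3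
      have h4 : ∀ l : LC w, P.run (fun _ => false) l (i + 1) =
          P.ls (fun _ => false) (P.run (fun _ => false) l i) := by
        intro l
        unfold ReadProg.run
        exact Function.iterate_succ_apply' _ _ _
      rw [← h4] at h3
      rcases h3 with h3 | h3 | h3
      · have := h3.1
        rw [hconst _ (by omega), hconst _ (by omega)] at this
        omega
      · have h5 := hmin (j + (i + 1)) (by omega)
        rw [h3.2.2.1] at h5
        obtain ⟨a, ha⟩ := h3.2.2.2.1
        have h8 : (P.conf x j).stack.tail.length = (P.conf x j).stack.length - 1 := by simp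
        have h9 : (P.conf x j).stack.length ≠ 0 := by
          intro h0
          rw [List.length_eq_zero_iff] at h0
          rw [h0] at ha
          simp at ha
        omega
      · exact h3.2.2
  intro i
  obtain ⟨h1, h2, u, h3, h4⟩ := key i
  refine ⟨?_, ?_⟩
  · rw [← h1, hconst _ (by omega), hconst _ hj]
  · rw [h3]
    simp

/-! ### the new program -/

/-- decoding of states and symbols -/
def dec (q : Fin (w + 1)) : Option (Fin w) := if h : q.val < w then some ⟨q.val, h⟩ else none

theorem dec_cast (q : Fin w) : dec q.castSucc = some q := by
  unfold dec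
  rw [dif_pos (by simp)]
  rfl

theorem dec_last : dec (Fin.last w) = none := by
  unfold dec
  rw [dif_neg (by simp)]

/-- decoding of top symbols -/
def decG : Option (Fin (w + 1)) → Option (Option (Fin w))
  | none => some none
  | some a => (dec a).map some

theorem decG_cast (g : Option (Fin w)) : decG (g.map Fin.castSucc) = some g := by
  cases g with
  | none => rfl
  | some a => simp [decG, dec_cast]

/-- embedding of moves -/
def emb : Move n w → Move n (w + 1)
  | .push q a => .push q.castSucc a.castSucc
  | .pop q => .pop q.castSucc
  | .read v f => .read v fun b => (f b).castSucc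

/-- embedding of configurations -/
def E (c : Conf w) : Conf (w + 1) := ⟨c.pos, c.state.castSucc, c.stack.map Fin.castSucc⟩

open Classical in
/-- the new program -/
noncomputable def tot (hn : 0 < n) (P : ReadProg n T w) : ReadProg n T (w + 1) where
  start := P.start.castSucc
  move t q' g' :=
    match dec q', decG g' with
    | some q, some g => if Loop P t q g then .read ⟨0, hn⟩ fun _ => Fin.last w
        else emb (P.move t q g)
    | _, _ => .read ⟨0, hn⟩ fun _ => Fin.last w
  acc q' := match dec q' with
    | some q => P.acc q
    | none => false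

variable (hn : 0 < n) (P : ReadProg n T w) (x : Inp n)

theorem head_map (st : List (Fin w)) :
    (st.map Fin.castSucc).head? = st.head?.map Fin.castSucc := by
  cases st <;> rfl

open Classical in
theorem step_emb (c : Conf w) (h : ¬ Loop P c.pos c.state c.stack.head?) :
    (tot hn P).step x (E c) = E (P.step x c) := by
  by_cases hT : c.pos < T
  · have hm : (tot hn P).move ⟨c.pos, hT⟩ c.state.castSucc (c.stack.map Fin.castSucc).head? =
        emb (P.move ⟨c.pos, hT⟩ c.state c.stack.head?) := by
      change (match dec c.state.castSucc, decG (c.stack.map Fin.castSucc).head? with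
        | some q, some g => if Loop P c.pos q g then Move.read ⟨0, hn⟩ fun _ => Fin.last w
            else emb (P.move ⟨c.pos, hT⟩ q g)
        | _, _ => Move.read ⟨0, hn⟩ fun _ => Fin.last w) = _
      rw [head_map, decG_cast, dec_cast]
      exact if_neg h
    unfold ReadProg.step E
    simp only [dif_pos hT]
    rw [hm]
    cases P.move ⟨c.pos, hT⟩ c.state c.stack.head? with
    | push q a => simp [emb]
    | pop q => simp [emb]
    | read v f => simp [emb]
  · rw [step_stop P x c hT]
    exact step_stop _ x (E c) hT

open Classical in
theorem step_loop (c : Conf w) (hT : c.pos < T) (h : Loop P c.pos c.state c.stack.head?) :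
    ((tot hn P).step x (E c)).state = Fin.last w := by
  have hm : (tot hn P).move ⟨c.pos, hT⟩ c.state.castSucc (c.stack.map Fin.castSucc).head? =
      Move.read ⟨0, hn⟩ fun _ => Fin.last w := by
    change (match dec c.state.castSucc, decG (c.stack.map Fin.castSucc).head? with
      | some q, some g => if Loop P c.pos q g then Move.read ⟨0, hn⟩ fun _ => Fin.last w
          else emb (P.move ⟨c.pos, hT⟩ q g)
      | _, _ => Move.read ⟨0, hn⟩ fun _ => Fin.last w) = _
    rw [head_map, decG_cast, dec_cast]
    exact if_pos h
  unfold ReadProg.step E
  simp only [dif_pos hT]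
  rw [hm]

open Classical in
theorem step_dead (c : Conf (w + 1)) (hc : c.state = Fin.last w) :
    ((tot hn P).step x c).state = Fin.last w ∧
      (c.pos < T → ((tot hn P).step x c).pos = c.pos + 1) := by
  by_cases hT : c.pos < T
  · have hm : (tot hn P).move ⟨c.pos, hT⟩ c.state c.stack.head? =
        Move.read ⟨0, hn⟩ fun _ => Fin.last w := by
      change (match dec c.state, decG c.stack.head? with
        | some q, some g => if Loop P c.pos q g then Move.read ⟨0, hn⟩ fun _ => Fin.last w
            else emb (P.move ⟨c.pos, hT⟩ q g)
        | _, _ => Move.read ⟨0, hn⟩ fun _ => Fin.last w) = _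
      rw [hc, dec_last]
    unfold ReadProg.step
    simp only [dif_pos hT]
    rw [hm]
    exact ⟨rfl, fun _ => rfl⟩
  · rw [step_stop _ x c hT]
    exact ⟨hc, fun h => absurd h hT⟩

/-- the new program follows the old one or it is dead -/
theorem follow (k : ℕ) : (tot hn P).conf x k = E (P.conf x k) ∨
    (((tot hn P).conf x k).state = Fin.last w ∧ ∃ j < k, (P.conf x j).pos < T ∧
      Loop P (P.conf x j).pos (P.conf x j).state (P.conf x j).stack.head?) := by
  induction k with
  | zero => exact Or.inl rfl
  | succ k ih =>
    rw [conf_succ, conf_succ]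
    rcases ih with ih | ⟨ih, j, hj, hj2⟩
    · rw [ih]
      by_cases hl : Loop P (P.conf x k).pos (P.conf x k).state (P.conf x k).stack.head?
      · by_cases hT : (P.conf x k).pos < T
        · exact Or.inr ⟨step_loop hn P x _ hT hl, k, Nat.lt_succ_self k, hT, hl⟩
        · left
          rw [step_stop P x _ hT]
          exact step_stop _ x _ hT
      · exact Or.inl (step_emb hn P x _ hl)
    · exact Or.inr ⟨(step_dead hn P x _ ih).1, j, Nat.lt_succ_of_lt hj, hj2⟩

end Total

open Total in
theorem exists_total {n T w : ℕ} (hn : 1 ≤ n) (P : ReadProg n T w) :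
    ∃ P' : ReadProg n T (w + 1), P'.Total ∧ ∀ x, P'.Outputs x true ↔ P.Outputs x true := by
  refine ⟨tot hn P, ?_, ?_⟩
  · intro x
    suffices h : ∃ k, ((tot hn P).conf x k).pos = T by
      obtain ⟨k, hk⟩ := h
      exact ⟨_, k, hk, rfl⟩
    by_contra hcon
    push Not at hcon
    have hlt : ∀ k, ((tot hn P).conf x k).pos < T := fun k =>
      lt_of_le_of_ne (conf_le _ x k) (hcon k)
    by_cases hd : ∃ k, ((tot hn P).conf x k).state = Fin.last w
    · obtain ⟨k, hk⟩ := hd
      have key : ∀ i, ((tot hn P).conf x (k + i)).state = Fin.last w ∧
          ((tot hn P).conf x (k + i)).pos = ((tot hn P).conf x k).pos + i := by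
        intro i
        induction i with
        | zero => exact ⟨hk, rfl⟩
        | succ i ih =>
          rw [← add_assoc, conf_succ]
          have h := step_dead hn P x _ ih.1
          refine ⟨h.1, ?_⟩
          rw [h.2 (hlt _), ih.2]
          ring
      have h1 := (key T).2
      have h2 := hlt (k + T)
      omega
    · push Not at hd
      have hE : ∀ k, (tot hn P).conf x k = E (P.conf x k) := fun k =>
        (follow hn P x k).resolve_right fun h => hd k h.1
      have hp : ∀ k, (P.conf x k).pos < T := by
        intro k
        have := hlt k
        rw [hE k] at this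
        exact this
      obtain ⟨j, hj⟩ := exists_loop P x hp
      apply hd (j + 1)
      rw [conf_succ, hE j]
      exact step_loop hn P x _ (hp j) hj
  · intro x
    constructor
    · rintro ⟨k, hk, ha⟩
      rcases follow hn P x k with h | h
      · rw [h] at hk ha
        refine ⟨k, hk, ?_⟩
        have h2 : (tot hn P).acc (P.conf x k).state.castSucc = true := ha
        have h3 : (tot hn P).acc (P.conf x k).state.castSucc = P.acc (P.conf x k).state := by
          change (match dec (P.conf x k).state.castSucc with
            | some q => P.acc q
            | none => false) = _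
          rw [dec_cast]
        rw [← h3]
        exact h2
      · exfalso
        have h2 : (tot hn P).acc (Fin.last w) = true := by
          rw [← h.1]
          exact ha
        have h3 : (tot hn P).acc (Fin.last w) = false := by
          change (match dec (Fin.last w) with
            | some q => P.acc q
            | none => false) = _
          rw [dec_last]
        rw [h3] at h2
        exact Bool.false_ne_true h2
    · rintro ⟨k, hk, ha⟩
      rcases follow hn P x k with h | ⟨_, j, hj, hT, hl⟩
      · refine ⟨k, ?_, ?_⟩
        · rw [h]
          exact hk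
        · rw [h]
          change (match dec (P.conf x k).state.castSucc with
            | some q => P.acc q
            | none => false) = _
          rw [dec_cast]
          exact ha
      · exfalso
        have h1 := (loop_pos P x j hT hl (k - j)).1
        rw [Nat.add_sub_cancel' hj.le] at h1
        omega

end Pool.Agent.SR
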