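import Pool.Agent.Lib.MP_b573ec_lc_SR.Sys
import Pool.Agent.Lib.MP_b573ec_lc_SR.Total
import Pool.Agent.Lib.MP_b573ec_lc_SR.SysOf
import Pool.Agent.Lib.MP_b573ec_lc_SR.Part1
import Pool.Agent.Lib.MP_b573ec_lc_SR.Part2
import Pool.Agent.Lib.MP_b573ec_lc_SR.Majority
import Pool.Agent.Lib.MP_b573ec_lc_SR.Ops
import Pool.Agent.Lib.MP_b573ec_lc_LT.V2.LangFinal

/-!
# Read programs: the two separations
-/

namespace Pool.Agent.SR

open Finset
open Pool.Agent.LT (Inp abad2 hash GoodHash2 Cub nsub typ2 RR2 subst)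
open Pool.Agent.ST (Conf Rel Pop Nd Cs Sk Dv)


open Polynomial
open Pool.Agent.LT (cubeFn factorFn langRP langNP ones dropFirst OneSidedOnePass NondetOnePass)

/-- number of units -/
def nU (T L : ℕ) : ℕ := 3 * (T / ((L + 1) / 2)) + 1

/-- number of skeletons -/
def nK (T w L : ℕ) : ℕ := (w + 1) * ((T + 1) * (w + 2)) ^ (8 * nU T L)

/-- functions which behave like those of read programs with `T` readings and width `w` -/
def RFn (n T w : ℕ) (g : Inp n → Bool) : Prop := ∀ L, 1 ≤ L → SysFn n (nU T L) L T (nK T w L) g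

open Classical in
theorem rfn_of {n T w : ℕ} (hn : 1 ≤ n) (P : ReadProg n T w) :
    RFn n T w (fun x => decide (P.Outputs x true)) := by
  intro L hL
  obtain ⟨P', h1, h2⟩ := exists_total hn P
  have h3 := sysFn_of_total hL P' h1
  have h4 : (fun x => decide (P.Outputs x true)) = fun x => decide (P'.Outputs x true) := by
    funext x
    exact decide_eq_decide.mpr (h2 x).symm
  rw [h4]
  exact h3

theorem F_conf_succ {n T w : ℕ} (P : ReadProg n T w) (x : Inp n) (k : ℕ) :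
    P.conf x (k + 1) = P.step x (P.conf x k) := by
  simp only [ReadProg.conf, Function.iterate_succ_apply']

theorem F_conf_add {n T w : ℕ} (P : ReadProg n T w) (x : Inp n) {k : ℕ}
    (h : (P.conf x k).pos = T) (m : ℕ) : P.conf x (k + m) = P.conf x k := by
  induction m with
  | zero => rfl
  | succ m ih =>
    rw [← Nat.add_assoc, F_conf_succ, ih, ReadProg.step, dif_neg (by rw [h]; exact lt_irrefl _)]

theorem outputs_unique {n T w : ℕ} (P : ReadProg n T w) (x : Inp n) {b b' : Bool}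
    (h : P.Outputs x b) (h' : P.Outputs x b') : b = b' := by
  obtain ⟨k, hk, rfl⟩ := h
  obtain ⟨k', hk', rfl⟩ := h'
  rcases le_total k k' with hle | hle
  · obtain ⟨m, rfl⟩ := Nat.exists_eq_add_of_le hle
    rw [F_conf_add P x hk]
  · obtain ⟨m, rfl⟩ := Nat.exists_eq_add_of_le hle
    rw [F_conf_add P x hk']

/-- the opposite program -/
def ReadProg.opp {n T w : ℕ} (P : ReadProg n T w) : ReadProg n T w where
  start := P.start
  move := P.move
  acc q := !P.acc q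

theorem opp_conf {n T w : ℕ} (P : ReadProg n T w) (x : Inp n) (k : ℕ) :
    P.opp.conf x k = P.conf x k := rfl

theorem opp_outputs {n T w : ℕ} (P : ReadProg n T w) (x : Inp n) (b : Bool) :
    P.opp.Outputs x b ↔ P.Outputs x !b := by
  constructor
  · rintro ⟨k, h1, h2⟩
    refine ⟨k, h1, ?_⟩
    have h3 : (!P.acc (P.conf x k).state) = b := h2
    rw [← h3, Bool.not_not]
  · rintro ⟨k, h1, h2⟩
    refine ⟨k, h1, ?_⟩
    change (!P.acc (P.conf x k).state) = b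
    rw [h2, Bool.not_not]

theorem oneSided_of_det {n T w : ℕ} {f : Inp n → Bool} (h : ReadsDet f T w) :
    ReadsOneSided (fun x => !f x) T w := by
  obtain ⟨P, hP⟩ := h
  refine ⟨0, fun _ => P.opp, fun x hx => ?_, fun x hx c => ?_⟩
  · have h1 : P.opp.Outputs x true := by
      rw [opp_outputs]
      have h2 := hP x
      have h3 : f x = false := by simpa using hx
      rw [h3] at h2
      exact h2
    have h2 : Nat.card {c : Fin 0 → Bool // P.opp.Outputs x true} = 1 := by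
      rw [Nat.card_eq_one_iff_unique]
      refine ⟨⟨fun a b => ?_⟩, ⟨⟨fun i => i.elim0, h1⟩⟩⟩
      exact Subtype.ext (Subsingleton.elim _ _)
    rw [h2]
    norm_num
  · intro h1
    rw [opp_outputs] at h1
    have h2 : f x = true := by simpa using hx
    have h3 := hP x
    rw [h2] at h3
    have := outputs_unique P x h1 h3
    simp at this

open Classical in
theorem card_filter_outputs {n T w ρ : ℕ} (P : (Fin ρ → Bool) → ReadProg n T w) (x : Inp n)
    (b : Bool) : Nat.card {c : Fin ρ → Bool // (P c).Outputs x b} =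
      (univ.filter fun c => (P c).Outputs x b).card := by
  rw [Nat.card_eq_fintype_card, Fintype.card_subtype]

open Classical in
theorem oneF_of {n T w : ℕ} (hn : 1 ≤ n) {f : Inp n → Bool} (h : ReadsOneSided f T w) :
    OneF (RFn n T w) f := by
  obtain ⟨ρ, P, h1, h2⟩ := h
  refine ⟨ρ, fun c x => decide ((P c).Outputs x true), fun c => rfn_of hn (P c), ?_, ?_⟩
  · intro x hx
    have h3 := h1 x hx
    rw [card_filter_outputs] at h3
    simpa using h3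
  · intro x hx c
    exact decide_eq_false (h2 x hx c)

open Classical in
theorem twoF_of {n T w : ℕ} (hn : 1 ≤ n) {f : Inp n → Bool} (h : ReadsTwoSided f T w) :
    TwoF (RFn n T w) f := by
  obtain ⟨ρ, P, h1⟩ := h
  refine ⟨ρ, fun c x => decide ((P c).Outputs x true), fun c => rfn_of hn (P c), ?_⟩
  intro x
  have h3 := h1 x
  rw [card_filter_outputs] at h3
  refine h3.trans (Nat.mul_le_mul_left _ (card_le_card ?_))
  intro c hc
  rw [mem_filter] at hc ⊢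
  refine ⟨mem_univ _, ?_⟩
  have h4 := hc.2
  cases hf : f x with
  | true =>
    rw [hf] at h4
    exact decide_eq_true h4
  | false =>
    rw [hf] at h4
    refine decide_eq_false fun h5 => ?_
    exact Bool.noConfusion (outputs_unique _ x h4 h5)

theorem OneF.subst' {n n' : ℕ} {F : (Inp n → Bool) → Prop} {G : (Inp n' → Bool) → Prop}
    (σ : Fin n → Option (Fin n')) (c : Inp n) (hFG : ∀ g, F g → G fun d => g (subst σ c d))
    {f : Inp n → Bool} (h : OneF F f) : OneF G fun d => f (subst σ c d) := by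
  obtain ⟨ρ, g, h1, h2, h3⟩ := h
  exact ⟨ρ, fun e d => g e (subst σ c d), fun e => hFG _ (h1 e), fun x hx => h2 _ hx,
    fun x hx e => h3 _ hx e⟩

theorem TwoF.subst' {n n' : ℕ} {F : (Inp n → Bool) → Prop} {G : (Inp n' → Bool) → Prop}
    (σ : Fin n → Option (Fin n')) (c : Inp n) (hFG : ∀ g, F g → G fun d => g (subst σ c d))
    {f : Inp n → Bool} (h : TwoF F f) : TwoF G fun d => f (subst σ c d) := by
  obtain ⟨ρ, g, h1, h2⟩ := h
  exact ⟨ρ, fun e d => g e (subst σ c d), fun e => hFG _ (h1 e), fun x => h2 _⟩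

theorem OneF.mono {n : ℕ} {F G : (Inp n → Bool) → Prop} (hFG : ∀ g, F g → G g)
    {f : Inp n → Bool} (h : OneF F f) : OneF G f := by
  obtain ⟨ρ, g, h1, h2, h3⟩ := h
  exact ⟨ρ, g, fun e => hFG _ (h1 e), h2, h3⟩

theorem RFn.restrict {n n' T w : ℕ} {g : Inp n → Bool} (h : RFn n T w g)
    (σ : Fin n → Option (Fin n')) (c : Inp n) : RFn n' T w fun d => g (subst σ c d) :=
  fun L hL => (h L hL).restrict σ c

/-! ### numbers -/

theorem div_le_aux {T L r : ℕ} (h : T ≤ r * L) : T / ((L + 1) / 2) ≤ 2 * r := by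
  rcases Nat.eq_zero_or_pos ((L + 1) / 2) with h0 | h0
  · rw [h0, Nat.div_zero]
    exact Nat.zero_le _
  · refine Nat.div_le_of_le_mul ?_
    have h1 : L ≤ 2 * ((L + 1) / 2) := by omega
    calc T ≤ r * L := h
      _ ≤ r * (2 * ((L + 1) / 2)) := Nat.mul_le_mul_left _ h1
      _ = (L + 1) / 2 * (2 * r) := by ring

theorem mul_nU_le {T L r m : ℕ} (hL : 1 ≤ L) (h : m * T ≤ r * L) (hm : m ≤ r) :
    m * nU T L ≤ 7 * r := by
  have h1 : m * (T / ((L + 1) / 2)) ≤ 2 * r := by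
    have h2 : 0 < (L + 1) / 2 := by omega
    refine le_trans ?_ (div_le_aux h)
    rw [Nat.le_div_iff_mul_le h2]
    calc m * (T / ((L + 1) / 2)) * ((L + 1) / 2) = m * (T / ((L + 1) / 2) * ((L + 1) / 2)) := by
          ring
      _ ≤ m * T := Nat.mul_le_mul_left _ (Nat.div_mul_le_self _ _)
  unfold nU
  have h3 : m * (3 * (T / ((L + 1) / 2)) + 1) = 3 * (m * (T / ((L + 1) / 2))) + m := by ring
  rw [h3]
  omega

theorem nK_le {T w L S : ℕ} (hS : 1 ≤ S) (hw : w ≤ 2 ^ S) (hT : T + 1 ≤ 2 ^ (2 * S + 1)) :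
    nK T w L ≤ 2 ^ (50 * S * nU T L) := by
  have h2 : 2 ≤ 2 ^ S := by
    calc 2 = 2 ^ 1 := (pow_one 2).symm
      _ ≤ 2 ^ S := Nat.pow_le_pow_right (by norm_num) hS
  have h1 : w + 2 ≤ 2 ^ (S + 1) := by rw [pow_succ]; omega
  have h3 : (T + 1) * (w + 2) ≤ 2 ^ (5 * S) := by
    calc (T + 1) * (w + 2) ≤ 2 ^ (2 * S + 1) * 2 ^ (S + 1) := Nat.mul_le_mul hT h1
      _ = 2 ^ (2 * S + 1 + (S + 1)) := by rw [← pow_add]
      _ ≤ 2 ^ (5 * S) := Nat.pow_le_pow_right (by norm_num) (by omega)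
  have hN : 1 ≤ nU T L := by unfold nU; omega
  unfold nK
  calc (w + 1) * ((T + 1) * (w + 2)) ^ (8 * nU T L)
      ≤ 2 ^ (2 * S) * (2 ^ (5 * S)) ^ (8 * nU T L) := by
        refine Nat.mul_le_mul ?_ (Nat.pow_le_pow_left h3 _)
        calc w + 1 ≤ w + 2 := by omega
          _ ≤ 2 ^ (S + 1) := h1
          _ ≤ 2 ^ (2 * S) := Nat.pow_le_pow_right (by norm_num) (by omega)
    _ = 2 ^ (2 * S + 5 * S * (8 * nU T L)) := by rw [← pow_mul, ← pow_add]
    _ ≤ 2 ^ (50 * S * nU T L) := by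
        refine Nat.pow_le_pow_right (by norm_num) ?_
        have h4 : 2 * S ≤ 2 * S * nU T L := Nat.le_mul_of_pos_right _ hN
        calc 2 * S + 5 * S * (8 * nU T L) ≤ 2 * S * nU T L + 40 * (S * nU T L) := by
              refine Nat.add_le_add h4 (le_of_eq (by ring))
          _ = 42 * (S * nU T L) := by ring
          _ ≤ 50 * (S * nU T L) := Nat.mul_le_mul_right _ (by norm_num)
          _ = 50 * S * nU T L := by ring

theorem resultQ1R : ∃ C : ℕ, ∀ n k S h T w : ℕ, 1 ≤ k → 1 ≤ S → 1 ≤ h →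
    (2 * k * h) ^ (C * k ^ 2) ≤ 2 ^ h → 350 * S * 4 ^ h ≤ n → T ≤ k * n → w ≤ 2 ^ S →
    T + 1 ≤ 2 ^ (2 * S + 1) → ¬ OneF (RFn n T w) (fun x => !cubeFn n (n / 2 ^ h) x) := by
  classical
  obtain ⟨C, hC⟩ := LT.numericQ1
  refine ⟨C, fun n k S h T w hk hS hh hkh hn hT hwS hTS => ?_⟩
  obtain ⟨k0, L, r, e, lam, hk0, hM, hMn, hlt, hkn, hL, hrL, hRR, hLL, he, hlam, hbig, hpow, h4,
    hw⟩ := hC n k (350 * S) h hk (by omega) hh hkh hn
  set M := n / 2 ^ h with hMdef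
  set n' := n / 4 - 8 * M with hn'
  obtain ⟨y, hy⟩ := LT.exists_toep n' (4 * M) (4 * h) (by omega) h4 hpow
  have hγ := LT.goodHash_gamC y hy
  obtain ⟨w0, hw0⟩ := LT.exists_shift1 (K := ZMod 2) (ℓ := 1) (by simp [ZMod.card])
    (fun v : Fin n' => LT.gamC M y v)
  obtain ⟨σ, c, hres⟩ := LT.cube_restrict n M hM hlt y w0
  have hTr : 1 * T ≤ r * L := by
    rw [one_mul]
    exact (Nat.le_add_right T n').trans
      (((Nat.add_le_add_right hT n').trans hkn).trans hrL)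
  have hr1 : 1 ≤ r := by
    rcases Nat.eq_zero_or_pos r with h0 | h0
    · rw [h0, zero_mul] at hrL
      have h5 : 0 < k0 * n' := Nat.mul_pos hk0 (by omega)
      omega
    · exact h0
  have hU := mul_nU_le hL hTr hr1
  rw [one_mul] at hU
  have hK : nK T w L ≤ 2 ^ (350 * S * r) := by
    refine (nK_le hS hwS hTS).trans (Nat.pow_le_pow_right (by norm_num) ?_)
    calc 50 * S * nU T L ≤ 50 * S * (7 * r) := Nat.mul_le_mul_left _ hU
      _ = 350 * S * r := by ring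
  have key : ¬ OneF (CovFn n' (nU T L + (n' / L + 1)) L (T + n') (nK T w L))
      (fun x : Inp n' => decide (Cub (hash (fun v : Fin n' => LT.gamC M y v) x + w0))) := by
    refine part1 (fun v : Fin n' => LT.gamC M y v) w0 (4 * h) (8 * (4 * h) * (4 * M)) hγ
      (by simpa using hw0) k0 (2 ^ 40 * h ^ 2) L _ _ _ e (3 * M + lam) (16 * h * (4 * M)) hk0
      (Nat.mul_pos (by norm_num) (by positivity)) ?_ ?_ ?_ hRR hLL he ?_ ?_
    · calc 16 ≤ 16 * 1 * (4 * 1) := by norm_num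
        _ ≤ 16 * h * (4 * M) := by gcongr
    · exact le_of_eq (by ring)
    · exact le_trans (Nat.add_le_add_right hT _) hkn
    · calc 32 * typ2 k0 (2 ^ 40 * h ^ 2) * nK T w L * nsub n' e * 2 ^ (3 * M)
          ≤ 64 * typ2 k0 (2 ^ 40 * h ^ 2) * 2 ^ (350 * S * r) * nsub n' e * 2 ^ (3 * M) := by
            gcongr
            norm_num
        _ ≤ 2 ^ lam * 2 ^ (3 * M) := Nat.mul_le_mul_right _ hlam
        _ = 2 ^ (3 * M + lam) := by rw [← pow_add, add_comm]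
    · omega
  intro hO
  have h1 := OneF.subst' (G := CovFn n' (nU T L + (n' / L + 1)) L (T + n') (nK T w L)) σ c
    (fun g hg => ((hg.restrict σ c) L hL).cover hL) hO
  have h2 : (fun d : Inp n' => !cubeFn n M (subst σ c d)) = fun x : Inp n' =>
      decide (Cub (hash (fun v : Fin n' => LT.gamC M y v) x + w0)) := by
    funext d
    rw [hres d, Bool.eq_iff_iff, Bool.not_eq_true', decide_eq_false_iff_not, not_not,
      decide_eq_true_iff]
  rw [h2] at h1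
  exact key h1

theorem resultQ2R : ∃ C : ℕ, ∀ n k S h T w : ℕ, 1 ≤ k → 1 ≤ S → 1 ≤ h →
    (2 * k * h) ^ (C * k ^ 2 * (Nat.log 2 (2 * k * h) + 1) ^ 2) ≤ 2 ^ h → 350 * S * 4 ^ h ≤ n →
    T ≤ k * n → w ≤ 2 ^ S → T + 1 ≤ 2 ^ (2 * S + 1) →
    ¬ TwoF (RFn n T w) (factorFn n (n / 2 ^ h) (3 * (Nat.log 2 n + 1))) ∧
    ¬ OneF (RFn n T w) (factorFn n (n / 2 ^ h) (3 * (Nat.log 2 n + 1))) := by
  classical
  obtain ⟨C, hC⟩ := LT.numericQ2
  refine ⟨C, fun n k S h T w hk hS hh hkh hn hT hwS hTS => ?_⟩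
  obtain ⟨k0, L, r, e, lam, s, p, hk0, hs1, hD, hlt, hkn, hL, hrL, hRR, hLL, he, hlam, hs, hpow,
    h4, hp, hpD, hbad, hw⟩ := hC n k (350 * S) h hk (by omega) hh hkh hn
  set D := n / 2 ^ h with hDdef
  set n' := n / 3 - 2 * D with hn'
  set ℓ := 3 * (Nat.log 2 n + 1) with hℓ
  have : Fact (Nat.Prime 2) := ⟨Nat.prime_two⟩
  have hn1 : 1 ≤ n := by omega
  have hn2 : 1 ≤ Nat.log 2 n := by
    apply Nat.log_pos (by norm_num)
    omega
  obtain ⟨y, hy⟩ := LT.exists_toep n' D (4 * h) hD h4 hpow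
  have hγ := LT.goodHash_gamF y hy
  let K := GaloisField 2 ℓ
  have : Fintype K := Fintype.ofFinite K
  have hK : Fintype.card K = 2 ^ ℓ := by
    rw [← Nat.card_eq_fintype_card]
    exact GaloisField.card 2 ℓ (by omega)
  obtain ⟨Θ, hΘ, hΘ4, hΘl⟩ := LT.exists_points ℓ (by omega)
  have hsep := LT.points_sep (p := p) (D := D) hK hΘ hp hpD
  have hΘ0 : Θ.Nonempty := by
    rw [← card_pos]
    by_contra hcon
    have h0 : Θ.card = 0 := by omega
    rw [h0] at hΘl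
    have : 0 < 2 ^ ℓ := by positivity
    omega
  obtain ⟨w0, hw0⟩ := LT.exists_shift2' (n := n') (fun t : K => LT.evalHom D t) Θ
    (fun t ht y => by
      obtain ⟨z, hz, -⟩ := hsep t ht ∅ (empty_subset _) (notMem_empty _)
        (by rw [card_empty]; omega) y
      exact ⟨z, hz⟩)
    (fun v : Fin n' => LT.gamF D y v)
  obtain ⟨σ, c, hres⟩ := LT.factor_restrict n D ℓ hD hlt y w0
  have hbad' : (512 * p ^ 2) ^ p * 2 ^ (lam + 4 * h) ≤ Θ.card ^ p := by
    have h1 : (512 * p ^ 2) ^ p * 2 ^ (lam + 4 * h) * (2 * ℓ) ^ p ≤ Θ.card ^ p * (2 * ℓ) ^ p := by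
      calc (512 * p ^ 2) ^ p * 2 ^ (lam + 4 * h) * (2 * ℓ) ^ p ≤ 2 ^ (ℓ * p) := hbad
        _ = (2 ^ ℓ) ^ p := by rw [pow_mul]
        _ ≤ (2 * ℓ * Θ.card) ^ p := Nat.pow_le_pow_left hΘl p
        _ = Θ.card ^ p * (2 * ℓ) ^ p := by rw [mul_pow, mul_comm]
    exact Nat.le_of_mul_le_mul_right h1 (by positivity)
  have hmT : 12 * s * T ≤ 12 * s * (k * n) := Nat.mul_le_mul_left _ hT
  have hTr : 12 * s * T ≤ r * L := by
    exact (Nat.le_add_right _ n').trans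
      (((Nat.add_le_add_right hmT n').trans hkn).trans hrL)
  have hLn : L ≤ n := by
    have h5 : 1 ≤ 512 * k0 ^ 2 * RR2 k0 (2 ^ 40 * h ^ 2) := by
      have h6 := LT.NumericCoreAux.RR2_pos k0 h hk0 hh
      exact Nat.mul_pos (by positivity) h6
    calc L ≤ 512 * k0 ^ 2 * RR2 k0 (2 ^ 40 * h ^ 2) * L := Nat.le_mul_of_pos_left _ h5
      _ ≤ n' := hLL
      _ ≤ n := by omega
  have hmr : 12 * s ≤ r := by
    have h5 : 12 * s * n ≤ r * n := by
      calc 12 * s * n ≤ 12 * s * (k * n) :=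
            Nat.mul_le_mul_left _ (Nat.le_mul_of_pos_left _ hk)
        _ ≤ r * L := (Nat.le_add_right _ n').trans (hkn.trans hrL)
        _ ≤ r * n := Nat.mul_le_mul_left _ hLn
    exact Nat.le_of_mul_le_mul_right h5 hn1
  have hU := mul_nU_le hL hTr hmr
  have hK' : nK T w L ^ (12 * s) ≤ 2 ^ (350 * S * r) := by
    calc nK T w L ^ (12 * s) ≤ (2 ^ (50 * S * nU T L)) ^ (12 * s) :=
          Nat.pow_le_pow_left (nK_le hS hwS hTS) _
      _ = 2 ^ (50 * S * (12 * s * nU T L)) := by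
          rw [← pow_mul]
          congr 1
          ring
      _ ≤ 2 ^ (50 * S * (7 * r)) :=
          Nat.pow_le_pow_right (by norm_num) (Nat.mul_le_mul_left _ hU)
      _ = 2 ^ (350 * S * r) := by
          congr 1
          ring
  have key : ¬ SmallF (CovFn n' (12 * s * nU T L + (n' / L + 1)) L (12 * s * T + n')
      (nK T w L ^ (12 * s))) (fun x : Inp n' =>
        decide (∃ t ∈ Θ, LT.evalHom D t (hash (fun v : Fin n' => LT.gamF D y v) x + w0) = 0))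
      s := by
    refine part2 (fun t : K => LT.evalHom D t) Θ (by rw [hK]; exact hΘ4) hΘ0 D
      (by rw [Fintype.card_fun, Fintype.card_fin, ZMod.card])
      (fun v : Fin n' => LT.gamF D y v) w0
      (4 * h) (8 * (4 * h) * D) hγ hw0 k0 (2 ^ 40 * h ^ 2) L _ _ _ e lam s p (16 * h * D) hk0
      (Nat.mul_pos (by norm_num) (by positivity)) ?_ ?_ ?_ hRR hLL he ?_ hs hp hsep hbad'
    · calc 16 ≤ 16 * 1 * 1 := by norm_num
        _ ≤ 16 * h * D := by gcongr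
    · exact le_of_eq (by ring)
    · exact (Nat.add_le_add_right hmT n').trans hkn
    · refine le_trans ?_ hlam
      have h5 : nK T w L ^ (12 * s) ≤ (2 ^ (350 * S) * (12 * s + 1)) ^ r := by
        calc nK T w L ^ (12 * s) ≤ 2 ^ (350 * S * r) := hK'
          _ = (2 ^ (350 * S)) ^ r := by rw [pow_mul]
          _ ≤ (2 ^ (350 * S) * (12 * s + 1)) ^ r :=
              Nat.pow_le_pow_left (Nat.le_mul_of_pos_right _ (by omega)) r
      gcongr
  have hfun : (fun d : Inp n' => factorFn n D ℓ (subst σ c d)) = fun x : Inp n' =>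
      decide (∃ t ∈ Θ,
        LT.evalHom D t (hash (fun v : Fin n' => LT.gamF D y v) x + w0) = 0) := by
    funext d
    rw [hres d]
    have h1 := LT.points_iff hΘ (LT.cpoly (hash (fun v : Fin n' => LT.gamF D y v) d + w0))
    simp only [← LT.evalHom_eq] at h1
    exact decide_eq_decide.mpr h1
  have hFG : ∀ (g : Fin (12 * s) → Inp n' → Bool) (τ : ℕ),
      (∀ i, SysFn n' (nU T L) L T (nK T w L) (g i)) →
      CovFn n' (12 * s * nU T L + (n' / L + 1)) L (12 * s * T + n') (nK T w L ^ (12 * s))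
        fun x => decide (τ ≤ (univ.filter fun i => g i x = true).card) :=
    fun g τ hg => (SysFn.thr g hg τ).cover hL
  constructor
  · intro hTS2
    have h1 := TwoF.subst' (G := SysFn n' (nU T L) L T (nK T w L)) σ c
      (fun g hg => (hg.restrict σ c) L hL) hTS2
    rw [hfun] at h1
    exact key (majority hs1 hFG _ h1)
  · intro hOS
    have h1 := OneF.subst' (G := SysFn n' (nU T L) L T (nK T w L)) σ c
      (fun g hg => (hg.restrict σ c) L hL) hOS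
    rw [hfun] at h1
    exact key (one_amp hs1 hFG _ h1)

/-! ### the languages -/

open LT.LangFinalAux

/-- choice of the multiple of the length: first theorem, exponent `h - 5` -/
theorem choose_k1' (C1 : ℕ) : ∃ C : ℕ, 20 ≤ C ∧ ∀ n n' h T : ℕ, C ≤ h → 1 ≤ n' → n' ≤ n →
    n ≤ 2 * n' → C * T ^ 2 * Nat.log 2 h ≤ n ^ 2 * h →
    ∃ k, 1 ≤ k ∧ T ≤ k * n' ∧ (2 * k * (h - 5)) ^ (C1 * k ^ 2) ≤ 2 ^ (h - 5) := by
  obtain ⟨C, hC, h1⟩ := choose_k1 (2 * C1)
  refine ⟨C, hC, fun n n' h T hh hn' hnn hn hT => ?_⟩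
  obtain ⟨k, hk, hTk, h2⟩ := h1 n n' h T hh hn' hnn hn hT
  refine ⟨k, hk, hTk, ?_⟩
  have h3 : ((2 * k * (h - 5)) ^ (C1 * k ^ 2)) ^ 2 ≤ (2 ^ (h - 5)) ^ 2 := by
    calc ((2 * k * (h - 5)) ^ (C1 * k ^ 2)) ^ 2 = (2 * k * (h - 5)) ^ (2 * C1 * k ^ 2) := by
          rw [← pow_mul]
          congr 1
          ring
      _ ≤ (2 * k * (h - 1)) ^ (2 * C1 * k ^ 2) :=
          Nat.pow_le_pow_left (Nat.mul_le_mul_left _ (by omega)) _
      _ ≤ 2 ^ (h - 1) := h2
      _ ≤ 2 ^ ((h - 5) * 2) := Nat.pow_le_pow_right (by norm_num) (by omega)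
      _ = (2 ^ (h - 5)) ^ 2 := by rw [pow_mul]
  exact (Nat.pow_le_pow_iff_left (by norm_num)).mp h3

/-- choice of the multiple of the length: second theorem, exponent `h - 5` -/
theorem choose_k2' (C1 : ℕ) : ∃ C : ℕ, 20 ≤ C ∧ ∀ n n' h T : ℕ, C ≤ h → 1 ≤ n' → n' ≤ n →
    n ≤ 2 * n' → C * T ^ 2 * Nat.log 2 h ^ 3 ≤ n ^ 2 * h →
    ∃ k, 1 ≤ k ∧ T ≤ k * n' ∧
      (2 * k * (h - 5)) ^ (C1 * k ^ 2 * (Nat.log 2 (2 * k * (h - 5)) + 1) ^ 2) ≤
        2 ^ (h - 5) := by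
  obtain ⟨C, hC, h1⟩ := choose_k2 (2 * C1)
  refine ⟨C, hC, fun n n' h T hh hn' hnn hn hT => ?_⟩
  obtain ⟨k, hk, hTk, h2⟩ := h1 n n' h T hh hn' hnn hn hT
  refine ⟨k, hk, hTk, ?_⟩
  have h4 : 2 * k * (h - 5) ≤ 2 * k * (h - 1) := Nat.mul_le_mul_left _ (by omega)
  have h5 : 1 ≤ 2 * k * (h - 1) := Nat.mul_pos (by omega) (by omega)
  have h3 : ((2 * k * (h - 5)) ^ (C1 * k ^ 2 * (Nat.log 2 (2 * k * (h - 5)) + 1) ^ 2)) ^ 2 ≤
      (2 ^ (h - 5)) ^ 2 := by
    calc ((2 * k * (h - 5)) ^ (C1 * k ^ 2 * (Nat.log 2 (2 * k * (h - 5)) + 1) ^ 2)) ^ 2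
        = (2 * k * (h - 5)) ^ (2 * C1 * k ^ 2 * (Nat.log 2 (2 * k * (h - 5)) + 1) ^ 2) := by
          rw [← pow_mul]
          congr 1
          ring
      _ ≤ (2 * k * (h - 1)) ^ (2 * C1 * k ^ 2 * (Nat.log 2 (2 * k * (h - 5)) + 1) ^ 2) :=
          Nat.pow_le_pow_left h4 _
      _ ≤ (2 * k * (h - 1)) ^ (2 * C1 * k ^ 2 * (Nat.log 2 (2 * k * (h - 1)) + 1) ^ 2) := by
          refine Nat.pow_le_pow_right h5 (Nat.mul_le_mul_left _ (Nat.pow_le_pow_left ?_ 2))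
          exact Nat.add_le_add_right (Nat.log_mono_right h4) 1
      _ ≤ 2 ^ (h - 1) := h2
      _ ≤ 2 ^ ((h - 5) * 2) := Nat.pow_le_pow_right (by norm_num) (by omega)
      _ = (2 ^ (h - 5)) ^ 2 := by rw [pow_mul]
  exact (Nat.pow_le_pow_iff_left (by norm_num)).mp h3

theorem space_le {n m S h : ℕ} (hh : 5 ≤ h) (hn : S * 4 ^ h ≤ n) (hm : n ≤ 2 * (n - m)) :
    350 * S * 4 ^ (h - 5) ≤ n - m := by
  have h5 : 4 ^ h = 1024 * 4 ^ (h - 5) := by
    have : h = 5 + (h - 5) := by omega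
    rw [this, pow_add]
    norm_num
  have h6 : 1024 * (S * 4 ^ (h - 5)) ≤ n := by
    calc 1024 * (S * 4 ^ (h - 5)) = S * 4 ^ h := by rw [h5]; ring
      _ ≤ n := hn
  have h7 : 350 * S * 4 ^ (h - 5) = 350 * (S * 4 ^ (h - 5)) := by ring
  rw [h7]
  omega

theorem h_le {S h n : ℕ} (hS : 1 ≤ S) (hn : S * 4 ^ h ≤ n) : h ≤ n ∧ h ≤ Nat.log 2 n := by
  have h4 : 4 ^ h ≤ n := le_trans (Nat.le_mul_of_pos_left _ hS) hn
  have h2 : 2 ^ h ≤ n := (Nat.pow_le_pow_left (by norm_num) h).trans h4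
  have h1 : h < 2 ^ h := Nat.lt_two_pow_self
  have hn0 : 0 < n := lt_of_lt_of_le (by positivity) h4
  exact ⟨by omega, Nat.le_log_of_pow_le (by norm_num) h2⟩

/-- the number of readings is at most the square of the length -/
theorem reads_le {C T n h S Λ : ℕ} (hC : 1 ≤ C) (hΛ : 1 ≤ Λ) (hT : C * T ^ 2 * Λ ≤ n ^ 2 * h)
    (hh : h ≤ n) (hn : n ≤ 2 ^ S) : T + 1 ≤ 2 ^ (2 * S + 1) := by
  have h1 : T ^ 2 ≤ (n ^ 2) ^ 2 := by
    calc T ^ 2 = 1 * T ^ 2 * 1 := by ring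
      _ ≤ C * T ^ 2 * Λ := Nat.mul_le_mul (Nat.mul_le_mul_right _ hC) hΛ
      _ ≤ n ^ 2 * h := hT
      _ ≤ n ^ 2 * n ^ 2 := by
          refine Nat.mul_le_mul_left _ (hh.trans ?_)
          rw [sq]
          rcases Nat.eq_zero_or_pos n with h0 | h0
          · omega
          · exact Nat.le_mul_of_pos_left _ h0
      _ = (n ^ 2) ^ 2 := by ring
  have h2 : T ≤ n ^ 2 := (Nat.pow_le_pow_iff_left (by norm_num)).mp h1
  have h3 : n ^ 2 ≤ 2 ^ (2 * S) := by
    calc n ^ 2 ≤ (2 ^ S) ^ 2 := Nat.pow_le_pow_left hn 2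
      _ = 2 ^ (2 * S) := by rw [← pow_mul, mul_comm]
  have h4 : 1 ≤ 2 ^ (2 * S) := Nat.one_le_two_pow
  rw [pow_succ]
  omega

theorem langRP_lower : ∃ C : ℕ, 20 ≤ C ∧ ∀ n S h T w : ℕ, 1 ≤ S → C ≤ h → S * 4 ^ h ≤ n →
    n ≤ 2 ^ S → C * T ^ 2 * Nat.log 2 h ≤ n ^ 2 * h → w ≤ 2 ^ S →
    ¬ ReadsOneSided (fun x => !langRP n x) T w := by
  obtain ⟨C1, hC1⟩ := resultQ1R
  obtain ⟨C2, hC20, hC2⟩ := choose_k1' C1
  refine ⟨C2, hC20, fun n S h T w hS hh hn hnS hT hw hcon => ?_⟩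
  obtain ⟨hhn, hhl⟩ := h_le hS hn
  obtain ⟨hl1, hl2⟩ := log_facts (n := n) (by omega)
  have hlog : 1 ≤ Nat.log 2 h := Nat.log_pos (by norm_num) (by omega)
  have hTS := reads_le (by omega) hlog hT hhn hnS
  set m := Nat.log 2 n with hm
  obtain ⟨k, hk, hTk, hkh⟩ := hC2 n (n - m) h T hh (by omega) (Nat.sub_le _ _) hl2 hT
  have hS' : 350 * S * 4 ^ (h - 5) ≤ n - m := space_le (by omega) hn hl2
  have hlow := hC1 (n - m) k S (h - 5) T w hk hS (by omega) hkh hS' hTk hw hTS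
  obtain ⟨σ, c, hσ⟩ := select_subst (n := n) (m := m) (h := h - 5) (by omega) (by omega)
  apply hlow
  have h7 := OneF.subst' (G := RFn (n - m) T w) σ c (fun g hg => hg.restrict σ c)
    (oneF_of (by omega) hcon)
  convert h7 using 2 with d
  obtain ⟨e1, e2⟩ := hσ d
  unfold langRP
  rw [← hm, e1, e2]

theorem langNP_lower : ∃ C : ℕ, 20 ≤ C ∧ ∀ n S h T w : ℕ, 1 ≤ S → C ≤ h → S * 4 ^ h ≤ n →
    n ≤ 2 ^ S → C * T ^ 2 * Nat.log 2 h ^ 3 ≤ n ^ 2 * h → w ≤ 2 ^ S →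
    ¬ ReadsTwoSided (langNP n) T w ∧ ¬ ReadsOneSided (langNP n) T w := by
  obtain ⟨C1, hC1⟩ := resultQ2R
  obtain ⟨C2, hC20, hC2⟩ := choose_k2' C1
  refine ⟨C2, hC20, fun n S h T w hS hh hn hnS hT hw => ?_⟩
  obtain ⟨hhn, hhl⟩ := h_le hS hn
  obtain ⟨hl1, hl2⟩ := log_facts (n := n) (by omega)
  have hlog : 1 ≤ Nat.log 2 h := Nat.log_pos (by norm_num) (by omega)
  have hTS := reads_le (by omega) (Nat.one_le_pow 3 _ hlog) hT hhn hnS
  set m := Nat.log 2 n with hm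
  obtain ⟨k, hk, hTk, hkh⟩ := hC2 n (n - m) h T hh (by omega) (Nat.sub_le _ _) hl2 hT
  have hS' : 350 * S * 4 ^ (h - 5) ≤ n - m := space_le (by omega) hn hl2
  obtain ⟨hT2, hO⟩ := hC1 (n - m) k S (h - 5) T w hk hS (by omega) hkh hS' hTk hw hTS
  obtain ⟨σ, c, hσ⟩ := select_subst (n := n) (m := m) (h := h - 5) (by omega) (by omega)
  have hfun : (fun d : Inp (n - m) => langNP n (subst σ c d)) =
      factorFn (n - m) ((n - m) / 2 ^ (h - 5)) (3 * (Nat.log 2 (n - m) + 1)) := by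
    funext d
    obtain ⟨e1, e2⟩ := hσ d
    unfold langNP
    rw [← hm, e1, e2]
  constructor
  · intro hcon
    have h7 := TwoF.subst' (G := RFn (n - m) T w) σ c (fun g hg => hg.restrict σ c)
      (twoF_of (by omega) hcon)
    rw [hfun] at h7
    exact hT2 h7
  · intro hcon
    have h7 := OneF.subst' (G := RFn (n - m) T w) σ c (fun g hg => hg.restrict σ c)
      (oneF_of (by omega) hcon)
    rw [hfun] at h7
    exact hO h7

/-- Small space: if `2 ^ S < n` the bound for space `log2 n + 1` is used. -/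
theorem small_space {C n S h : ℕ} (hC : 20 ≤ C) (hS : 1 ≤ S) (hh : 3 * C ≤ h)
    (hn : S * 4 ^ h ≤ n) : 1 ≤ Nat.log 2 n + 1 ∧ C ≤ h / 2 ∧ (Nat.log 2 n + 1) * 4 ^ (h / 2) ≤ n ∧
      n ≤ 2 ^ (Nat.log 2 n + 1) := by
  have h4 : 4 ^ h ≤ n := le_trans (Nat.le_mul_of_pos_left _ hS) hn
  refine ⟨by omega, by omega, ?_, (Nat.lt_pow_succ_log_self (by norm_num) n).le⟩
  set L := Nat.log 2 n with hL
  have hn0 : n ≠ 0 := by
    intro h0
    rw [h0] at h4
    have : 0 < 4 ^ h := by positivity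
    omega
  have h5 : 2 ^ L ≤ n := Nat.pow_log_le_self 2 hn0
  have h6 : 2 * h ≤ L := by
    rw [hL]
    refine Nat.le_log_of_pow_le (by norm_num) ?_
    rw [pow_mul]
    exact h4
  -- `(L + 1)^2 * 2^h ≤ 2^L`
  have h7 : ∀ a : ℕ, 60 ≤ a → ∀ L : ℕ, 2 * a ≤ L → (L + 1) ^ 2 * 2 ^ (a + a) ≤ (2 ^ L) ^ 2 := by
    intro a ha L hL
    have e1 : L + 1 ≤ 2 ^ (L - a) := by
      have e2 : L - a + 1 ≤ 2 ^ (L - a) := Nat.lt_two_pow_self
      have e3 : 2 * (L - a) ≤ 2 ^ (L - a) := by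
        have : ∀ b : ℕ, 60 ≤ b → 2 * b + 2 ≤ 2 ^ b := by
          intro b hb
          induction b, hb using Nat.le_induction with
          | base => norm_num
          | succ b hb ih => rw [pow_succ]; omega
        have := this (L - a) (by omega)
        omega
      have e4 : ∀ b : ℕ, 60 ≤ b → 2 * b + 2 ≤ 2 ^ b := by
        intro b hb
        induction b, hb using Nat.le_induction with
        | base => norm_num
        | succ b hb ih => rw [pow_succ]; omega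
      have := e4 (L - a) (by omega)
      omega
    calc (L + 1) ^ 2 * 2 ^ (a + a) ≤ (2 ^ (L - a)) ^ 2 * 2 ^ (a + a) :=
          Nat.mul_le_mul_right _ (Nat.pow_le_pow_left e1 2)
      _ = (2 ^ (L - a) * 2 ^ a) ^ 2 := by rw [pow_add]; ring
      _ = (2 ^ L) ^ 2 := by
          rw [← pow_add]
          congr 2
          omega
  have h8 : ((L + 1) * 4 ^ (h / 2)) ^ 2 ≤ (2 ^ L) ^ 2 := by
    calc ((L + 1) * 4 ^ (h / 2)) ^ 2 = (L + 1) ^ 2 * 4 ^ (h / 2 * 2) := by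
          rw [mul_pow, ← pow_mul]
      _ ≤ (L + 1) ^ 2 * 4 ^ h :=
          Nat.mul_le_mul_left _ (Nat.pow_le_pow_right (by norm_num) (by omega))
      _ = (L + 1) ^ 2 * 2 ^ (h + h) := by
          congr 1
          rw [← two_mul, pow_mul]
          norm_num
      _ ≤ (2 ^ L) ^ 2 := h7 h (by omega) L h6
  exact ((Nat.pow_le_pow_iff_left (by norm_num)).mp h8).trans h5

theorem small_reads {C n h T j : ℕ} (hT : 3 * C * T ^ 2 * Nat.log 2 h ^ j ≤ n ^ 2 * h)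
    (hh : 2 ≤ h) : C * T ^ 2 * Nat.log 2 (h / 2) ^ j ≤ n ^ 2 * (h / 2) := by
  have h1 : Nat.log 2 (h / 2) ^ j ≤ Nat.log 2 h ^ j :=
    Nat.pow_le_pow_left (Nat.log_mono_right (Nat.div_le_self _ _)) j
  have h2 : 3 * (C * T ^ 2 * Nat.log 2 (h / 2) ^ j) ≤ 3 * (n ^ 2 * (h / 2)) := by
    calc 3 * (C * T ^ 2 * Nat.log 2 (h / 2) ^ j) ≤ 3 * (C * T ^ 2 * Nat.log 2 h ^ j) :=
          Nat.mul_le_mul_left _ (Nat.mul_le_mul_left _ h1)
      _ = 3 * C * T ^ 2 * Nat.log 2 h ^ j := by ring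
      _ ≤ n ^ 2 * h := hT
      _ ≤ n ^ 2 * (3 * (h / 2)) := Nat.mul_le_mul_left _ (by omega)
      _ = 3 * (n ^ 2 * (h / 2)) := by ring
  omega

theorem resultRP : ∃ C : ℕ, (∀ n ≥ 1, ∃ w ≤ C * n ^ 5, OneSidedOnePass (langRP n) w) ∧
    ∀ n S h T w : ℕ, 1 ≤ S → C ≤ h → S * 4 ^ h ≤ n → C * T ^ 2 * Nat.log 2 h ≤ n ^ 2 * h →
      w ≤ 2 ^ S → ¬ ReadsOneSided (fun x => !langRP n x) T w ∧ ¬ ReadsDet (langRP n) T w := by
  obtain ⟨C0, h0, -⟩ := LT.resultRP
  obtain ⟨C1, hC20, h1⟩ := langRP_lower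
  refine ⟨C0 + 3 * C1, fun n hn => ?_, fun n S h T w hS hh hn hT hw => ?_⟩
  · obtain ⟨w, hw1, hw2⟩ := h0 n hn
    exact ⟨w, hw1.trans (Nat.mul_le_mul_right _ (Nat.le_add_right _ _)), hw2⟩
  · have hT3 : 3 * C1 * T ^ 2 * Nat.log 2 h ≤ n ^ 2 * h := by
      refine le_trans ?_ hT
      gcongr
      omega
    have hT1 : C1 * T ^ 2 * Nat.log 2 h ≤ n ^ 2 * h := by
      refine le_trans ?_ hT3
      gcongr
      omega
    have key : ¬ ReadsOneSided (fun x => !langRP n x) T w := by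
      rcases Nat.lt_or_ge (2 ^ S) n with hnS | hnS
      · obtain ⟨a1, a2, a3, a4⟩ := small_space (C := C1) hC20 hS (by omega) hn
        refine h1 n (Nat.log 2 n + 1) (h / 2) T w a1 a2 a3 a4 ?_ (by omega)
        have := small_reads (j := 1) (C := C1) (n := n) (h := h) (T := T)
          (by rw [pow_one]; exact hT3) (by omega)
        rwa [pow_one] at this
      · exact h1 n S h T w hS (by omega) hn hnS hT1 hw
    exact ⟨key, fun hdet => key (oneSided_of_det hdet)⟩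

theorem resultNP : ∃ C : ℕ, (∀ n ≥ 1, ∃ w ≤ C * n ^ 10, NondetOnePass (langNP n) w) ∧
    ∀ n S h T w : ℕ, 1 ≤ S → C ≤ h → S * 4 ^ h ≤ n → C * T ^ 2 * Nat.log 2 h ^ 3 ≤ n ^ 2 * h →
      w ≤ 2 ^ S → ¬ ReadsTwoSided (langNP n) T w ∧ ¬ ReadsOneSided (langNP n) T w := by
  obtain ⟨C0, h0, -⟩ := LT.resultNP
  obtain ⟨C1, hC20, h1⟩ := langNP_lower
  refine ⟨C0 + 3 * C1, fun n hn => ?_, fun n S h T w hS hh hn hT hw => ?_⟩
  · obtain ⟨w, hw1, hw2⟩ := h0 n hn
    exact ⟨w, hw1.trans (Nat.mul_le_mul_right _ (Nat.le_add_right _ _)), hw2⟩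
  · have hT3 : 3 * C1 * T ^ 2 * Nat.log 2 h ^ 3 ≤ n ^ 2 * h := by
      refine le_trans ?_ hT
      gcongr
      omega
    have hT1 : C1 * T ^ 2 * Nat.log 2 h ^ 3 ≤ n ^ 2 * h := by
      refine le_trans ?_ hT3
      gcongr
      omega
    rcases Nat.lt_or_ge (2 ^ S) n with hnS | hnS
    · obtain ⟨a1, a2, a3, a4⟩ := small_space (C := C1) hC20 hS (by omega) hn
      exact h1 n (Nat.log 2 n + 1) (h / 2) T w a1 a2 a3 a4 (small_reads hT3 (by omega)) (by omega)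
    · exact h1 n S h T w hS (by omega) hn hnS hT1 hw

end Pool.Agent.SR
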