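import Mathlib
import Pool.Agent.Lib.MP_b573ec_lc_LT.Model
import Pool.Agent.Lib.MP_b573ec_lc_SR.Model

/-!
# Branching programs are read programs which do not use the stack
-/

namespace Pool.Agent.SR

open Finset
open Pool.Agent.LT (Inp Prog Det OneSided TwoSided)
open Pool.Agent.ST (Conf)

/-- a branching program of length `T` as a read program with `T` readings -/
def ofProg {n T w : ℕ} (P : Prog n T w) : ReadProg n T w where
  start := P.start
  move i s _ := .read (P.var i s) (P.next i s)
  acc := P.acc

theorem ofProg_conf {n T w : ℕ} (P : Prog n T w) (x : Inp n) (k : ℕ) (hk : k ≤ T) :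
    (ofProg P).conf x k = ⟨k, P.state x k, []⟩ := by
  induction k with
  | zero => rfl
  | succ k ih =>
    have h : k < T := hk
    have e : (ofProg P).conf x (k + 1) = (ofProg P).step x ((ofProg P).conf x k) := by
      simp only [ReadProg.conf, Function.iterate_succ_apply']
    rw [e, ih h.le]
    unfold ReadProg.step
    rw [dif_pos h]
    simp only [ofProg, Prog.state, dif_pos h]

theorem ofProg_outputs {n T w : ℕ} (P : Prog n T w) (x : Inp n) (b : Bool) :
    (ofProg P).Outputs x b ↔ P.eval x = b := by
  constructor
  · rintro ⟨k, h1, h2⟩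
    have h3 : T ≤ k := by
      by_contra h
      rw [ofProg_conf P x k (by omega)] at h1
      have h4 : k = T := h1
      omega
    obtain ⟨m, rfl⟩ := Nat.exists_eq_add_of_le h3
    have h4 : ∀ m, (ofProg P).conf x (T + m) = ⟨T, P.state x T, []⟩ := by
      intro m
      induction m with
      | zero => exact ofProg_conf P x T le_rfl
      | succ m ih =>
        have e : (ofProg P).conf x (T + (m + 1)) =
            (ofProg P).step x ((ofProg P).conf x (T + m)) := by
          rw [← add_assoc]
          simp only [ReadProg.conf, Function.iterate_succ_apply']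
        rw [e, ih]
        unfold ReadProg.step
        rw [dif_neg (lt_irrefl _)]
    rw [h4] at h2
    exact h2
  · intro h
    refine ⟨T, ?_, ?_⟩
    · rw [ofProg_conf P x T le_rfl]
    · rw [ofProg_conf P x T le_rfl]
      exact h

theorem readsDet_of_det {n T w : ℕ} {f : Inp n → Bool} (h : Det f T w) : ReadsDet f T w := by
  obtain ⟨P, hP⟩ := h
  exact ⟨ofProg P, fun x => (ofProg_outputs P x _).2 (hP x)⟩

theorem readsOneSided_of_oneSided {n T w : ℕ} {f : Inp n → Bool} (h : OneSided f T w) :
    ReadsOneSided f T w := by
  classical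
  obtain ⟨ρ, P, h1, h2⟩ := h
  refine ⟨ρ, fun c => ofProg (P c), fun x hx => ?_, fun x hx c hc => ?_⟩
  · simp only [ofProg_outputs]
    rw [Nat.card_eq_fintype_card, Fintype.card_subtype]
    exact h1 x hx
  · rw [ofProg_outputs] at hc
    rw [h2 x hx c] at hc
    exact Bool.noConfusion hc

theorem readsTwoSided_of_twoSided {n T w : ℕ} {f : Inp n → Bool} (h : TwoSided f T w) :
    ReadsTwoSided f T w := by
  classical
  obtain ⟨ρ, P, h1⟩ := h
  refine ⟨ρ, fun c => ofProg (P c), fun x => ?_⟩
  simp only [ofProg_outputs]
  rw [Nat.card_eq_fintype_card, Fintype.card_subtype]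
  exact h1 x

end Pool.Agent.SR
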