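import Pool.Agent.Lib.MP_b573ec_lc_LT.V2.Defs3

/-!
# Systems of independent units (auxiliary, not used in the final statements)
-/

namespace Pool.Agent.SR

open Finset
open Pool.Agent.LT (Inp abad2)

/-- A system: every input has a skeleton `tau x`; `rd s l x` is the set of variables read by unit
`l` of the skeleton `s`, and `ok s l x` says that this unit accepts; both depend only on the values
read.  The skeleton of `x` is the only one all of whose units accept. -/
structure Sys (n r : ℕ) (Sk : Type) where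
  rd : Sk → Fin r → Inp n → Finset (Fin n)
  ok : Sk → Fin r → Inp n → Prop
  tau : Inp n → Sk
  dep_rd : ∀ s l x y, (∀ v ∈ rd s l x, x v = y v) → rd s l y = rd s l x
  dep_ok : ∀ s l x y, (∀ v ∈ rd s l x, x v = y v) → ok s l x → ok s l y
  tau_ok : ∀ x l, ok (tau x) l x
  ok_tau : ∀ s x, (∀ l, ok s l x) → tau x = s

namespace Sys

variable {n r : ℕ} {Sk : Type} (B : Sys n r Sk)

/-- the variables read in unit `l` on the input `x` -/
def R (x : Inp n) (l : Fin r) : Finset (Fin n) := B.rd (B.tau x) l x

/-- the units in which `x` reads the variable `v` -/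
def Lay (x : Inp n) (v : Fin n) : Finset (Fin r) := univ.filter fun l => v ∈ B.R x l

/-- the variables of `U` which `x` reads only in units of colour `c` -/
def foot (F : Fin r → ℕ) (U : Finset (Fin n)) (c : ℕ) (x : Inp n) : Finset (Fin n) :=
  U.filter fun v => ∀ l ∈ B.Lay x v, F l = c

/-- the class of `x`: same skeleton, same feet, same values off the feet -/
def cls [DecidableEq Sk] (F : Fin r → ℕ) (U : Finset (Fin n)) (x : Inp n) : Finset (Inp n) :=
  univ.filter fun y => B.tau y = B.tau x ∧
    B.foot F U 0 y = B.foot F U 0 x ∧ B.foot F U 1 y = B.foot F U 1 x ∧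
    ∀ v, v ∉ B.foot F U 0 x → v ∉ B.foot F U 1 x → y v = x v

/-- the members of the class of `x` which agree with `x` off the foot of colour `c` -/
def side [DecidableEq Sk] (F : Fin r → ℕ) (U : Finset (Fin n)) (c : ℕ) (x : Inp n) :
    Finset (Inp n) :=
  (B.cls F U x).filter fun y => ∀ v, v ∉ B.foot F U c x → y v = x v

end Sys

/-- `g` is a function of the skeleton of a system with `r` units, at most `K` skeletons, at most `L`
readings in a unit and at most `R` readings in all units. -/
def SysFn (n r L R K : ℕ) (g : Inp n → Bool) : Prop :=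
  ∃ (Sk : Type) (_ : Fintype Sk) (B : Sys n r Sk), Fintype.card Sk ≤ K ∧
    (∀ x l, (B.R x l).card ≤ L) ∧ (∀ x, ∑ l, (B.R x l).card ≤ R) ∧
    ∀ x y, B.tau x = B.tau y → g x = g y

/-- the same, and every variable is read at least once on every input -/
def CovFn (n r L R K : ℕ) (g : Inp n → Bool) : Prop :=
  ∃ (Sk : Type) (_ : Fintype Sk) (B : Sys n r Sk), Fintype.card Sk ≤ K ∧
    (∀ x l, (B.R x l).card ≤ L) ∧ (∀ x, ∑ l, (B.R x l).card ≤ R) ∧
    (∀ x v, (B.Lay x v).Nonempty) ∧ ∀ x y, B.tau x = B.tau y → g x = g y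

/-- `f` is computed with one-sided error by functions of the class `F` -/
def OneF {n : ℕ} (F : (Inp n → Bool) → Prop) (f : Inp n → Bool) : Prop :=
  ∃ (ρ : ℕ) (g : (Fin ρ → Bool) → Inp n → Bool), (∀ c, F (g c)) ∧
    (∀ x, f x = true → 2 ^ ρ ≤ 2 * (univ.filter fun c => g c x = true).card) ∧
    ∀ x, f x = false → ∀ c, g c x = false

/-- `f` is computed with two-sided error `1/3` by functions of the class `F` -/
def TwoF {n : ℕ} (F : (Inp n → Bool) → Prop) (f : Inp n → Bool) : Prop :=
  ∃ (ρ : ℕ) (g : (Fin ρ → Bool) → Inp n → Bool), (∀ c, F (g c)) ∧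
    ∀ x, 2 * 2 ^ ρ ≤ 3 * (univ.filter fun c => g c x = f x).card

/-- `f` is computed with two-sided error `2 ^ (-s)` by functions of the class `F` -/
def SmallF {n : ℕ} (F : (Inp n → Bool) → Prop) (f : Inp n → Bool) (s : ℕ) : Prop :=
  ∃ (ρ : ℕ) (g : (Fin ρ → Bool) → Inp n → Bool), (∀ c, F (g c)) ∧
    ∀ x, (univ.filter fun c => g c x ≠ f x).card * 2 ^ s ≤ 2 ^ ρ

end Pool.Agent.SR
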